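import Pool.Agent.helper75.HX.One1

/-!
# Two1 : API in two variables

`E1 j f x y = e j (fun x' => f x' y) x`, `E2 k f x y = e k (f x) y`, `D1 j f x y = d2 j (fun x' => f x' y) x`
(`rfl` or `cases j <;> rfl`), `D2_eq`.  Everything commutes (`e_comm`), use `One1`.
-/

set_option autoImplicit false

namespace Pool.Agent.helper75.HX

open Finset Pool.Agent.helper18.HC

variable {K L : ℕ}

theorem E1_eq (j : ℕ) (f : Dy K → Dy L → ℝ) (x : Dy K) (y : Dy L) :
    E1 j f x y = e j (fun x' => f x' y) x := rfl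

theorem E2_eq (k : ℕ) (f : Dy K → Dy L → ℝ) (x : Dy K) (y : Dy L) :
    E2 k f x y = e k (f x) y := rfl

theorem D1_eq (j : ℕ) (f : Dy K → Dy L → ℝ) (x : Dy K) (y : Dy L) :
    D1 j f x y = d2 j (fun x' => f x' y) x := by
  cases j <;> rfl

private theorem Two1_D1_zero (f : Dy K → Dy L → ℝ) : D1 0 f = E1 0 f := rfl

private theorem Two1_D1_succ (j : ℕ) (f : Dy K → Dy L → ℝ) :
    D1 (j + 1) f = fun x y => E1 (j + 1) f x y - E1 j f x y := rfl

private theorem Two1_D2_zero (f : Dy K → Dy L → ℝ) : D2 0 f = E2 0 f := rfl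

private theorem Two1_D2_succ (k : ℕ) (f : Dy K → Dy L → ℝ) :
    D2 (k + 1) f = fun x y => E2 (k + 1) f x y - E2 k f x y := rfl

private theorem Two1_E1_sub (j : ℕ) (f g : Dy K → Dy L → ℝ) :
    E1 j (fun x y => f x y - g x y) = fun x y => E1 j f x y - E1 j g x y := by
  funext x y
  exact e_sub j (fun x' => f x' y) (fun x' => g x' y) x

private theorem Two1_E2_sub (k : ℕ) (f g : Dy K → Dy L → ℝ) :
    E2 k (fun x y => f x y - g x y) = fun x y => E2 k f x y - E2 k g x y := by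
  funext x y
  exact e_sub k (f x) (g x) y

private theorem Two1_E1_E2 (j k : ℕ) (f : Dy K → Dy L → ℝ) : E1 j (E2 k f) = E2 k (E1 j f) := by
  funext x y
  exact e_comm j k f x y

theorem D1_E2 (j k : ℕ) (f : Dy K → Dy L → ℝ) : D1 j (E2 k f) = E2 k (D1 j f) := by
  cases j with
  | zero => rw [Two1_D1_zero, Two1_D1_zero, Two1_E1_E2]
  | succ j => rw [Two1_D1_succ, Two1_D1_succ, Two1_E2_sub, Two1_E1_E2, Two1_E1_E2]

theorem D2_E1 (j k : ℕ) (f : Dy K → Dy L → ℝ) : D2 k (E1 j f) = E1 j (D2 k f) := by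
  cases k with
  | zero => rw [Two1_D2_zero, Two1_D2_zero, Two1_E1_E2]
  | succ k => rw [Two1_D2_succ, Two1_D2_succ, Two1_E1_sub, Two1_E1_E2, Two1_E1_E2]

private theorem Two1_D2_sub (k : ℕ) (f g : Dy K → Dy L → ℝ) :
    D2 k (fun x y => f x y - g x y) = fun x y => D2 k f x y - D2 k g x y := by
  cases k with
  | zero => rw [Two1_D2_zero, Two1_D2_zero, Two1_D2_zero, Two1_E2_sub]
  | succ k =>
    rw [Two1_D2_succ, Two1_D2_succ, Two1_D2_succ, Two1_E2_sub, Two1_E2_sub]
    funext x y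
    ring

theorem D1_D2 (j k : ℕ) (f : Dy K → Dy L → ℝ) : D1 j (D2 k f) = D2 k (D1 j f) := by
  cases j with
  | zero => rw [Two1_D1_zero, Two1_D1_zero, D2_E1]
  | succ j => rw [Two1_D1_succ, Two1_D1_succ, Two1_D2_sub, D2_E1, D2_E1]

theorem E1_E2 (j k : ℕ) (f : Dy K → Dy L → ℝ) : E1 j (E2 k f) = E2 k (E1 j f) := Two1_E1_E2 j k f

private theorem Two1_d2_add (j : ℕ) (u v : Dy K → ℝ) (x : Dy K) :
    d2 j (fun x => u x + v x) x = d2 j u x + d2 j v x := by
  cases j with
  | zero => exact e_add 0 u v x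
  | succ j =>
    show e (j + 1) (fun x => u x + v x) x - e j (fun x => u x + v x) x =
      (e (j + 1) u x - e j u x) + (e (j + 1) v x - e j v x)
    rw [e_add, e_add]
    ring

private theorem Two1_d2_const_mul (j : ℕ) (c : ℝ) (u : Dy K → ℝ) (x : Dy K) :
    d2 j (fun x => c * u x) x = c * d2 j u x := by
  cases j with
  | zero => exact e_const_mul 0 c u x
  | succ j =>
    show e (j + 1) (fun x => c * u x) x - e j (fun x => c * u x) x = c * (e (j + 1) u x - e j u x)
    rw [e_const_mul, e_const_mul]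
    ring

private theorem Two1_d2_zero_fun (j : ℕ) (x : Dy K) : d2 j (fun _ => 0) x = 0 := by
  cases j with
  | zero => exact e_const_zero 0 x
  | succ j =>
    show e (j + 1) (fun _ => 0) x - e j (fun _ => 0) x = 0
    rw [e_const_zero, e_const_zero, sub_zero]

theorem D1_add (j : ℕ) (f g : Dy K → Dy L → ℝ) (x : Dy K) (y : Dy L) :
    D1 j (fun x y => f x y + g x y) x y = D1 j f x y + D1 j g x y := by
  rw [D1_eq, D1_eq, D1_eq]
  exact Two1_d2_add j (fun x' => f x' y) (fun x' => g x' y) x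

private theorem Two1_D2_add (k : ℕ) (f g : Dy K → Dy L → ℝ) :
    D2 k (fun x y => f x y + g x y) = fun x y => D2 k f x y + D2 k g x y := by
  funext x y
  rw [D2_eq, D2_eq, D2_eq]
  exact Two1_d2_add k (f x) (g x) y

theorem DD_add (j k : ℕ) (f g : Dy K → Dy L → ℝ) (x : Dy K) (y : Dy L) :
    DD j k (fun x y => f x y + g x y) x y = DD j k f x y + DD j k g x y := by
  unfold DD
  rw [Two1_D2_add, D1_add]

theorem DD_const_mul (j k : ℕ) (c : ℝ) (f : Dy K → Dy L → ℝ) (x : Dy K) (y : Dy L) :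
    DD j k (fun x y => c * f x y) x y = c * DD j k f x y := by
  unfold DD
  have h1 : D2 k (fun x y => c * f x y) = fun x y => c * D2 k f x y := by
    funext x y
    rw [D2_eq, D2_eq]
    exact Two1_d2_const_mul k c (f x) y
  rw [h1, D1_eq, D1_eq]
  exact Two1_d2_const_mul j c (fun x' => D2 k f x' y) x

private theorem Two1_DD_zero_fun (j k : ℕ) (x : Dy K) (y : Dy L) :
    DD j k (fun _ _ => 0) x y = 0 := by
  have h := DD_const_mul j k 0 (fun (_ : Dy K) (_ : Dy L) => (0 : ℝ)) x y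
  rw [zero_mul] at h
  simpa using h

theorem DD_sum {ι : Type} (s : Finset ι) (j k : ℕ) (f : ι → Dy K → Dy L → ℝ) (x : Dy K) (y : Dy L) :
    DD j k (fun x y => ∑ i ∈ s, f i x y) x y = ∑ i ∈ s, DD j k (f i) x y := by
  classical
  induction s using Finset.induction_on with
  | empty =>
    simp only [Finset.sum_empty]
    exact Two1_DD_zero_fun j k x y
  | insert a s ha ih =>
    rw [Finset.sum_insert ha, ← ih, ← DD_add]
    congr 1
    funext x y
    rw [Finset.sum_insert ha]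

/-- `∑_{j ≤ m} D1 j = E1 m`. -/
theorem sum_D1 (m : ℕ) (f : Dy K → Dy L → ℝ) (x : Dy K) (y : Dy L) :
    ∑ j ∈ range (m + 1), D1 j f x y = E1 m f x y := by
  rw [E1_eq, ← sum_d2]
  exact Finset.sum_congr rfl fun j _ => D1_eq j f x y

theorem sum_D2 (m : ℕ) (f : Dy K → Dy L → ℝ) (x : Dy K) (y : Dy L) :
    ∑ k ∈ range (m + 1), D2 k f x y = E2 m f x y := by
  rw [E2_eq, ← sum_d2]
  exact Finset.sum_congr rfl fun k _ => D2_eq k f x y

theorem sum_D1_all (f : Dy K → Dy L → ℝ) (x : Dy K) (y : Dy L) :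
    ∑ j ∈ range (K + 1), D1 j f x y = f x y := by
  rw [sum_D1, E1_eq, e_large le_rfl]

private theorem Two1_sum_D2_all (f : Dy K → Dy L → ℝ) (x : Dy K) (y : Dy L) :
    ∑ k ∈ range (L + 1), D2 k f x y = f x y := by
  rw [sum_D2, E2_eq, e_large le_rfl]

/-- `D1 j f` is the sum of the double differences. -/
private theorem Two1_D1_eq_sum (j : ℕ) (f : Dy K → Dy L → ℝ) (x : Dy K) (y : Dy L) :
    D1 j f x y = ∑ k ∈ range (L + 1), DD j k f x y := by
  rw [← Two1_sum_D2_all (D1 j f) x y]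
  refine Finset.sum_congr rfl fun k _ => ?_
  unfold DD
  rw [D1_D2]

theorem sum_DD_all (f : Dy K → Dy L → ℝ) (x : Dy K) (y : Dy L) :
    ∑ j ∈ range (K + 1), ∑ k ∈ range (L + 1), DD j k f x y = f x y := by
  rw [← sum_D1_all f x y]
  exact Finset.sum_congr rfl fun j _ => (Two1_D1_eq_sum j f x y).symm

/-- `D1 j f` is the sum of the double differences. -/
theorem D1_eq_sum (j : ℕ) (f : Dy K → Dy L → ℝ) (x : Dy K) (y : Dy L) :
    D1 j f x y = ∑ k ∈ range (L + 1), DD j k f x y := Two1_D1_eq_sum j f x y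

theorem D2_eq_sum (k : ℕ) (f : Dy K → Dy L → ℝ) (x : Dy K) (y : Dy L) :
    D2 k f x y = ∑ j ∈ range (K + 1), DD j k f x y := (sum_D1_all (D2 k f) x y).symm

private theorem Two1_DD_x (j k : ℕ) (f : Dy K → Dy L → ℝ) (x : Dy K) (y : Dy L) :
    DD j k f x y = d2 j (fun x' => D2 k f x' y) x := D1_eq j (D2 k f) x y

private theorem Two1_DD_y (j k : ℕ) (f : Dy K → Dy L → ℝ) (x : Dy K) (y : Dy L) :
    DD j k f x y = d2 k (D1 j f x) y := by
  unfold DD
  rw [D1_D2, D2_eq]

/-- Measurability of the squares of the double differences. -/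
theorem meas_DD_sq_x (j k : ℕ) (f : Dy K → Dy L → ℝ) (y : Dy L) :
    Meas (j - 1) (fun x => (DD j k f x y) ^ 2) := by
  have h : (fun x => (DD j k f x y) ^ 2) = fun x => d2 j (fun x' => D2 k f x' y) x ^ 2 := by
    funext x
    rw [Two1_DD_x]
  rw [h]
  exact meas_d2_sq j _

theorem meas_DD_sq_y (j k : ℕ) (f : Dy K → Dy L → ℝ) (x : Dy K) :
    Meas (k - 1) (fun y => (DD j k f x y) ^ 2) := by
  have h : (fun y => (DD j k f x y) ^ 2) = fun y => d2 k (D1 j f x) y ^ 2 := by
    funext y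
    rw [Two1_DD_y]
  rw [h]
  exact meas_d2_sq k _

private theorem Two1_DD_mul (c : Dy K → Dy L → ℝ) {j k : ℕ}
    (hx : ∀ y, Meas (j - 1) (fun x => c x y)) (hy : ∀ x, Meas (k - 1) (fun y => c x y))
    (f : Dy K → Dy L → ℝ) {j' k' : ℕ} (hj' : j' ≤ K) (hk' : k' ≤ L) (hj : j ≤ K) (hk : k ≤ L)
    (x : Dy K) (y : Dy L) :
    DD j' k' (fun x y => c x y * DD j k f x y) x y =
      if j' = j ∧ k' = k then c x y * DD j k f x y else 0 := by
  have h1 : D2 k' (fun x y => c x y * DD j k f x y) =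
      fun x y => if k' = k then c x y * DD j k f x y else 0 := by
    funext x y
    rw [D2_eq]
    have h2 : (fun y => c x y * DD j k f x y) = fun y => c x y * d2 k (D1 j f x) y := by
      funext y
      rw [Two1_DD_y]
    show d2 k' (fun y => c x y * DD j k f x y) y = _
    rw [h2, d2_mul k' k hk' hk (hy x), Two1_DD_y]
  unfold DD at h1 ⊢
  rw [h1]
  by_cases hkk : k' = k
  · simp only [if_pos hkk, hkk, and_true]
    rw [D1_eq]
    have h3 : (fun x' => c x' y * D1 j (D2 k f) x' y) =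
        fun x' => c x' y * d2 j (fun x'' => D2 k f x'' y) x' := by
      funext x'
      rw [D1_eq]
    show d2 j' (fun x' => c x' y * D1 j (D2 k f) x' y) x = _
    rw [h3, d2_mul j' j hj' hj (hx y), D1_eq]
  · simp only [if_neg hkk, hkk, and_false, if_false]
    rw [D1_eq]
    exact Two1_d2_zero_fun j' x

/-- Multipliers: if `c j k` is measurable at level `j - 1` in `x` and `k - 1` in `y`, then
`∑ c_{jk} DD_{jk} f` has the double differences `c_{jk} DD_{jk} f` (`d2_mul` twice). -/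
theorem DD_mult (c : ℕ → ℕ → Dy K → Dy L → ℝ)
    (hx : ∀ j k y, Meas (j - 1) (fun x => c j k x y))
    (hy : ∀ j k x, Meas (k - 1) (fun y => c j k x y)) (f : Dy K → Dy L → ℝ)
    {j' k' : ℕ} (hj : j' ≤ K) (hk : k' ≤ L) (x : Dy K) (y : Dy L) :
    DD j' k' (fun x y => ∑ j ∈ range (K + 1), ∑ k ∈ range (L + 1), c j k x y * DD j k f x y) x y =
      c j' k' x y * DD j' k' f x y := by
  rw [DD_sum (range (K + 1)) j' k' fun j x y => ∑ k ∈ range (L + 1), c j k x y * DD j k f x y]
  have h1 : ∀ j ∈ range (K + 1),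
      DD j' k' (fun x y => ∑ k ∈ range (L + 1), c j k x y * DD j k f x y) x y =
        if j' = j then c j k' x y * DD j k' f x y else 0 := by
    intro j hj1
    have hj2 : j ≤ K := by
      have := mem_range.1 hj1
      omega
    rw [DD_sum (range (L + 1)) j' k' fun k x y => c j k x y * DD j k f x y]
    rw [Finset.sum_congr rfl fun k hk1 => Two1_DD_mul (c j k) (hx j k) (hy j k) f hj hk hj2
      (by have := mem_range.1 hk1; omega) x y]
    by_cases hjj : j' = j
    · simp only [hjj, true_and, if_true]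
      rw [Finset.sum_ite_eq, if_pos (mem_range.2 (by omega))]
    · simp only [hjj, false_and, if_false]
      exact Finset.sum_const_zero
  rw [Finset.sum_congr rfl h1, Finset.sum_ite_eq, if_pos (mem_range.2 (by omega))]

private theorem Two1_d2_large {j : ℕ} (hj : K < j) (u : Dy K → ℝ) (x : Dy K) : d2 j u x = 0 := by
  cases j with
  | zero => omega
  | succ j =>
    show e (j + 1) u x - e j u x = 0
    rw [e_large (by omega), e_large (by omega), sub_self]

/-- Double differences beyond the resolution vanish. -/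
theorem DD_large {j k : ℕ} (h : K < j ∨ L < k) (f : Dy K → Dy L → ℝ) (x : Dy K) (y : Dy L) :
    DD j k f x y = 0 := by
  rcases h with h | h
  · rw [Two1_DD_x, Two1_d2_large h]
  · rw [Two1_DD_y, Two1_d2_large h]

private theorem Two1_parseval (u : Dy K → ℝ) :
    ∑ x, u x ^ 2 = ∑ x, ∑ j ∈ range (K + 1), d2 j u x ^ 2 := by
  rw [← pyth K u]
  have h1 : ∀ x, ∑ j ∈ range (K + 1), d2 j u x ^ 2 = ∑ j ∈ range K, df j u x ^ 2 + avg u ^ 2 := by
    intro x
    rw [Finset.sum_range_succ']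
    congr 1
    show e 0 u x ^ 2 = _
    rw [e_zero]
  rw [Finset.sum_congr rfl fun x _ => h1 x, Finset.sum_add_distrib, Finset.sum_const,
    Finset.card_univ, card_Dy, nsmul_eq_mul]
  push_cast
  ring

private theorem Two1_SS_parseval (g : Dy K → Dy L → ℝ) :
    SS (fun x y => g x y ^ 2) =
      SS (fun x y => ∑ j ∈ range (K + 1), ∑ k ∈ range (L + 1), DD j k g x y ^ 2) := by
  unfold SS
  rw [Finset.sum_comm]
  have h1 : ∀ y, ∑ x, g x y ^ 2 = ∑ x, ∑ j ∈ range (K + 1), D1 j g x y ^ 2 := by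
    intro y
    rw [Two1_parseval fun x => g x y]
    refine Finset.sum_congr rfl fun x _ => Finset.sum_congr rfl fun j _ => ?_
    rw [D1_eq]
  rw [Finset.sum_congr rfl fun y _ => h1 y, Finset.sum_comm]
  refine Finset.sum_congr rfl fun x _ => ?_
  rw [Finset.sum_comm]
  have h2 : ∀ j, ∑ y, D1 j g x y ^ 2 = ∑ y, ∑ k ∈ range (L + 1), DD j k g x y ^ 2 := by
    intro j
    rw [Two1_parseval fun y => D1 j g x y]
    refine Finset.sum_congr rfl fun y _ => Finset.sum_congr rfl fun k _ => ?_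
    rw [Two1_DD_y]
  rw [Finset.sum_congr rfl fun j _ => h2 j, Finset.sum_comm]

private theorem Two1_DD_Rs (ρ : ℕ → ℕ → Bool) (f : Dy K → Dy L → ℝ) {j k : ℕ} (hj : j ≤ K)
    (hk : k ≤ L) (x : Dy K) (y : Dy L) :
    DD j k (Rs ρ f) x y = if ρ j k then DD j k f x y else 0 := by
  have h1 : Rs ρ f = fun x y => ∑ j ∈ range (K + 1), ∑ k ∈ range (L + 1),
      (fun j k (_ : Dy K) (_ : Dy L) => if ρ j k then (1 : ℝ) else 0) j k x y * DD j k f x y := by
    funext x y
    unfold Rs
    refine Finset.sum_congr rfl fun j _ => Finset.sum_congr rfl fun k _ => ?_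
    by_cases h : ρ j k = true
    · simp [h]
    · simp [h]
  rw [h1, DD_mult (fun j k (_ : Dy K) (_ : Dy L) => if ρ j k then (1 : ℝ) else 0)
    (fun _ _ _ _ _ _ => rfl) (fun _ _ _ _ _ _ => rfl) f hj hk]
  by_cases h : ρ j k = true
  · simp [h]
  · simp [h]

/-- Orthogonality: the total energy. -/
theorem SS_En (ρ : ℕ → ℕ → Bool) (f : Dy K → Dy L → ℝ) :
    SS (fun x y => En ρ f x y) = SS (fun x y => (Rs ρ f x y) ^ 2) := by
  rw [Two1_SS_parseval]
  unfold SS En
  refine Finset.sum_congr rfl fun x _ => Finset.sum_congr rfl fun y _ =>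
    Finset.sum_congr rfl fun j hj => Finset.sum_congr rfl fun k hk => ?_
  rw [Two1_DD_Rs ρ f (by have := mem_range.1 hj; omega) (by have := mem_range.1 hk; omega)]
  by_cases h : ρ j k = true
  · simp [h]
  · simp [h]

theorem SS_En_all (f : Dy K → Dy L → ℝ) :
    SS (fun x y => En all f x y) = SS (fun x y => (f x y) ^ 2) := by
  rw [Two1_SS_parseval]
  unfold SS En all
  refine Finset.sum_congr rfl fun x _ => Finset.sum_congr rfl fun y _ =>
    Finset.sum_congr rfl fun j _ => Finset.sum_congr rfl fun k _ => ?_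
  rw [if_pos rfl]

end Pool.Agent.helper75.HX
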