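import Mathlib

/-!
# Combine : adding up the levels

For `m < m'`, `δ = m' - m`, `μ = (5/8)^δ`: pointwise for `a, b ≥ 0`
`3 μ a b ≤ (μ a)³ + b³ + 1` (with `b = s²`: `3 x s² ≤ x³ + 2 s³`, `x = μ a`, and `2 s³ ≤ s⁶ + 1`),
hence on the support of `b_{m'}`:
`2^(m+m') b_m b_{m'} ≤ (4/5)^δ (4^m b_m³/3 + 4^{m'} (b_{m'}³ + 1)/3)`.  Diagonal: `b² ≤ (2 b³ + 1)/3` on the support.
Summing the geometric series, total constant `1 + 2 · 4 = 9 ≤ 10`.
-/

set_option autoImplicit false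

namespace Pool.Agent.helper75.HX

open Finset

/-- The kernel `(4/5)^(m'-m)` for `m < m'`. -/
noncomputable def combK (m m' : ℤ) : ℝ := if m < m' then (4 / 5 : ℝ) ^ (m' - m).toNat else 0

theorem comb_geo (T : Finset ℕ) (hT : 0 ∉ T) : ∑ k ∈ T, (4 / 5 : ℝ) ^ k ≤ 4 := by
  have h := Summable.sum_le_tsum (insert 0 T) (fun k _ => by positivity)
    (summable_geometric_of_lt_one (by norm_num) (by norm_num : (4 / 5 : ℝ) < 1))
  rw [tsum_geometric_of_lt_one (by norm_num) (by norm_num), Finset.sum_insert hT] at h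
  norm_num at h ⊢
  linarith

theorem combK_nonneg (m m' : ℤ) : 0 ≤ combK m m' := by
  unfold combK
  split_ifs <;> positivity

theorem combK_sum_right (S : Finset ℤ) (m : ℤ) : ∑ m' ∈ S, combK m m' ≤ 4 := by
  unfold combK
  rw [← Finset.sum_filter]
  have h := Finset.sum_image (s := S.filter (fun x => m < x)) (g := fun x : ℤ => (x - m).toNat)
    (f := fun k : ℕ => (4 / 5 : ℝ) ^ k) (by
      intro x hx y hy hxy
      simp only [Finset.coe_filter, Set.mem_ofPred_eq] at hx hy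
      simp only at hxy
      omega)
  rw [← h]
  apply comb_geo
  intro h0
  rw [Finset.mem_image] at h0
  obtain ⟨x, hx, hx0⟩ := h0
  rw [Finset.mem_filter] at hx
  omega

theorem combK_sum_left (S : Finset ℤ) (m' : ℤ) : ∑ m ∈ S, combK m m' ≤ 4 := by
  unfold combK
  rw [← Finset.sum_filter]
  have h := Finset.sum_image (s := S.filter (fun x => x < m')) (g := fun x : ℤ => (m' - x).toNat)
    (f := fun k : ℕ => (4 / 5 : ℝ) ^ k) (by
      intro x hx y hy hxy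
      simp only [Finset.coe_filter, Set.mem_ofPred_eq] at hx hy
      simp only at hxy
      omega)
  rw [← h]
  apply comb_geo
  intro h0
  rw [Finset.mem_image] at h0
  obtain ⟨x, hx, hx0⟩ := h0
  rw [Finset.mem_filter] at hx
  omega

theorem comb_amgm (a b μ : ℝ) (ha : 0 ≤ a) (hb : 0 ≤ b) (hμ : 0 ≤ μ) :
    3 * (μ * a * b) ≤ (μ * a) ^ 3 + b ^ 3 + 1 := by
  set s := Real.sqrt b with hs
  have hs0 : 0 ≤ s := Real.sqrt_nonneg b
  have hsb : s ^ 2 = b := Real.sq_sqrt hb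
  have hx : 0 ≤ μ * a := mul_nonneg hμ ha
  have h1 : 3 * (μ * a) * s ^ 2 ≤ (μ * a) ^ 3 + 2 * s ^ 3 := by
    nlinarith [mul_nonneg (sq_nonneg (μ * a - s)) (by positivity : 0 ≤ μ * a + 2 * s)]
  have h2 : 2 * s ^ 3 ≤ b ^ 3 + 1 := by
    rw [← hsb]
    nlinarith [sq_nonneg (s ^ 3 - 1)]
  rw [← hsb] at h2 ⊢
  nlinarith [h1, h2]

theorem comb_diag (b : ℝ) (hb : 0 ≤ b) : b ^ 2 ≤ (2 * b ^ 3 + 1) / 3 := by
  nlinarith [mul_nonneg (sq_nonneg (b - 1)) (by positivity : 0 ≤ 2 * b + 1)]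

/-- Pointwise bound for a pair of levels `m < m'`; `e` is the indicator of the support of `b`. -/
theorem comb_pair (m m' : ℤ) (h : m < m') (a b e : ℝ) (ha : 0 ≤ a) (hb : 0 ≤ b) (he : 0 ≤ e)
    (hbe : b = 0 ∨ e = 1) :
    ((2 : ℝ) ^ m * a) * ((2 : ℝ) ^ m' * b) ≤
      combK m m' * ((4 : ℝ) ^ m * a ^ 3 / 3 + (4 : ℝ) ^ m' * (b ^ 3 + e) / 3) := by
  obtain ⟨d, hd⟩ : ∃ d : ℕ, m' = m + d := ⟨(m' - m).toNat, by omega⟩
  have hK : combK m m' = (4 / 5 : ℝ) ^ d := by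
    unfold combK
    rw [if_pos h]
    congr 1
    omega
  have h4m : (4 : ℝ) ^ m = (2 : ℝ) ^ m * (2 : ℝ) ^ m := by
    rw [← mul_zpow]; norm_num
  have h2m' : (2 : ℝ) ^ m' = (2 : ℝ) ^ m * (2 : ℝ) ^ d := by
    rw [hd, zpow_add₀ (by norm_num), zpow_natCast]
  have h4m' : (4 : ℝ) ^ m' = ((2 : ℝ) ^ m * (2 : ℝ) ^ m) * (4 : ℝ) ^ d := by
    rw [hd, zpow_add₀ (by norm_num), zpow_natCast, h4m]
  have hP : 0 < (2 : ℝ) ^ m * (2 : ℝ) ^ m := by positivity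
  rcases hbe with rfl | rfl
  · have : 0 ≤ combK m m' * ((4 : ℝ) ^ m * a ^ 3 / 3 + (4 : ℝ) ^ m' * ((0:ℝ) ^ 3 + e) / 3) := by
      apply mul_nonneg (combK_nonneg _ _)
      positivity
    simpa using this
  · rw [hK, h4m', h2m', h4m]
    have key : (2 : ℝ) ^ d * (a * b) ≤
        (4 / 5 : ℝ) ^ d * (a ^ 3 / 3 + (4 : ℝ) ^ d * (b ^ 3 + 1) / 3) := by
      have hm := comb_amgm a b ((5 / 8 : ℝ) ^ d) ha hb (by positivity)
      have hμ : 0 < (5 / 8 : ℝ) ^ d := by positivity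
      -- multiply by (16/5)^d : (16/5)^d (5/8)^d = 2^d, (16/5)^d = (4/5)^d 4^d, (16/5)^d (5/8)^(3d) ≤ (4/5)^d
      have e1 : (16 / 5 : ℝ) ^ d * (5 / 8 : ℝ) ^ d = (2 : ℝ) ^ d := by
        rw [← mul_pow]; norm_num
      have e2 : (4 / 5 : ℝ) ^ d * (4 : ℝ) ^ d = (16 / 5 : ℝ) ^ d := by
        rw [← mul_pow]; norm_num
      have e3 : (16 / 5 : ℝ) ^ d * ((5 / 8 : ℝ) ^ d) ^ 3 ≤ (4 / 5 : ℝ) ^ d := by
        rw [← pow_mul, mul_comm d 3, pow_mul, ← mul_pow]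
        apply pow_le_pow_left₀ (by norm_num)
        norm_num
      have h16 : 0 ≤ (16 / 5 : ℝ) ^ d := by positivity
      have hm2 := mul_le_mul_of_nonneg_left hm h16
      have ha3 : 0 ≤ a ^ 3 := by positivity
      have e4 := mul_le_mul_of_nonneg_right e3 ha3
      calc (2 : ℝ) ^ d * (a * b)
          = (16 / 5 : ℝ) ^ d * (3 * ((5 / 8 : ℝ) ^ d * a * b)) / 3 := by rw [← e1]; ring
        _ ≤ (16 / 5 : ℝ) ^ d * (((5 / 8 : ℝ) ^ d * a) ^ 3 + b ^ 3 + 1) / 3 := by linarith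
        _ = ((16 / 5 : ℝ) ^ d * ((5 / 8 : ℝ) ^ d) ^ 3 * a ^ 3) / 3
              + (16 / 5 : ℝ) ^ d * (b ^ 3 + 1) / 3 := by ring
        _ ≤ ((4 / 5 : ℝ) ^ d * a ^ 3) / 3 + (16 / 5 : ℝ) ^ d * (b ^ 3 + 1) / 3 := by linarith
        _ = (4 / 5 : ℝ) ^ d * (a ^ 3 / 3 + (4 : ℝ) ^ d * (b ^ 3 + 1) / 3) := by
            rw [← e2]; ring
    have := mul_le_mul_of_nonneg_left key hP.le
    calc ((2 : ℝ) ^ m * a) * ((2 : ℝ) ^ m * (2 : ℝ) ^ d * b)
        = ((2 : ℝ) ^ m * (2 : ℝ) ^ m) * ((2 : ℝ) ^ d * (a * b)) := by ring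
      _ ≤ ((2 : ℝ) ^ m * (2 : ℝ) ^ m) *
            ((4 / 5 : ℝ) ^ d * (a ^ 3 / 3 + (4 : ℝ) ^ d * (b ^ 3 + 1) / 3)) := this
      _ = _ := by ring

/-- Pointwise bound. -/
theorem comb_point (S : Finset ℤ) (b e : ℤ → ℝ) (hb : ∀ m, 0 ≤ b m) (he : ∀ m, 0 ≤ e m)
    (hbe : ∀ m, b m = 0 ∨ e m = 1) :
    (∑ m ∈ S, (2 : ℝ) ^ m * b m) ^ 2 ≤
      9 * ∑ m ∈ S, (4 : ℝ) ^ m * (2 * b m ^ 3 + e m) / 3 := by
  set A : ℤ → ℝ := fun m => (4 : ℝ) ^ m * b m ^ 3 / 3 with hA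
  set B : ℤ → ℝ := fun m => (4 : ℝ) ^ m * (b m ^ 3 + e m) / 3 with hB
  set D : ℤ → ℝ := fun m => (4 : ℝ) ^ m * (2 * b m ^ 3 + e m) / 3 with hD
  have hA0 : ∀ m, 0 ≤ A m := by
    intro m; have := hb m; simp only [hA]; positivity
  have hB0 : ∀ m, 0 ≤ B m := by
    intro m; have := hb m; have := he m; simp only [hB]; positivity
  have hAB : ∀ m, D m = A m + B m := by
    intro m; simp only [hA, hB, hD]; ring
  have hpt : ∀ m m' : ℤ, ((2 : ℝ) ^ m * b m) * ((2 : ℝ) ^ m' * b m') ≤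
      combK m m' * A m + combK m m' * B m' + (combK m' m * A m' + combK m' m * B m) +
        (if m = m' then D m else 0) := by
    intro m m'
    rcases lt_trichotomy m m' with h | h | h
    · have h1 := comb_pair m m' h (b m) (b m') (e m') (hb m) (hb m') (he m') (hbe m')
      have h2 : combK m' m = 0 := by unfold combK; rw [if_neg (by omega)]
      rw [h2, if_neg (by omega)]
      simp only [hA, hB]
      linarith
    · subst h
      have h2 : combK m m = 0 := by unfold combK; rw [if_neg (by omega)]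
      rw [h2, if_pos rfl]
      simp only [hD]
      have h4m : (4 : ℝ) ^ m = (2 : ℝ) ^ m * (2 : ℝ) ^ m := by
        rw [← mul_zpow]; norm_num
      have hP : 0 < (2 : ℝ) ^ m * (2 : ℝ) ^ m := by positivity
      rcases hbe m with h0 | h1
      · rw [h0]
        have := he m
        have : 0 ≤ (4 : ℝ) ^ m * (2 * 0 ^ 3 + e m) / 3 := by positivity
        simpa using this
      · rw [h1, h4m]
        have := mul_le_mul_of_nonneg_left (comb_diag (b m) (hb m)) hP.le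
        linarith
    · have h1 := comb_pair m' m h (b m') (b m) (e m) (hb m') (hb m) (he m) (hbe m)
      have h2 : combK m m' = 0 := by unfold combK; rw [if_neg (by omega)]
      rw [h2, if_neg (by omega)]
      simp only [hA, hB]
      linarith
  have h1 : ∑ m ∈ S, ∑ m' ∈ S, combK m m' * A m ≤ 4 * ∑ m ∈ S, A m := by
    rw [Finset.mul_sum]
    apply Finset.sum_le_sum
    intro m _
    rw [← Finset.sum_mul]
    exact mul_le_mul_of_nonneg_right (combK_sum_right S m) (hA0 m)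
  have h2 : ∑ m ∈ S, ∑ m' ∈ S, combK m m' * B m' ≤ 4 * ∑ m ∈ S, B m := by
    rw [Finset.sum_comm, Finset.mul_sum]
    apply Finset.sum_le_sum
    intro m _
    rw [← Finset.sum_mul]
    exact mul_le_mul_of_nonneg_right (combK_sum_left S m) (hB0 m)
  have h3 : ∑ m ∈ S, ∑ m' ∈ S, combK m' m * A m' ≤ 4 * ∑ m ∈ S, A m := by
    rw [Finset.sum_comm]; exact h1
  have h4 : ∑ m ∈ S, ∑ m' ∈ S, combK m' m * B m ≤ 4 * ∑ m ∈ S, B m := by
    rw [Finset.sum_comm]; exact h2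
  have h5 : ∑ m ∈ S, ∑ m' ∈ S, (if m = m' then D m else 0) = ∑ m ∈ S, D m := by
    apply Finset.sum_congr rfl
    intro m hm
    rw [Finset.sum_ite_eq, if_pos hm]
  have hDs : ∑ m ∈ S, D m = ∑ m ∈ S, A m + ∑ m ∈ S, B m := by
    rw [← Finset.sum_add_distrib]
    exact Finset.sum_congr rfl (fun m _ => hAB m)
  calc (∑ m ∈ S, (2 : ℝ) ^ m * b m) ^ 2
      = ∑ m ∈ S, ∑ m' ∈ S, ((2 : ℝ) ^ m * b m) * ((2 : ℝ) ^ m' * b m') := by
        rw [sq, Finset.sum_mul_sum]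
    _ ≤ ∑ m ∈ S, ∑ m' ∈ S, (combK m m' * A m + combK m m' * B m' +
          (combK m' m * A m' + combK m' m * B m) + (if m = m' then D m else 0)) :=
        Finset.sum_le_sum (fun m _ => Finset.sum_le_sum (fun m' _ => hpt m m'))
    _ = ∑ m ∈ S, ∑ m' ∈ S, combK m m' * A m + ∑ m ∈ S, ∑ m' ∈ S, combK m m' * B m' +
          (∑ m ∈ S, ∑ m' ∈ S, combK m' m * A m' + ∑ m ∈ S, ∑ m' ∈ S, combK m' m * B m) +
          ∑ m ∈ S, ∑ m' ∈ S, (if m = m' then D m else 0) := by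
        simp only [Finset.sum_add_distrib]
    _ ≤ 9 * ∑ m ∈ S, D m := by
        rw [h5, hDs]
        linarith

theorem combine {Z : Type} [Fintype Z] [DecidableEq Z] (M : ℕ) (b : ℤ → Z → ℝ) (Ω : ℤ → Finset Z)
    (hb : ∀ m z, 0 ≤ b m z) (hs : ∀ m z, z ∉ Ω m → b m z = 0)
    (h3 : ∀ m, ∑ z, b m z ^ 3 ≤ (Ω m).card) :
    ∑ z, (∑ m ∈ Icc (-(M : ℤ)) M, (2 : ℝ) ^ m * b m z) ^ 2 ≤
      10 * ∑ m ∈ Icc (-(M : ℤ)) M, (4 : ℝ) ^ m * (Ω m).card := by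
  set S := Icc (-(M : ℤ)) M with hS
  have hp : ∀ z, (∑ m ∈ S, (2 : ℝ) ^ m * b m z) ^ 2 ≤
      9 * ∑ m ∈ S, (4 : ℝ) ^ m * (2 * b m z ^ 3 + (if z ∈ Ω m then 1 else 0)) / 3 := by
    intro z
    apply comb_point S (fun m => b m z) (fun m => if z ∈ Ω m then 1 else 0) (fun m => hb m z)
    · intro m
      split_ifs <;> norm_num
    · intro m
      by_cases h : z ∈ Ω m
      · right; simp [h]
      · left; exact hs m z h
  have hcard : ∀ m, ∑ z, (if z ∈ Ω m then (1 : ℝ) else 0) = (Ω m).card := by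
    intro m
    rw [Finset.sum_ite_mem, Finset.univ_inter]
    simp
  have hm : ∀ m, ∑ z, (4 : ℝ) ^ m * (2 * b m z ^ 3 + (if z ∈ Ω m then 1 else 0)) / 3 ≤
      (4 : ℝ) ^ m * (Ω m).card := by
    intro m
    have e : ∑ z, (4 : ℝ) ^ m * (2 * b m z ^ 3 + (if z ∈ Ω m then 1 else 0)) / 3 =
        (4 : ℝ) ^ m * ((2 * ∑ z, b m z ^ 3 + (Ω m).card) / 3) := by
      rw [← hcard m, Finset.mul_sum, ← Finset.sum_add_distrib, Finset.sum_div, Finset.mul_sum]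
      exact Finset.sum_congr rfl (fun z _ => by ring)
    rw [e]
    apply mul_le_mul_of_nonneg_left _ (by positivity)
    have := h3 m
    linarith
  have hnn : 0 ≤ ∑ m ∈ S, (4 : ℝ) ^ m * ((Ω m).card : ℝ) :=
    Finset.sum_nonneg (fun m _ => by positivity)
  calc ∑ z, (∑ m ∈ S, (2 : ℝ) ^ m * b m z) ^ 2
      ≤ ∑ z, 9 * ∑ m ∈ S, (4 : ℝ) ^ m * (2 * b m z ^ 3 + (if z ∈ Ω m then 1 else 0)) / 3 :=
        Finset.sum_le_sum (fun z _ => hp z)
    _ = 9 * ∑ m ∈ S, ∑ z, (4 : ℝ) ^ m * (2 * b m z ^ 3 + (if z ∈ Ω m then 1 else 0)) / 3 := by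
        rw [← Finset.mul_sum, Finset.sum_comm]
    _ ≤ 9 * ∑ m ∈ S, (4 : ℝ) ^ m * ((Ω m).card : ℝ) := by
        apply mul_le_mul_of_nonneg_left _ (by norm_num)
        exact Finset.sum_le_sum (fun m _ => hm m)
    _ ≤ 10 * ∑ m ∈ S, (4 : ℝ) ^ m * ((Ω m).card : ℝ) := by linarith

end Pool.Agent.helper75.HX
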