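import Pool.Agent.helper75.HX.Decomp

/-!
# PartAtom : the parts are multiples of atoms

`part_energy`: let `P = part f m`, `w j k = cc f m j k (DD j k f)²`, so `En all P = ∑ w j k` (`DD_part`, `cc² = cc`) and
`w j k` is measurable at level `j-1` in `x`, `k-1` in `y`.  Let `g = (En all P)^{q-1}` (`g = 1` for `q = 1`),
`H j k = E1 (j-1) (E2 (k-1) g) ≤ Ms g`.  Then
`SS (En all P)^q = ∑_{j,k} SS (w j k g) = ∑_{j,k} SS (w j k H j k)` (`sum_mul_e` in both variables)
`≤ 2 ∑_{j,k} SS (w j k H j k (1 - aa f (m+1) j k))` (as `aa ≤ 1/2` where `cc ≠ 0`)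
`= 2 ∑_{j,k} SS (w j k H j k (1 - ind f (m+1)))` (measurability again)
`≤ 2 SS ((1 - ind f (m+1)) (∑ w j k) Ms g) ≤ 2·4^{m+1} ∑_{Om f m} Ms g`, because `∑ w j k ≤ En all f ≤ 4^{m+1}` where
`ind f (m+1) = 0`, and `w = 0` outside `Om f m`.
For `q = 1`: `Ms 1 = 1`.  For `q ≥ 2` Hoelder with `q` and `q' = q/(q-1)` and `Ms_pow`:
`∑_{Om} Ms g ≤ |Om|^{1/q} q² (SS g^{q'})^{1/q'} = |Om|^{1/q} q² A^{1-1/q}`, `A = SS (En all P)^q`.  So `A ≤ 8·4^m q² |Om|^{1/q} A^{1-1/q}`,
i.e. `A ≤ (8 q² 4^m)^q |Om|` (clear if `A = 0`).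
-/

set_option autoImplicit false

namespace Pool.Agent.helper75.HX

open Finset Pool.Agent.helper18.HC

variable {K L : ℕ}

/-- the energy contributions -/
private noncomputable def PartAtom_w (f : Dy K → Dy L → ℝ) (m : ℤ) (j k : ℕ) (x : Dy K) (y : Dy L) :
    ℝ := cc f m j k x y * (DD j k f x y) ^ 2

private theorem PartAtom_cc_sq (f : Dy K → Dy L → ℝ) (m : ℤ) (j k : ℕ) (x : Dy K) (y : Dy L) :
    cc f m j k x y ^ 2 = cc f m j k x y := by
  unfold cc
  split_ifs <;> norm_num

private theorem PartAtom_cc_nonneg (f : Dy K → Dy L → ℝ) (m : ℤ) (j k : ℕ) (x : Dy K) (y : Dy L) :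
    0 ≤ cc f m j k x y := by
  unfold cc
  split_ifs <;> norm_num

private theorem PartAtom_cc_le (f : Dy K → Dy L → ℝ) (m : ℤ) (j k : ℕ) (x : Dy K) (y : Dy L) :
    cc f m j k x y ≤ 1 := by
  unfold cc
  split_ifs <;> norm_num

private theorem PartAtom_w_nonneg (f : Dy K → Dy L → ℝ) (m : ℤ) (j k : ℕ) (x : Dy K) (y : Dy L) :
    0 ≤ PartAtom_w f m j k x y :=
  mul_nonneg (PartAtom_cc_nonneg f m j k x y) (sq_nonneg _)

private theorem PartAtom_w_le (f : Dy K → Dy L → ℝ) (m : ℤ) (j k : ℕ) (x : Dy K) (y : Dy L) :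
    PartAtom_w f m j k x y ≤ (DD j k f x y) ^ 2 := by
  have h1 := PartAtom_cc_le f m j k x y
  have h2 := sq_nonneg (DD j k f x y)
  unfold PartAtom_w
  nlinarith

private theorem PartAtom_En (f : Dy K → Dy L → ℝ) (m : ℤ) (x : Dy K) (y : Dy L) :
    En all (part f m) x y =
      ∑ j ∈ range (K + 1), ∑ k ∈ range (L + 1), PartAtom_w f m j k x y := by
  unfold En all
  refine Finset.sum_congr rfl fun j _ => Finset.sum_congr rfl fun k _ => ?_
  rw [if_pos rfl, DD_part, mul_pow, PartAtom_cc_sq]
  rfl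

private theorem PartAtom_En_nonneg (f : Dy K → Dy L → ℝ) (x : Dy K) (y : Dy L) :
    0 ≤ En all f x y := by
  unfold En all
  refine Finset.sum_nonneg fun j _ => Finset.sum_nonneg fun k _ => ?_
  rw [if_pos rfl]
  exact sq_nonneg _

private theorem PartAtom_En_le (f : Dy K → Dy L → ℝ) (m : ℤ) (x : Dy K) (y : Dy L) :
    En all (part f m) x y ≤ En all f x y := by
  rw [PartAtom_En]
  unfold En all
  refine Finset.sum_le_sum fun j _ => Finset.sum_le_sum fun k _ => ?_
  rw [if_pos rfl]
  exact PartAtom_w_le f m j k x y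

/-- measurability at level `a` in `x` and `b` in `y` -/
private def PartAtom_M (a b : ℕ) (u : Dy K → Dy L → ℝ) : Prop :=
  (∀ y, Meas a (fun x => u x y)) ∧ ∀ x, Meas b (fun y => u x y)

private theorem PartAtom_M_w (f : Dy K → Dy L → ℝ) (m : ℤ) (j k : ℕ) :
    PartAtom_M (j - 1) (k - 1) (PartAtom_w f m j k) := by
  constructor
  · intro y x x' h
    have h1 := meas_cc_x f m j k y x x' h
    have h2 := meas_DD_sq_x j k f y x x' h
    simp only at h1 h2
    unfold PartAtom_w
    simp only
    rw [h1, h2]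
  · intro x y y' h
    have h1 := meas_cc_y f m j k x y y' h
    have h2 := meas_DD_sq_y j k f x y y' h
    simp only at h1 h2
    unfold PartAtom_w
    simp only
    rw [h1, h2]

private theorem PartAtom_M_E (a b : ℕ) (g : Dy K → Dy L → ℝ) :
    PartAtom_M a b (E1 a (E2 b g)) := by
  constructor
  · intro y x x' h
    simp only [E1_eq]
    exact meas_e a (fun x' => E2 b g x' y) x x' h
  · intro x y y' h
    simp only
    rw [E1_E2]
    simp only [E2_eq]
    exact meas_e b (E1 a g x) y y' h

private theorem PartAtom_M_mul {a b : ℕ} {u v : Dy K → Dy L → ℝ} (hu : PartAtom_M a b u)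
    (hv : PartAtom_M a b v) : PartAtom_M a b (fun x y => u x y * v x y) := by
  constructor
  · intro y x x' h
    have h1 := hu.1 y x x' h
    have h2 := hv.1 y x x' h
    simp only at h1 h2 ⊢
    rw [h1, h2]
  · intro x y y' h
    have h1 := hu.2 x y y' h
    have h2 := hv.2 x y y' h
    simp only at h1 h2 ⊢
    rw [h1, h2]

/-- averages may be removed against measurable functions -/
private theorem PartAtom_avg {a b : ℕ} {u : Dy K → Dy L → ℝ} (hu : PartAtom_M a b u)
    (g : Dy K → Dy L → ℝ) :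
    SS (fun x y => u x y * E1 a (E2 b g) x y) = SS (fun x y => u x y * g x y) := by
  have h1 : SS (fun x y => u x y * E1 a (E2 b g) x y) =
      SS (fun x y => u x y * E2 b g x y) := by
    unfold SS
    rw [Finset.sum_comm, Finset.sum_comm (f := fun x y => u x y * E2 b g x y)]
    refine Finset.sum_congr rfl fun y _ => ?_
    simp only [E1_eq]
    exact sum_mul_e (hu.1 y) (fun x => E2 b g x y)
  rw [h1]
  unfold SS
  refine Finset.sum_congr rfl fun x _ => ?_
  simp only [E2_eq]
  exact sum_mul_e (hu.2 x) (g x)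

private theorem PartAtom_E_nonneg {g : Dy K → Dy L → ℝ} (hg : ∀ x y, 0 ≤ g x y) (a b : ℕ)
    (x : Dy K) (y : Dy L) : 0 ≤ E1 a (E2 b g) x y := by
  unfold E1 E2
  refine div_nonneg (Finset.sum_nonneg fun x' _ => div_nonneg (Finset.sum_nonneg fun y' _ => hg _ _)
    (Nat.cast_nonneg _)) (Nat.cast_nonneg _)

private theorem PartAtom_SS_mono {u v : Dy K → Dy L → ℝ} (h : ∀ x y, u x y ≤ v x y) :
    SS u ≤ SS v :=
  Finset.sum_le_sum fun x _ => Finset.sum_le_sum fun y _ => h x y

/-- one index pair -/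
private theorem PartAtom_one (f : Dy K → Dy L → ℝ) (m : ℤ) (j k : ℕ) {g : Dy K → Dy L → ℝ}
    (hg : ∀ x y, 0 ≤ g x y) :
    SS (fun x y => PartAtom_w f m j k x y * g x y) ≤
      2 * SS (fun x y => PartAtom_w f m j k x y * ((1 - ind f (m + 1) x y) * Ms g x y)) := by
  have hw := PartAtom_M_w f m j k
  have h1 := PartAtom_avg hw g
  have hM := PartAtom_M_mul hw (PartAtom_M_E (j - 1) (k - 1) g)
  have h2 := PartAtom_avg hM (ind f (m + 1))
  have hind : ∀ x y, 0 ≤ 1 - ind f (m + 1) x y := by
    intro x y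
    unfold ind
    split_ifs <;> norm_num
  rw [← h1]
  calc SS (fun x y => PartAtom_w f m j k x y * E1 (j - 1) (E2 (k - 1) g) x y)
      ≤ SS (fun x y => 2 * (PartAtom_w f m j k x y * E1 (j - 1) (E2 (k - 1) g) x y) -
          2 * (PartAtom_w f m j k x y * E1 (j - 1) (E2 (k - 1) g) x y *
            E1 (j - 1) (E2 (k - 1) (ind f (m + 1))) x y)) := by
        refine PartAtom_SS_mono fun x y => ?_
        have h3 := PartAtom_E_nonneg hg (j - 1) (k - 1) x y
        by_cases hc : 1 / 2 < aa f m j k x y ∧ aa f (m + 1) j k x y ≤ 1 / 2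
        · have h4 : E1 (j - 1) (E2 (k - 1) (ind f (m + 1))) x y ≤ 1 / 2 := hc.2
          have h5 := mul_nonneg (PartAtom_w_nonneg f m j k x y) h3
          nlinarith
        · have h4 : PartAtom_w f m j k x y = 0 := by
            unfold PartAtom_w cc
            rw [if_neg hc, zero_mul]
          rw [h4]
          simp
    _ = 2 * SS (fun x y => PartAtom_w f m j k x y * E1 (j - 1) (E2 (k - 1) g) x y) -
          2 * SS (fun x y => PartAtom_w f m j k x y * E1 (j - 1) (E2 (k - 1) g) x y *
            E1 (j - 1) (E2 (k - 1) (ind f (m + 1))) x y) := by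
        unfold SS
        simp only [Finset.sum_sub_distrib, ← Finset.mul_sum]
    _ = 2 * SS (fun x y => PartAtom_w f m j k x y * E1 (j - 1) (E2 (k - 1) g) x y) -
          2 * SS (fun x y => PartAtom_w f m j k x y * E1 (j - 1) (E2 (k - 1) g) x y *
            ind f (m + 1) x y) := by rw [h2]
    _ = 2 * SS (fun x y => PartAtom_w f m j k x y *
          ((1 - ind f (m + 1) x y) * E1 (j - 1) (E2 (k - 1) g) x y)) := by
        unfold SS
        rw [← mul_sub, ← Finset.sum_sub_distrib]
        congr 1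
        refine Finset.sum_congr rfl fun x _ => ?_
        rw [← Finset.sum_sub_distrib]
        refine Finset.sum_congr rfl fun y _ => ?_
        ring
    _ ≤ _ := by
        refine mul_le_mul_of_nonneg_left (PartAtom_SS_mono fun x y => ?_) (by norm_num)
        exact mul_le_mul_of_nonneg_left (mul_le_mul_of_nonneg_left (le_Ms hg _ _ x y) (hind x y))
          (PartAtom_w_nonneg f m j k x y)

private theorem PartAtom_Ms_nonneg (g : Dy K → Dy L → ℝ) (x : Dy K) (y : Dy L) : 0 ≤ Ms g x y :=
  Sup2_nonneg _ _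

private theorem PartAtom_SS_eq (F : Dy K → Dy L → ℝ) :
    SS F = ∑ z : Dy K × Dy L, F z.1 z.2 := by
  unfold SS
  rw [Fintype.sum_prod_type]

private theorem PartAtom_SS_sum {ι : Type} (s : Finset ι) (F : ι → Dy K → Dy L → ℝ) :
    SS (fun x y => ∑ i ∈ s, F i x y) = ∑ i ∈ s, SS (F i) := by
  simp only [PartAtom_SS_eq]
  rw [Finset.sum_comm]

/-- the stopping argument -/
private theorem PartAtom_stop (f : Dy K → Dy L → ℝ) (m : ℤ) {g : Dy K → Dy L → ℝ}
    (hg : ∀ x y, 0 ≤ g x y) :
    SS (fun x y => En all (part f m) x y * g x y) ≤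
      8 * (4 : ℝ) ^ m * ∑ z ∈ Om f m, Ms g z.1 z.2 := by
  have hsum : ∀ h : Dy K → Dy L → ℝ, SS (fun x y => En all (part f m) x y * h x y) =
      ∑ j ∈ range (K + 1), ∑ k ∈ range (L + 1),
        SS (fun x y => PartAtom_w f m j k x y * h x y) := by
    intro h
    simp only [PartAtom_En, Finset.sum_mul]
    rw [PartAtom_SS_sum]
    refine Finset.sum_congr rfl fun j _ => ?_
    rw [PartAtom_SS_sum]
  calc SS (fun x y => En all (part f m) x y * g x y)
      = ∑ j ∈ range (K + 1), ∑ k ∈ range (L + 1),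
        SS (fun x y => PartAtom_w f m j k x y * g x y) := hsum g
    _ ≤ ∑ j ∈ range (K + 1), ∑ k ∈ range (L + 1),
        2 * SS (fun x y => PartAtom_w f m j k x y * ((1 - ind f (m + 1) x y) * Ms g x y)) :=
        Finset.sum_le_sum fun j _ => Finset.sum_le_sum fun k _ => PartAtom_one f m j k hg
    _ = 2 * SS (fun x y => En all (part f m) x y * ((1 - ind f (m + 1) x y) * Ms g x y)) := by
        rw [hsum]
        simp only [Finset.mul_sum]
    _ ≤ 2 * SS (fun x y => if (x, y) ∈ Om f m then 4 * (4 : ℝ) ^ m * Ms g x y else 0) := by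
        refine mul_le_mul_of_nonneg_left (PartAtom_SS_mono fun x y => ?_) (by norm_num)
        have h1 := PartAtom_En_nonneg (part f m) x y
        have h2 := PartAtom_En_le f m x y
        have h3 := PartAtom_Ms_nonneg g x y
        split_ifs with h
        · unfold ind
          split_ifs with h4
          · have h5 : (0 : ℝ) < (4 : ℝ) ^ m := by positivity
            have : 0 ≤ 4 * (4 : ℝ) ^ m * Ms g x y := by positivity
            simpa using this
          · push Not at h4
            rw [zpow_add_one₀ (by norm_num)] at h4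
            have h6 : En all (part f m) x y ≤ 4 * (4 : ℝ) ^ m := by linarith
            rw [sub_zero, one_mul]
            exact mul_le_mul_of_nonneg_right h6 h3
        · have h4 : En all (part f m) x y = 0 := by
            unfold En
            refine Finset.sum_eq_zero fun j _ => Finset.sum_eq_zero fun k _ => ?_
            rw [supp_part f m x y h j k]
            simp
          rw [h4, zero_mul]
    _ = 8 * (4 : ℝ) ^ m * ∑ z ∈ Om f m, Ms g z.1 z.2 := by
        rw [PartAtom_SS_eq]
        simp only [Prod.mk.eta]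
        rw [Finset.sum_ite_mem, Finset.univ_inter, ← Finset.mul_sum]
        ring

private theorem PartAtom_Ms_one (x : Dy K) (y : Dy L) : Ms (fun _ _ => (1 : ℝ)) x y = 1 := by
  have h1 : ∀ (n : ℕ) (y : Dy n), Sup2 (fun _ => (1 : ℝ)) y = 1 := by
    intro n y
    unfold Sup2
    have h2 : ∀ k, |e k (fun _ : Dy n => (1 : ℝ)) y| = 1 := by
      intro k
      rw [e_of_meas (fun _ _ _ => rfl)]
      simp
    simp only [h2, Finset.sup'_const]
  show Sup2 (fun x' => Sup2 (fun _ => (1 : ℝ)) y) x = 1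
  simp only [h1]

theorem part_energy (f : Dy K → Dy L → ℝ) (m : ℤ) {q : ℕ} (hq : 1 ≤ q) :
    SS (fun x y => En all (part f m) x y ^ q) ≤
      (8 * (q : ℝ) ^ 2 * (4 : ℝ) ^ m) ^ q * (Om f m).card := by
  have hE := PartAtom_En_nonneg (part f m)
  have h4 : (0 : ℝ) < (4 : ℝ) ^ m := by positivity
  rcases Nat.lt_or_ge 1 q with hq2 | hq1
  · set A : ℝ := SS (fun x y => En all (part f m) x y ^ q) with hA
    have hA0 : 0 ≤ A := by
      rw [hA]
      unfold SS
      exact Finset.sum_nonneg fun x _ => Finset.sum_nonneg fun y _ => pow_nonneg (hE x y) q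
    set g : Dy K → Dy L → ℝ := fun x y => En all (part f m) x y ^ (q - 1) with hgdef
    have hg : ∀ x y, 0 ≤ g x y := fun x y => pow_nonneg (hE x y) _
    have h1 : A ≤ 8 * (4 : ℝ) ^ m * ∑ z ∈ Om f m, Ms g z.1 z.2 := by
      refine le_trans (le_of_eq ?_) (PartAtom_stop f m hg)
      rw [hA]
      congr 1
      funext x y
      rw [hgdef]
      simp only
      rw [← pow_succ', Nat.sub_add_cancel hq]
    have hqr : (1 : ℝ) < q := by exact_mod_cast hq2
    have hconj := Real.HolderConjugate.conjExponent hqr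
    set q' : ℝ := Real.conjExponent (q : ℝ) with hq'
    have hq'e : q' = (q : ℝ) / (q - 1) := rfl
    have hq'pos : 0 < q' := by
      rw [hq'e]
      exact div_pos (by linarith) (by linarith)
    have h2 : ∑ z ∈ Om f m, Ms g z.1 z.2 ≤
        ((Om f m).card : ℝ) ^ (1 / (q : ℝ)) *
          (SS (fun x y => (Ms g x y) ^ q')) ^ (1 / q') := by
      have h3 := Real.inner_le_Lp_mul_Lq_of_nonneg (s := Om f m) (f := fun _ => (1 : ℝ))
        (g := fun z => Ms g z.1 z.2) hconj (fun _ _ => zero_le_one)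
        (fun z _ => PartAtom_Ms_nonneg g z.1 z.2)
      simp only [one_mul, Real.one_rpow, Finset.sum_const, nsmul_eq_mul, mul_one] at h3
      refine h3.trans (mul_le_mul_of_nonneg_left ?_ (by positivity))
      apply Real.rpow_le_rpow
      · exact Finset.sum_nonneg fun z _ => Real.rpow_nonneg (PartAtom_Ms_nonneg g z.1 z.2) _
      · rw [PartAtom_SS_eq]
        exact Finset.sum_le_sum_of_subset_of_nonneg (Finset.subset_univ _)
          fun z _ _ => Real.rpow_nonneg (PartAtom_Ms_nonneg g z.1 z.2) _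
      · positivity
    have h5 : (SS (fun x y => (Ms g x y) ^ q')) ^ (1 / q') ≤ (q : ℝ) ^ 2 * A ^ (1 / q') := by
      have h6 := Ms_pow hg (q := q) hq2
      rw [← hq'e] at h6
      have h7 : SS (fun x y => (g x y) ^ q') = A := by
        rw [hA]
        congr 1
        funext x y
        rw [hgdef]
        simp only
        rw [← Real.rpow_natCast, ← Real.rpow_mul (hE x y), ← Real.rpow_natCast]
        congr 1
        rw [hq'e, Nat.cast_sub hq]
        push_cast
        field_simp [(by linarith : (q : ℝ) - 1 ≠ 0)]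
      rw [h7] at h6
      calc (SS (fun x y => (Ms g x y) ^ q')) ^ (1 / q')
          ≤ (((q : ℝ) ^ 2) ^ q' * A) ^ (1 / q') := by
            apply Real.rpow_le_rpow _ h6 (by positivity)
            unfold SS
            exact Finset.sum_nonneg fun x _ => Finset.sum_nonneg fun y _ =>
              Real.rpow_nonneg (PartAtom_Ms_nonneg g x y) _
        _ = (q : ℝ) ^ 2 * A ^ (1 / q') := by
            rw [Real.mul_rpow (by positivity) hA0, ← Real.rpow_mul (by positivity),
              mul_one_div_cancel hq'pos.ne', Real.rpow_one]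
    have h6 : A ≤ 8 * (4 : ℝ) ^ m * (((Om f m).card : ℝ) ^ (1 / (q : ℝ)) *
        ((q : ℝ) ^ 2 * A ^ (1 / q'))) := by
      refine h1.trans (mul_le_mul_of_nonneg_left (h2.trans ?_) (by positivity))
      exact mul_le_mul_of_nonneg_left h5 (by positivity)
    rcases hA0.eq_or_lt with hA1 | hA1
    · rw [← hA1]
      positivity
    · have h7 : A = A ^ (1 / (q : ℝ)) * A ^ (1 / q') := by
        rw [← Real.rpow_add hA1]
        have h8 : 1 / (q : ℝ) + 1 / q' = 1 := by
          have := hconj.inv_add_inv_eq_one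
          rw [one_div, one_div]
          exact this
        rw [h8, Real.rpow_one]
      have h8 : A ^ (1 / (q : ℝ)) ≤ 8 * (q : ℝ) ^ 2 * (4 : ℝ) ^ m *
          ((Om f m).card : ℝ) ^ (1 / (q : ℝ)) := by
        have h9 : 0 < A ^ (1 / q') := Real.rpow_pos_of_pos hA1 _
        apply le_of_mul_le_mul_right _ h9
        calc A ^ (1 / (q : ℝ)) * A ^ (1 / q') = A := h7.symm
          _ ≤ _ := h6
          _ = _ := by ring
      calc A = (A ^ (1 / (q : ℝ))) ^ q := by
            rw [← Real.rpow_natCast, ← Real.rpow_mul hA0,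
              one_div_mul_cancel (by linarith : (q : ℝ) ≠ 0), Real.rpow_one]
        _ ≤ (8 * (q : ℝ) ^ 2 * (4 : ℝ) ^ m * ((Om f m).card : ℝ) ^ (1 / (q : ℝ))) ^ q :=
            pow_le_pow_left₀ (Real.rpow_nonneg hA0 _) h8 q
        _ = (8 * (q : ℝ) ^ 2 * (4 : ℝ) ^ m) ^ q * (Om f m).card := by
            rw [mul_pow, ← Real.rpow_natCast (((Om f m).card : ℝ) ^ (1 / (q : ℝ))),
              ← Real.rpow_mul (Nat.cast_nonneg _),
              one_div_mul_cancel (by linarith : (q : ℝ) ≠ 0), Real.rpow_one]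
  · have hq1' : q = 1 := le_antisymm hq1 hq
    subst hq1'
    have h1 := PartAtom_stop f m (g := fun _ _ => (1 : ℝ)) (fun _ _ => zero_le_one)
    simp only [mul_one, PartAtom_Ms_one, Finset.sum_const, nsmul_eq_mul] at h1
    simpa using h1

/-- `En all (c h) = c² En all h` with `c = 2^{-m}`. -/
theorem part_atom (f : Dy K → Dy L → ℝ) (m : ℤ) :
    Atom (fun x y => (2 : ℝ) ^ (-m) * part f m x y) (Om f m) := by
  constructor
  · intro x y h j k
    rw [DD_const_mul, supp_part f m x y h j k, mul_zero]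
  · intro q hq
    have h1 : ∀ x y, En all (fun x y => (2 : ℝ) ^ (-m) * part f m x y) x y =
        ((4 : ℝ) ^ m)⁻¹ * En all (part f m) x y := by
      intro x y
      unfold En all
      simp only [if_true, Finset.mul_sum]
      refine Finset.sum_congr rfl fun j _ => Finset.sum_congr rfl fun k _ => ?_
      rw [DD_const_mul, mul_pow]
      congr 1
      rw [zpow_neg, inv_pow, ← zpow_natCast, ← zpow_mul, mul_comm m, zpow_mul]
      norm_num
    have h2 : SS (fun x y => En all (fun x y => (2 : ℝ) ^ (-m) * part f m x y) x y ^ q) =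
        (((4 : ℝ) ^ m)⁻¹) ^ q * SS (fun x y => En all (part f m) x y ^ q) := by
      simp only [h1, mul_pow]
      unfold SS
      simp only [Finset.mul_sum]
    rw [h2]
    calc (((4 : ℝ) ^ m)⁻¹) ^ q * SS (fun x y => En all (part f m) x y ^ q)
        ≤ (((4 : ℝ) ^ m)⁻¹) ^ q * ((8 * (q : ℝ) ^ 2 * (4 : ℝ) ^ m) ^ q * (Om f m).card) :=
          mul_le_mul_of_nonneg_left (part_energy f m hq) (by positivity)
      _ = (8 * (q : ℝ) ^ 2) ^ q * (Om f m).card := by
          rw [← mul_assoc, ← mul_pow]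
          congr 2
          have h4 : ((4 : ℝ) ^ m) ≠ 0 := by positivity
          field_simp

end Pool.Agent.helper75.HX
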