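import Pool.Agent.helper75.HX.AtomThm
import Pool.Agent.helper75.HX.PartAtom
import Pool.Agent.helper75.HX.Combine

/-!
# Final : the theorem for real functions and for complex functions

`real_MT`: take `M` from `sum_part`.  `MT T f ≤ ∑_m 2^m MT T (a m)`, `a m = 2^{-m} part f m` (`Rs` is linear in `f`: `DD_sum`,
`DD_const_mul`).  With `B = (2:ℝ)^{1/3} 10¹²p⁵` (or use `B = 2·10¹²p⁵`), `b m z = MT T (a m) z / B`, `Ω m = Om f m` in `combine`
(`atom_sup3`, `part_atom`, `MT_supp`); then `card_Om_le`, `sum_level`: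
`SS MT² ≤ 10 B² ∑ 4^m |Om f m| ≤ 640 B² ∑ 4^m SS (ind f m) ≤ 854 B² SS f²`.
`real_hyp`: `HypSum n f = Hs (n+1) f` (for real `f`), `T = {0} ∪ {n+1 : n ∈ Λ}`, `p = 3 + ⌈log (1 + log (N+1))⌉₊`:
`log (N+1) ≤ e^p`, and `p ≤ 4 + log (1 + log (N + 1)) ≤ 5 (1 + log (1 + log N))`, `N = |Λ| ≥ 1`.
-/

set_option autoImplicit false

namespace Pool.Agent.helper75.HX

open Finset Pool.Agent.helper18.HC

variable {K L : ℕ}

private theorem Final_Hs_lin (t M : ℕ) (f : Dy K → Dy L → ℝ)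
    (hM : ∀ x y, ∑ m ∈ Icc (-(M : ℤ)) M, part f m x y = f x y) (x : Dy K) (y : Dy L) :
    Hs t f x y = ∑ m ∈ Icc (-(M : ℤ)) M,
      (2 : ℝ) ^ m * Hs t (fun x y => (2 : ℝ) ^ (-m) * part f m x y) x y := by
  have hD : ∀ j k, DD j k f x y = ∑ m ∈ Icc (-(M : ℤ)) M,
      (2 : ℝ) ^ m * DD j k (fun x y => (2 : ℝ) ^ (-m) * part f m x y) x y := by
    intro j k
    have h1 : f = fun x y => ∑ m ∈ Icc (-(M : ℤ)) M, part f m x y := by
      funext x y
      exact (hM x y).symm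
    conv_lhs => rw [h1]
    rw [DD_sum]
    refine Finset.sum_congr rfl fun m _ => ?_
    rw [DD_const_mul, ← mul_assoc, ← zpow_add₀ (by norm_num : (2 : ℝ) ≠ 0), add_neg_cancel,
      zpow_zero, one_mul]
  unfold Hs Rs
  simp only [Finset.mul_sum]
  rw [eq_comm, Finset.sum_comm]
  refine Finset.sum_congr rfl fun j _ => ?_
  rw [Finset.sum_comm]
  refine Finset.sum_congr rfl fun k _ => ?_
  split_ifs with h
  · exact (hD j k).symm
  · simp

theorem real_MT {p : ℕ} (hp : 3 ≤ p) {T : Finset ℕ} (h0 : 0 ∈ T)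
    (hT : Real.log T.card ≤ Real.exp p) (f : Dy K → Dy L → ℝ) :
    SS (fun x y => MT T ⟨0, h0⟩ f x y ^ 2) ≤
      4000 * (1000000000000 * (p : ℝ) ^ 5) ^ 2 * SS (fun x y => f x y ^ 2) := by
  obtain ⟨M, hM⟩ := sum_part f
  set X : ℝ := 1000000000000 * (p : ℝ) ^ 5 with hX
  have hp0 : (0 : ℝ) < (p : ℝ) := by
    have : 0 < p := by omega
    exact_mod_cast this
  have hX0 : 0 < X := by
    rw [hX]
    positivity
  set a : ℤ → Dy K → Dy L → ℝ := fun m x y => (2 : ℝ) ^ (-m) * part f m x y with ha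
  set b : ℤ → Dy K × Dy L → ℝ := fun m z => MT T ⟨0, h0⟩ (a m) z.1 z.2 / (2 * X) with hb
  have hb0 : ∀ m z, 0 ≤ b m z := by
    intro m z
    exact div_nonneg (MT_nonneg _ _ _ _ _) (by positivity)
  have hbs : ∀ m z, z ∉ Om f m → b m z = 0 := by
    intro m z hz
    have h1 : MT T ⟨0, h0⟩ (a m) z.1 z.2 = 0 := MT_supp T ⟨0, h0⟩ (part_atom f m).1 hz
    simp only [hb]
    rw [h1, zero_div]
  have hSS : ∀ F : Dy K → Dy L → ℝ, SS F = ∑ z : Dy K × Dy L, F z.1 z.2 := by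
    intro F
    unfold SS
    rw [Fintype.sum_prod_type]
  have hb3 : ∀ m, ∑ z, b m z ^ 3 ≤ (Om f m).card := by
    intro m
    have h1 := atom_sup3 hp h0 hT (part_atom f m)
    rw [hSS] at h1
    have h2 : ∑ z, b m z ^ 3 = (∑ z : Dy K × Dy L, MT T ⟨0, h0⟩ (a m) z.1 z.2 ^ 3) / (2 * X) ^ 3 := by
      rw [Finset.sum_div]
      refine Finset.sum_congr rfl fun z _ => ?_
      simp only [hb]
      rw [div_pow]
    rw [h2, div_le_iff₀ (by positivity)]
    refine h1.trans ?_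
    have h3 : (0 : ℝ) ≤ ((Om f m).card : ℝ) := by positivity
    have h4 : (0 : ℝ) ≤ X ^ 3 := by positivity
    rw [← hX]
    nlinarith [mul_nonneg h3 h4]
  have hcomb := combine M b (Om f) hb0 hbs hb3
  have hpt : ∀ z : Dy K × Dy L, MT T ⟨0, h0⟩ f z.1 z.2 ≤
      (2 * X) * ∑ m ∈ Icc (-(M : ℤ)) M, (2 : ℝ) ^ m * b m z := by
    intro z
    refine Finset.sup'_le _ _ fun t ht => ?_
    rw [Final_Hs_lin t M f hM, Finset.mul_sum]
    refine (Finset.abs_sum_le_sum_abs _ _).trans (Finset.sum_le_sum fun m _ => ?_)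
    rw [abs_mul, abs_of_pos (by positivity : (0 : ℝ) < (2 : ℝ) ^ m)]
    have h1 : |Hs t (a m) z.1 z.2| ≤ MT T ⟨0, h0⟩ (a m) z.1 z.2 :=
      Finset.le_sup' (fun t => |Hs t (a m) z.1 z.2|) ht
    have h2 : (2 * X) * ((2 : ℝ) ^ m * b m z) = (2 : ℝ) ^ m * MT T ⟨0, h0⟩ (a m) z.1 z.2 := by
      simp only [hb]
      field_simp
    rw [h2]
    exact mul_le_mul_of_nonneg_left h1 (by positivity)
  have hcard : ∀ m ∈ Icc (-(M : ℤ)) M, (4 : ℝ) ^ m * ((Om f m).card : ℝ) ≤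
      64 * ((4 : ℝ) ^ m * SS (ind f m)) := by
    intro m _
    have h1 := card_Om_le f m
    have h2 : (0 : ℝ) ≤ (4 : ℝ) ^ m := by positivity
    have h3 := mul_le_mul_of_nonneg_left h1 h2
    linarith
  have hlev := sum_level f (Icc (-(M : ℤ)) M)
  have hf0 : 0 ≤ SS (fun x y => f x y ^ 2) := by
    unfold SS
    exact Finset.sum_nonneg fun _ _ => Finset.sum_nonneg fun _ _ => sq_nonneg _
  rw [hSS]
  calc ∑ z : Dy K × Dy L, MT T ⟨0, h0⟩ f z.1 z.2 ^ 2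
      ≤ ∑ z : Dy K × Dy L, ((2 * X) * ∑ m ∈ Icc (-(M : ℤ)) M, (2 : ℝ) ^ m * b m z) ^ 2 :=
        Finset.sum_le_sum fun z _ => pow_le_pow_left₀ (MT_nonneg _ _ _ _ _) (hpt z) 2
    _ = (2 * X) ^ 2 * ∑ z : Dy K × Dy L, (∑ m ∈ Icc (-(M : ℤ)) M, (2 : ℝ) ^ m * b m z) ^ 2 := by
        rw [Finset.mul_sum]
        refine Finset.sum_congr rfl fun z _ => ?_
        rw [mul_pow]
    _ ≤ (2 * X) ^ 2 * (10 * ∑ m ∈ Icc (-(M : ℤ)) M, (4 : ℝ) ^ m * ((Om f m).card : ℝ)) :=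
        mul_le_mul_of_nonneg_left hcomb (by positivity)
    _ ≤ (2 * X) ^ 2 * (10 * (64 * (4 / 3 * SS (fun x y => f x y ^ 2)))) := by
        refine mul_le_mul_of_nonneg_left ?_ (by positivity)
        refine mul_le_mul_of_nonneg_left ?_ (by norm_num)
        calc ∑ m ∈ Icc (-(M : ℤ)) M, (4 : ℝ) ^ m * ((Om f m).card : ℝ)
            ≤ ∑ m ∈ Icc (-(M : ℤ)) M, 64 * ((4 : ℝ) ^ m * SS (ind f m)) := Finset.sum_le_sum hcard
          _ = 64 * ∑ m ∈ Icc (-(M : ℤ)) M, (4 : ℝ) ^ m * SS (ind f m) := by rw [Finset.mul_sum]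
          _ ≤ 64 * (4 / 3 * SS (fun x y => f x y ^ 2)) := by linarith
    _ ≤ 4000 * X ^ 2 * SS (fun x y => f x y ^ 2) := by
        have h1 : 0 ≤ X ^ 2 * SS (fun x y => f x y ^ 2) := by positivity
        nlinarith

/-- The constant. -/
noncomputable def CC : ℝ := 2 * 4000 * (1000000000000 * 5 ^ 5) ^ 2

theorem real_hyp (Λ : Finset ℕ) (hΛ : Λ.Nonempty) (f : Dy K → Dy L → ℝ) :
    ∑ x, ∑ y, (Λ.sup' hΛ fun n => |HypSum n f x y|) ^ 2 ≤
      CC / 2 * (1 + Real.log (1 + Real.log Λ.card)) ^ 10 * ∑ x, ∑ y, f x y ^ 2 := by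
  set N := Λ.card with hN
  have hN1 : 1 ≤ N := by
    rw [hN]
    exact Finset.card_pos.mpr hΛ
  have hN1' : (1 : ℝ) ≤ (N : ℝ) := by exact_mod_cast hN1
  have hlogN : 0 ≤ Real.log N := Real.log_nonneg hN1'
  have hlogN1 : 0 ≤ Real.log ((N : ℝ) + 1) := Real.log_nonneg (by linarith)
  have hll : 0 ≤ Real.log (1 + Real.log ((N : ℝ) + 1)) := Real.log_nonneg (by linarith)
  have hllN : 0 ≤ Real.log (1 + Real.log (N : ℝ)) := Real.log_nonneg (by linarith)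
  set c := ⌈Real.log (1 + Real.log ((N : ℝ) + 1))⌉₊ with hc
  set p := 3 + c with hp
  have hc1 : Real.log (1 + Real.log ((N : ℝ) + 1)) ≤ (c : ℝ) := Nat.le_ceil _
  have hc2 : (c : ℝ) < Real.log (1 + Real.log ((N : ℝ) + 1)) + 1 := Nat.ceil_lt_add_one hll
  have hpc : (p : ℝ) = 3 + (c : ℝ) := by
    rw [hp]
    push_cast
    ring
  set T : Finset ℕ := insert 0 (Λ.image (· + 1)) with hTdef
  have h0 : 0 ∈ T := Finset.mem_insert_self _ _
  have hTc : T.card ≤ N + 1 := by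
    refine (Finset.card_insert_le _ _).trans ?_
    have := Finset.card_image_le (s := Λ) (f := (· + 1))
    omega
  have hT1 : 0 < T.card := Finset.card_pos.mpr ⟨0, h0⟩
  have hTlog : Real.log T.card ≤ Real.exp p := by
    have h1 : Real.log T.card ≤ Real.log ((N : ℝ) + 1) := by
      refine Real.log_le_log (by exact_mod_cast hT1) ?_
      exact_mod_cast hTc
    have h2 : 1 + Real.log ((N : ℝ) + 1) ≤ Real.exp p := by
      rw [← Real.exp_log (by linarith : (0 : ℝ) < 1 + Real.log ((N : ℝ) + 1))]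
      apply Real.exp_le_exp.mpr
      rw [hpc]
      linarith
    linarith
  have hp5 : (p : ℝ) ≤ 5 * (1 + Real.log (1 + Real.log (N : ℝ))) := by
    have h2 : Real.log ((N : ℝ) + 1) ≤ Real.log 2 + Real.log N := by
      rw [← Real.log_mul (by norm_num) (by linarith)]
      exact Real.log_le_log (by linarith) (by linarith)
    have hl2 : Real.log 2 ≤ 1 := by
      have := Real.log_two_lt_d9
      linarith
    have h3 : Real.log (1 + Real.log ((N : ℝ) + 1)) ≤ Real.log 2 + Real.log (1 + Real.log (N : ℝ)) := by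
      rw [← Real.log_mul (by norm_num) (by linarith)]
      exact Real.log_le_log (by linarith) (by linarith)
    rw [hpc]
    linarith
  have hHS : ∀ (n : ℕ) (x : Dy K) (y : Dy L), HypSum n f x y = Hs (n + 1) f x y := by
    intro n x y
    unfold HypSum Hs Rs lt DD
    refine Finset.sum_congr rfl fun j _ => Finset.sum_congr rfl fun k _ => ?_
    by_cases h : j + k ≤ n
    · rw [if_pos h, if_pos]
      simpa using Nat.lt_succ_of_le h
    · rw [if_neg h, if_neg]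
      simp only [decide_eq_true_eq]
      omega
  have hsup : ∀ (x : Dy K) (y : Dy L), (Λ.sup' hΛ fun n => |HypSum n f x y|) ≤
      MT T ⟨0, h0⟩ f x y := by
    intro x y
    refine Finset.sup'_le _ _ fun n hn => ?_
    rw [hHS]
    have hmem : n + 1 ∈ T := by
      rw [hTdef]
      exact Finset.mem_insert_of_mem (Finset.mem_image.mpr ⟨n, hn, rfl⟩)
    exact Finset.le_sup' (fun t => |Hs t f x y|) hmem
  have hsup0 : ∀ (x : Dy K) (y : Dy L), 0 ≤ (Λ.sup' hΛ fun n => |HypSum n f x y|) := by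
    intro x y
    obtain ⟨n, hn⟩ := hΛ
    exact (abs_nonneg _).trans (Finset.le_sup' (fun n => |HypSum n f x y|) hn)
  have hmain := real_MT (K := K) (L := L) (p := p) (by omega) h0 hTlog f
  have hf0 : 0 ≤ SS (fun x y => f x y ^ 2) := by
    unfold SS
    exact Finset.sum_nonneg fun _ _ => Finset.sum_nonneg fun _ _ => sq_nonneg _
  have hE : (1000000000000 * (p : ℝ) ^ 5) ^ 2 ≤
      (1000000000000 * 5 ^ 5) ^ 2 * (1 + Real.log (1 + Real.log (N : ℝ))) ^ 10 := by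
    have hp0 : (0 : ℝ) ≤ (p : ℝ) := by positivity
    have h1 : (p : ℝ) ^ 10 ≤ (5 * (1 + Real.log (1 + Real.log (N : ℝ)))) ^ 10 :=
      pow_le_pow_left₀ hp0 hp5 10
    rw [mul_pow] at h1
    have h2 : (1000000000000 * (p : ℝ) ^ 5) ^ 2 = 1000000000000 ^ 2 * (p : ℝ) ^ 10 := by ring
    rw [h2]
    have h3 := mul_le_mul_of_nonneg_left h1 (by norm_num : (0 : ℝ) ≤ 1000000000000 ^ 2)
    refine h3.trans (le_of_eq ?_)
    ring
  calc ∑ x, ∑ y, (Λ.sup' hΛ fun n => |HypSum n f x y|) ^ 2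
      ≤ ∑ x, ∑ y, MT T ⟨0, h0⟩ f x y ^ 2 :=
        Finset.sum_le_sum fun x _ => Finset.sum_le_sum fun y _ =>
          pow_le_pow_left₀ (hsup0 x y) (hsup x y) 2
    _ ≤ 4000 * (1000000000000 * (p : ℝ) ^ 5) ^ 2 * SS (fun x y => f x y ^ 2) := hmain
    _ ≤ 4000 * ((1000000000000 * 5 ^ 5) ^ 2 * (1 + Real.log (1 + Real.log (N : ℝ))) ^ 10) *
        SS (fun x y => f x y ^ 2) := by
        refine mul_le_mul_of_nonneg_right ?_ hf0
        exact mul_le_mul_of_nonneg_left hE (by norm_num)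
    _ = CC / 2 * (1 + Real.log (1 + Real.log N)) ^ 10 * ∑ x, ∑ y, f x y ^ 2 := by
        unfold CC SS
        ring

/-- Complex functions: real and imaginary parts (`re_hyp`, `im_hyp`). -/
theorem complex_hyp (Λ : Finset ℕ) (hΛ : Λ.Nonempty) (f : Dy K → Dy L → ℂ) :
    ∑ x, ∑ y, (Λ.sup' hΛ fun n => ‖HypSum n f x y‖) ^ 2 ≤
      CC * (1 + Real.log (1 + Real.log Λ.card)) ^ 10 * ∑ x, ∑ y, ‖f x y‖ ^ 2 := by
  have h1 : ∀ x y, (Λ.sup' hΛ fun n => ‖HypSum n f x y‖) ^ 2 ≤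
      (Λ.sup' hΛ fun n => |HypSum n (fun x y => (f x y).re) x y|) ^ 2 +
      (Λ.sup' hΛ fun n => |HypSum n (fun x y => (f x y).im) x y|) ^ 2 := by
    intro x y
    obtain ⟨n, hn, he⟩ := Finset.exists_mem_eq_sup' hΛ (fun n => ‖HypSum n f x y‖)
    rw [he, Complex.sq_norm, Complex.normSq_apply, re_hyp, im_hyp]
    have h2 := Finset.le_sup' (fun n => |HypSum n (fun x y => (f x y).re) x y|) hn
    have h3 := Finset.le_sup' (fun n => |HypSum n (fun x y => (f x y).im) x y|) hn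
    have h4 := pow_le_pow_left₀ (abs_nonneg _) h2 2
    have h5 := pow_le_pow_left₀ (abs_nonneg _) h3 2
    rw [sq_abs] at h4 h5
    nlinarith
  have h2 := real_hyp Λ hΛ (fun x y => (f x y).re)
  have h3 := real_hyp Λ hΛ (fun x y => (f x y).im)
  have hC : (0 : ℝ) ≤ CC := by
    unfold CC
    positivity
  have hN1 : (1 : ℝ) ≤ (Λ.card : ℝ) := by
    exact_mod_cast Finset.card_pos.mpr hΛ
  have hllN : 0 ≤ Real.log (1 + Real.log (Λ.card : ℝ)) :=
    Real.log_nonneg (by linarith [Real.log_nonneg hN1])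
  have hsum : ∑ x, ∑ y, ‖f x y‖ ^ 2 = ∑ x, ∑ y, (f x y).re ^ 2 + ∑ x, ∑ y, (f x y).im ^ 2 := by
    rw [← Finset.sum_add_distrib]
    refine Finset.sum_congr rfl fun x _ => ?_
    rw [← Finset.sum_add_distrib]
    refine Finset.sum_congr rfl fun y _ => ?_
    rw [Complex.sq_norm, Complex.normSq_apply]
    ring
  have hf0 : 0 ≤ ∑ x, ∑ y, ‖f x y‖ ^ 2 :=
    Finset.sum_nonneg fun _ _ => Finset.sum_nonneg fun _ _ => sq_nonneg _
  have hP : 0 ≤ CC * (1 + Real.log (1 + Real.log (Λ.card : ℝ))) ^ 10 *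
      ∑ x, ∑ y, ‖f x y‖ ^ 2 := by
    refine mul_nonneg (mul_nonneg hC ?_) hf0
    exact pow_nonneg (by linarith) 10
  calc ∑ x, ∑ y, (Λ.sup' hΛ fun n => ‖HypSum n f x y‖) ^ 2 ≤
      ∑ x, ∑ y, ((Λ.sup' hΛ fun n => |HypSum n (fun x y => (f x y).re) x y|) ^ 2 +
      (Λ.sup' hΛ fun n => |HypSum n (fun x y => (f x y).im) x y|) ^ 2) :=
        Finset.sum_le_sum fun x _ => Finset.sum_le_sum fun y _ => h1 x y
    _ = ∑ x, ∑ y, (Λ.sup' hΛ fun n => |HypSum n (fun x y => (f x y).re) x y|) ^ 2 +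
      ∑ x, ∑ y, (Λ.sup' hΛ fun n => |HypSum n (fun x y => (f x y).im) x y|) ^ 2 := by
        simp only [Finset.sum_add_distrib]
    _ ≤ CC / 2 * (1 + Real.log (1 + Real.log Λ.card)) ^ 10 * ∑ x, ∑ y, (f x y).re ^ 2 +
        CC / 2 * (1 + Real.log (1 + Real.log Λ.card)) ^ 10 * ∑ x, ∑ y, (f x y).im ^ 2 :=
        add_le_add h2 h3
    _ = CC / 2 * (1 + Real.log (1 + Real.log Λ.card)) ^ 10 * ∑ x, ∑ y, ‖f x y‖ ^ 2 := by
        rw [hsum]
        ring
    _ ≤ CC * (1 + Real.log (1 + Real.log Λ.card)) ^ 10 * ∑ x, ∑ y, ‖f x y‖ ^ 2 := by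
        have h5 : CC / 2 * (1 + Real.log (1 + Real.log (Λ.card : ℝ))) ^ 10 *
            ∑ x, ∑ y, ‖f x y‖ ^ 2 = (CC * (1 + Real.log (1 + Real.log (Λ.card : ℝ))) ^ 10 *
            ∑ x, ∑ y, ‖f x y‖ ^ 2) / 2 := by ring
        rw [h5]
        linarith

end Pool.Agent.helper75.HX
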