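import Mathlib

/-!
# Chain : the pointwise combination of levels

`T` finite set of levels with `0 ∈ T`; `ε l ≥ 0` the energy of level `l`; `a t` real with `a 0 = 0`; if the energy
`∑_{s ≤ l < t} ε l ≤ d` then `|a t - a s|^p ≤ U`.  `ν l` = the least element of `T` larger than `l` (for `l < max T`).
For `t ∈ T`: if `∑_{l<t} ε l ≤ d` then `|a t|^p = |a t - a 0|^p ≤ U`.  Otherwise let `s ∈ T` be the least
element with `∑_{s≤l<t} ε l ≤ d` (`t` itself qualifies), `s > 0`, and `r` the largest element of `T` below `s`, so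
`∑_{r≤l<t} ε l > d`.  For `r ≤ l < t`: `s ≤ ν l ≤ t`, so the energy from `ν l` to `t` is `≤ d` and
`|a t|^p ≤ 2^p (|a (ν l)|^p + U)`; multiply by `ε l` and sum over `r ≤ l < t`:
`d |a t|^p ≤ 2^p ∑ ε l (|a (ν l)|^p + U)`.
-/

set_option autoImplicit false

namespace Pool.Agent.helper75.HX

open Finset

theorem chain (T : Finset ℕ) (h0 : 0 ∈ T) (ν : ℕ → ℕ)
    (hν : ∀ l t, t ∈ T → l < t → ν l ∈ T ∧ l < ν l ∧ ν l ≤ t)
    (ε : ℕ → ℝ) (hε : ∀ l, 0 ≤ ε l) (a : ℕ → ℝ) (ha0 : a 0 = 0) {d U : ℝ} (hd : 0 < d)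
    (hU0 : 0 ≤ U) (p : ℕ) (hp : 1 ≤ p)
    (hU : ∀ s ∈ T, ∀ t ∈ T, s ≤ t → ∑ l ∈ Ico s t, ε l ≤ d → |a t - a s| ^ p ≤ U)
    (M : ℕ) (hM : ∀ t ∈ T, t ≤ M) {t : ℕ} (ht : t ∈ T) :
    |a t| ^ p ≤ U + 2 ^ p / d * (∑ l ∈ range M, ε l * |a (ν l)| ^ p + U * ∑ l ∈ range M, ε l) := by
  classical
  have hR : 0 ≤ 2 ^ p / d * (∑ l ∈ range M, ε l * |a (ν l)| ^ p + U * ∑ l ∈ range M, ε l) := by
    apply mul_nonneg (by positivity)
    apply add_nonneg
    · exact sum_nonneg fun l _ => mul_nonneg (hε l) (by positivity)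
    · exact mul_nonneg hU0 (sum_nonneg fun l _ => hε l)
  by_cases h1 : ∑ l ∈ Ico 0 t, ε l ≤ d
  · have h2 := hU 0 h0 t ht (Nat.zero_le _) h1
    rw [ha0, sub_zero] at h2
    linarith
  have hex : ∃ s, s ∈ T ∧ s ≤ t ∧ ∑ l ∈ Ico s t, ε l ≤ d :=
    ⟨t, ht, le_rfl, by rw [Ico_self, sum_empty]; exact hd.le⟩
  obtain ⟨hsT, hst, hsd⟩ := Nat.find_spec hex
  have hmin : ∀ r, r ∈ T → r ≤ t → r < Nat.find hex → d < ∑ l ∈ Ico r t, ε l := by
    intro r hr hrt hrs
    have := Nat.find_min hex hrs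
    by_contra h
    exact this ⟨hr, hrt, not_lt.1 h⟩
  generalize Nat.find hex = s at hsT hst hsd hmin
  have hs0 : 0 < s := by
    rcases Nat.eq_zero_or_pos s with h | h
    · rw [h] at hsd
      exact absurd hsd h1
    · exact h
  have hne : (T.filter (fun r => r < s)).Nonempty := ⟨0, mem_filter.2 ⟨h0, hs0⟩⟩
  obtain ⟨hrT, hrs⟩ := mem_filter.1 (max'_mem _ hne)
  have hmax : ∀ q ∈ T, q < s → q ≤ (T.filter (fun r => r < s)).max' hne := fun q hq hqs =>
    le_max' _ _ (mem_filter.2 ⟨hq, hqs⟩)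
  generalize (T.filter (fun r => r < s)).max' hne = r at hrT hrs hmax
  have hrd := hmin r hrT (hrs.le.trans hst) hrs
  have key : ∀ l ∈ Ico r t, ε l * |a t| ^ p ≤ 2 ^ p * (ε l * |a (ν l)| ^ p + U * ε l) := by
    intro l hl
    obtain ⟨hrl, hlt⟩ := mem_Ico.1 hl
    obtain ⟨hn1, hn2, hn3⟩ := hν l t ht hlt
    have hsn : s ≤ ν l := by
      by_contra h
      have := hmax (ν l) hn1 (not_le.1 h)
      omega
    have hE : ∑ j ∈ Ico (ν l) t, ε j ≤ d :=
      (sum_le_sum_of_subset_of_nonneg (Ico_subset_Ico hsn le_rfl) fun j _ _ => hε j).trans hsd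
    have h2 := hU (ν l) hn1 t ht hn3 hE
    have h3 : |a t| ≤ |a t - a (ν l)| + |a (ν l)| := by
      have := abs_add_le (a t - a (ν l)) (a (ν l))
      rwa [sub_add_cancel] at this
    have h4 : |a t| ^ p ≤ 2 ^ p * (|a (ν l)| ^ p + U) := by
      set X := |a t - a (ν l)| with hX
      set Y := |a (ν l)| with hY
      have hX0 : 0 ≤ X := abs_nonneg _
      have hY0 : 0 ≤ Y := abs_nonneg _
      have h5 : |a t| ≤ 2 * max X Y := by
        have := le_max_left X Y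
        have := le_max_right X Y
        linarith
      have h6 : |a t| ^ p ≤ (2 * max X Y) ^ p := pow_le_pow_left₀ (abs_nonneg _) h5 p
      rw [mul_pow] at h6
      have h7 : (max X Y) ^ p ≤ Y ^ p + U := by
        rcases max_cases X Y with ⟨h, _⟩ | ⟨h, _⟩
        · rw [h]
          have : 0 ≤ Y ^ p := by positivity
          linarith
        · rw [h]; linarith
      exact h6.trans (mul_le_mul_of_nonneg_left h7 (by positivity))
    calc ε l * |a t| ^ p ≤ ε l * (2 ^ p * (|a (ν l)| ^ p + U)) :=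
          mul_le_mul_of_nonneg_left h4 (hε l)
      _ = _ := by ring
  have h8 : (∑ l ∈ Ico r t, ε l) * |a t| ^ p ≤
      2 ^ p * (∑ l ∈ range M, ε l * |a (ν l)| ^ p + U * ∑ l ∈ range M, ε l) := by
    have hsub : Ico r t ⊆ range M := by
      intro l hl
      have := hM t ht
      rw [mem_Ico] at hl
      exact mem_range.2 (by omega)
    calc (∑ l ∈ Ico r t, ε l) * |a t| ^ p = ∑ l ∈ Ico r t, ε l * |a t| ^ p := sum_mul _ _ _
      _ ≤ ∑ l ∈ Ico r t, 2 ^ p * (ε l * |a (ν l)| ^ p + U * ε l) := sum_le_sum key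
      _ ≤ ∑ l ∈ range M, 2 ^ p * (ε l * |a (ν l)| ^ p + U * ε l) :=
          sum_le_sum_of_subset_of_nonneg hsub fun l _ _ => by
            have := hε l
            positivity
      _ = _ := by rw [← mul_sum, sum_add_distrib, mul_sum]
  have h9 : d * |a t| ^ p ≤ (∑ l ∈ Ico r t, ε l) * |a t| ^ p :=
    mul_le_mul_of_nonneg_right hrd.le (by positivity)
  have h10 : |a t| ^ p ≤
      2 ^ p / d * (∑ l ∈ range M, ε l * |a (ν l)| ^ p + U * ∑ l ∈ range M, ε l) := by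
    rw [div_mul_eq_mul_div, le_div_iff₀ hd]
    linarith
  linarith

end Pool.Agent.helper75.HX
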