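import Pool.Agent.helper75.HX.One1

/-!
# Doob : maximal inequality in `L^r`, `r = q/(q-1)`

`u ≥ 0`, `m_k = e k u`, `M_k = max_{i ≤ k} m_i`, so `Sup2 u = M_L`.  For `r > 1` and `0 ≤ a ≤ b`
(Young): `b^r - a^r ≤ (r/(r-1)) b (b^{r-1} - a^{r-1})`.  At every step either `M_{k+1} = M_k` or
`M_{k+1} = m_{k+1}`, so `M_{k+1}^r - M_k^r ≤ (r/(r-1)) m_{k+1} (M_{k+1}^{r-1} - M_k^{r-1})`.  Sum over the points: the factor
`M_{k+1}^{r-1} - M_k^{r-1}` is measurable at level `k+1`, so `m_{k+1}` may be replaced by `u` (`sum_mul_e`).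
Telescoping (with `M_0^r = m_0 M_0^{r-1} ≤ (r/(r-1)) m_0 M_0^{r-1}`): `∑ M_L^r ≤ (r/(r-1)) ∑ u M_L^{r-1}`; Hoelder
(`Real.inner_le_Lp_mul_Lq`) `≤ (r/(r-1)) (∑ u^r)^{1/r} (∑ M_L^r)^{(r-1)/r}`.  With `r = q/(q-1)`: `r/(r-1) = q`.
-/

set_option autoImplicit false

namespace Pool.Agent.helper75.HX

open Finset Pool.Agent.helper18.HC

variable {L : ℕ}

/-- the running maximum -/
noncomputable def Doob_M (u : Dy L → ℝ) : ℕ → Dy L → ℝ
  | 0 => e 0 u
  | k + 1 => fun y => max (Doob_M u k y) (e (k + 1) u y)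

theorem Doob_e_nonneg {u : Dy L → ℝ} (hu : ∀ y, 0 ≤ u y) (k : ℕ) (y : Dy L) : 0 ≤ e k u y := by
  unfold e
  exact div_nonneg (Finset.sum_nonneg fun z _ => hu z) (Nat.cast_nonneg _)

theorem Doob_e_le_M (u : Dy L → ℝ) (k : ℕ) (y : Dy L) : e k u y ≤ Doob_M u k y := by
  cases k with
  | zero => exact le_rfl
  | succ k => exact le_max_right _ _

theorem Doob_M_mono (u : Dy L → ℝ) {i k : ℕ} (h : i ≤ k) (y : Dy L) :
    Doob_M u i y ≤ Doob_M u k y := by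
  induction h with
  | refl => exact le_rfl
  | step _ ih => exact ih.trans (le_max_left _ _)

theorem Doob_M_nonneg {u : Dy L → ℝ} (hu : ∀ y, 0 ≤ u y) (k : ℕ) (y : Dy L) :
    0 ≤ Doob_M u k y := (Doob_e_nonneg hu k y).trans (Doob_e_le_M u k y)

theorem Doob_Sup2_le {u : Dy L → ℝ} (hu : ∀ y, 0 ≤ u y) (y : Dy L) :
    Sup2 u y ≤ Doob_M u L y := by
  unfold Sup2
  refine Finset.sup'_le _ _ fun k hk => ?_
  rw [abs_of_nonneg (Doob_e_nonneg hu k y)]
  exact (Doob_e_le_M u k y).trans (Doob_M_mono u (Nat.lt_succ_iff.1 (Finset.mem_range.1 hk)) y)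

theorem Doob_meas (u : Dy L → ℝ) (k : ℕ) : Meas k (Doob_M u k) := by
  induction k with
  | zero => exact meas_e 0 u
  | succ k ih =>
    intro x x' hx
    show max _ _ = max _ _
    rw [(Meas.mono ih (Nat.le_succ k)) x x' hx, meas_e (k + 1) u x x' hx]

theorem Doob_young {q : ℕ} (hq : 2 ≤ q) {a b : ℝ} (ha : 0 ≤ a) (hb : 0 ≤ b) :
    b ^ ((q : ℝ) / (q - 1)) - a ^ ((q : ℝ) / (q - 1)) ≤
      q * (b * (b ^ ((1 : ℝ) / (q - 1)) - a ^ ((1 : ℝ) / (q - 1)))) := by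
  have hq' : (2 : ℝ) ≤ q := by exact_mod_cast hq
  have hq1 : (0 : ℝ) < (q : ℝ) - 1 := by linarith
  have hq0 : (0 : ℝ) < q := by linarith
  have hconj : ((q : ℝ) / (q - 1)).HolderConjugate q := by
    rw [Real.holderConjugate_iff]
    refine ⟨?_, ?_⟩
    · rw [lt_div_iff₀ hq1]
      linarith
    · field_simp
      ring
  have hy := Real.young_inequality_of_nonneg hb (Real.rpow_nonneg ha ((1 : ℝ) / (q - 1))) hconj
  have e1 : (a ^ ((1 : ℝ) / (q - 1))) ^ (q : ℝ) = a ^ ((q : ℝ) / (q - 1)) := by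
    rw [← Real.rpow_mul ha]
    congr 1
    ring
  have e2 : b * b ^ ((1 : ℝ) / (q - 1)) = b ^ ((q : ℝ) / (q - 1)) := by
    rcases hb.eq_or_lt with hb0 | hb0
    · rw [← hb0, zero_mul, Real.zero_rpow (by positivity)]
    · nth_rewrite 1 [← Real.rpow_one b]
      rw [← Real.rpow_add hb0]
      congr 1
      field_simp
      ring
  rw [e1] at hy
  have e3 : (q : ℝ) * (b ^ ((q : ℝ) / (q - 1)) / ((q : ℝ) / (q - 1)) +
      a ^ ((q : ℝ) / (q - 1)) / q) = (q - 1) * b ^ ((q : ℝ) / (q - 1)) +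
      a ^ ((q : ℝ) / (q - 1)) := by
    field_simp
  have hy2 := mul_le_mul_of_nonneg_left hy hq0.le
  rw [e3] at hy2
  rw [mul_sub, e2]
  linarith

theorem Doob_step {u : Dy L → ℝ} (hu : ∀ y, 0 ≤ u y) {q : ℕ} (hq : 2 ≤ q) (k : ℕ) :
    ∑ y, (Doob_M u k y) ^ ((q : ℝ) / (q - 1)) ≤
      q * ∑ y, (Doob_M u k y) ^ ((1 : ℝ) / (q - 1)) * u y := by
  have hq' : (2 : ℝ) ≤ q := by exact_mod_cast hq
  have hq1 : (0 : ℝ) < (q : ℝ) - 1 := by linarith
  induction k with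
  | zero =>
    have h1 : ∀ y : Dy L, (Doob_M u 0 y) ^ ((q : ℝ) / (q - 1)) =
        (Doob_M u 0 y) ^ ((1 : ℝ) / (q - 1)) * e 0 u y := by
      intro y
      have hb := Doob_M_nonneg hu 0 y
      show _ = _ * Doob_M u 0 y
      rcases hb.eq_or_lt with hb0 | hb0
      · rw [← hb0, mul_zero, Real.zero_rpow (by positivity)]
      · nth_rewrite 3 [← Real.rpow_one (Doob_M u 0 y)]
        rw [← Real.rpow_add hb0]
        congr 1
        field_simp
        ring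
    have hm : Meas 0 (fun y => (Doob_M u 0 y) ^ ((1 : ℝ) / (q - 1))) := fun x x' hx => by
      dsimp only
      rw [Doob_meas u 0 x x' hx]
    rw [Finset.sum_congr rfl fun y _ => h1 y,
      sum_mul_e (g := fun y => (Doob_M u 0 y) ^ ((1 : ℝ) / (q - 1))) hm u]
    have h2 : 0 ≤ ∑ y, (Doob_M u 0 y) ^ ((1 : ℝ) / (q - 1)) * u y :=
      Finset.sum_nonneg fun y _ => mul_nonneg (Real.rpow_nonneg (Doob_M_nonneg hu 0 y) _) (hu y)
    nlinarith
  | succ k ih =>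
    have h1 : ∀ y : Dy L, (Doob_M u (k + 1) y) ^ ((q : ℝ) / (q - 1)) -
        (Doob_M u k y) ^ ((q : ℝ) / (q - 1)) ≤
        q * (((Doob_M u (k + 1) y) ^ ((1 : ℝ) / (q - 1)) -
          (Doob_M u k y) ^ ((1 : ℝ) / (q - 1))) * e (k + 1) u y) := by
      intro y
      rcases le_total (e (k + 1) u y) (Doob_M u k y) with h | h
      · have h2 : Doob_M u (k + 1) y = Doob_M u k y := max_eq_left h
        rw [h2, sub_self, sub_self, zero_mul, mul_zero]
      · have h2 : Doob_M u (k + 1) y = e (k + 1) u y := max_eq_right h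
        rw [h2, mul_comm (_ - _) (e (k + 1) u y)]
        exact Doob_young hq (Doob_M_nonneg hu k y) (Doob_e_nonneg hu (k + 1) y)
    have hm : Meas (k + 1) (fun y => (Doob_M u (k + 1) y) ^ ((1 : ℝ) / (q - 1)) -
        (Doob_M u k y) ^ ((1 : ℝ) / (q - 1))) := fun x x' hx => by
      dsimp only
      rw [Doob_meas u (k + 1) x x' hx,
        (Meas.mono (Doob_meas u k) (Nat.le_succ k)) x x' hx]
    have h3 := Finset.sum_le_sum fun y (_ : y ∈ (univ : Finset (Dy L))) => h1 y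
    rw [← Finset.mul_sum, sum_mul_e (g := fun y => (Doob_M u (k + 1) y) ^ ((1 : ℝ) / (q - 1)) -
        (Doob_M u k y) ^ ((1 : ℝ) / (q - 1))) hm u, Finset.sum_sub_distrib] at h3
    simp only [sub_mul] at h3
    rw [Finset.sum_sub_distrib, mul_sub] at h3
    linarith

theorem doob_pow {u : Dy L → ℝ} (hu : ∀ y, 0 ≤ u y) {q : ℕ} (hq : 2 ≤ q) :
    ∑ y, (Sup2 u y) ^ ((q : ℝ) / (q - 1)) ≤
      (q : ℝ) ^ ((q : ℝ) / (q - 1)) * ∑ y, (u y) ^ ((q : ℝ) / (q - 1)) := by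
  have hq' : (2 : ℝ) ≤ q := by exact_mod_cast hq
  have hq1 : (0 : ℝ) < (q : ℝ) - 1 := by linarith
  have hq0 : (0 : ℝ) < q := by linarith
  have hr : (0 : ℝ) < (q : ℝ) / (q - 1) := by positivity
  have hconj : ((q : ℝ) / (q - 1)).HolderConjugate q := by
    rw [Real.holderConjugate_iff]
    refine ⟨?_, ?_⟩
    · rw [lt_div_iff₀ hq1]
      linarith
    · field_simp
      ring
  set r : ℝ := (q : ℝ) / (q - 1) with hrdef
  set S : ℝ := ∑ y, (Doob_M u L y) ^ r with hS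
  set A : ℝ := ∑ y, (u y) ^ r with hA
  have hA0 : 0 ≤ A := Finset.sum_nonneg fun y _ => Real.rpow_nonneg (hu y) _
  have hS0 : 0 ≤ S := Finset.sum_nonneg fun y _ => Real.rpow_nonneg (Doob_M_nonneg hu L y) _
  have h1 : ∑ y, (Sup2 u y) ^ r ≤ S :=
    Finset.sum_le_sum fun y _ => Real.rpow_le_rpow (Sup2_nonneg u y) (Doob_Sup2_le hu y) hr.le
  refine h1.trans ?_
  have h2 : S ≤ q * ∑ y, (Doob_M u L y) ^ ((1 : ℝ) / (q - 1)) * u y := Doob_step hu hq L
  have h3 : ∑ y, u y * (Doob_M u L y) ^ ((1 : ℝ) / (q - 1)) ≤ A ^ (1 / r) * S ^ (1 / (q : ℝ)) := by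
    have h4 := Real.inner_le_Lp_mul_Lq_of_nonneg (univ : Finset (Dy L)) hconj
      (f := u) (g := fun y => (Doob_M u L y) ^ ((1 : ℝ) / (q - 1))) (fun y _ => hu y)
      (fun y _ => Real.rpow_nonneg (Doob_M_nonneg hu L y) _)
    have h5 : ∀ y, ((Doob_M u L y) ^ ((1 : ℝ) / (q - 1))) ^ (q : ℝ) = (Doob_M u L y) ^ r := by
      intro y
      rw [← Real.rpow_mul (Doob_M_nonneg hu L y)]
      congr 1
      rw [hrdef]
      ring
    simp only [h5] at h4
    exact h4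
  have h6 : S ≤ q * (A ^ (1 / r) * S ^ (1 / (q : ℝ))) := by
    refine h2.trans (mul_le_mul_of_nonneg_left ?_ hq0.le)
    refine le_trans (le_of_eq ?_) h3
    exact Finset.sum_congr rfl fun y _ => mul_comm _ _
  rcases hS0.eq_or_lt with hSz | hSp
  · rw [← hSz]
    positivity
  have h7 : S ^ (1 / r) ≤ q * A ^ (1 / r) := by
    have h8 : S ^ (1 / r) * S ^ (1 / (q : ℝ)) = S := by
      rw [← Real.rpow_add hSp, one_div, one_div, hconj.inv_add_inv_eq_one, Real.rpow_one]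
    have h9 : 0 < S ^ (1 / (q : ℝ)) := Real.rpow_pos_of_pos hSp _
    refine le_of_mul_le_mul_right ?_ h9
    rw [h8, mul_assoc]
    exact h6
  have h10 := Real.rpow_le_rpow (Real.rpow_nonneg hS0 _) h7 hr.le
  rw [Real.mul_rpow hq0.le (Real.rpow_nonneg hA0 _), ← Real.rpow_mul hS0, ← Real.rpow_mul hA0,
    one_div_mul_cancel hr.ne', Real.rpow_one, Real.rpow_one] at h10
  exact h10

end Pool.Agent.helper75.HX
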