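import Pool.Agent.helper75.HX.One1

/-!
# Weighted : the weighted maximal inequality (Fefferman-Stein)

`g = |h|`.  Weak type: for `lam > 0`, `∑ w 1{Sup2 g > lam} ≤ (1/lam) ∑ g (Sup2 w)`: the set `{Sup2 g > lam}` is the
disjoint union of the maximal cylinders `I` with average `⟨g⟩_I > lam` (first level `k` with `e k g y > lam`);
`w(I) = |I| ⟨w⟩_I ≤ (1/lam) (∑_I g) ⟨w⟩_I ≤ (1/lam) ∑_I g Sup2 w`.  With stopping level `τ(y) = min{k : e k g y > lam}`:
`∑ w 1{τ=k} = ∑ (e k w) 1{τ=k} ≤ (1/lam) ∑ (e k w)(e k g) 1{τ=k} = (1/lam) ∑ (e k w) g 1{τ=k}` (all factors measurable at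
level `k`, `sum_mul_e`).
Truncation: `g ≤ g 1{g > lam/2} + lam/2`, so `{Sup2 g > lam} ⊆ {Sup2 (g 1{g>lam/2}) > lam/2}` and
`∑ w 1{Sup2 g > lam} ≤ (2/lam) ∑ g 1{g > lam/2} Sup2 w`.  Multiply by `2 lam` and integrate over `lam ∈ (0, T)`,
`T` large: `∑ w (Sup2 g)² ≤ 4 ∑ g (2g) Sup2 w`.  (`∫_0^T 2 lam 1{lam < t} = t²`, `∫_0^T 1{lam < 2g} = 2g` for `T` large.)
-/

set_option autoImplicit false

namespace Pool.Agent.helper75.HX

open Finset Pool.Agent.helper18.HC

variable {L : ℕ}

/-- the function `((x - a / 2)₊) ^ 2` -/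
private noncomputable def Weighted_P (x a : ℝ) : ℝ := max (x - a / 2) 0 ^ 2

private theorem Weighted_P_anti (x : ℝ) {a b : ℝ} (h : a ≤ b) : Weighted_P x b ≤ Weighted_P x a := by
  unfold Weighted_P
  exact pow_le_pow_left₀ (le_max_right _ _) (max_le_max (by linarith) le_rfl) 2

private theorem Weighted_tangent (x : ℝ) {a b : ℝ} (ha : 0 ≤ a) (hab : a ≤ b) :
    (b ^ 2 - a ^ 2) / 4 + (b - a) * (x - b) ≤ Weighted_P x a - Weighted_P x b := by
  unfold Weighted_P
  rcases le_total (b / 2) x with h1 | h1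
  · rw [max_eq_left (by linarith), max_eq_left (by linarith)]
    nlinarith [sq_nonneg (b - a)]
  · rw [max_eq_right (by linarith : x - b / 2 ≤ 0)]
    rcases le_total (a / 2) x with h2 | h2
    · rw [max_eq_left (by linarith)]
      nlinarith [sq_nonneg (b - a), mul_nonneg (sub_nonneg.2 h1) (sub_nonneg.2 h2),
        mul_nonneg (sub_nonneg.2 hab) (sub_nonneg.2 h1), sq_nonneg (b / 2 - x)]
    · rw [max_eq_right (by linarith)]
      nlinarith [mul_nonneg (sub_nonneg.2 hab) (sub_nonneg.2 h2), sq_nonneg (b - a)]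

/-- the maximum of the averages of the levels `< k` (and `0`) -/
private noncomputable def Weighted_R (g : Dy L → ℝ) : ℕ → Dy L → ℝ
  | 0 => fun _ => 0
  | k + 1 => fun y => max (Weighted_R g k y) (e k g y)

private theorem Weighted_R_nonneg (g : Dy L → ℝ) (k : ℕ) (y : Dy L) : 0 ≤ Weighted_R g k y := by
  induction k with
  | zero => exact le_rfl
  | succ k ih => exact ih.trans (le_max_left _ _)

private theorem Weighted_le_R (g : Dy L → ℝ) {i k : ℕ} (h : i < k) (y : Dy L) :
    e i g y ≤ Weighted_R g k y := by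
  induction k with
  | zero => omega
  | succ k ih =>
    rcases Nat.lt_succ_iff_lt_or_eq.1 h with h1 | h1
    · exact (ih h1).trans (le_max_left _ _)
    · subst h1
      exact le_max_right _ _

private theorem Weighted_R_meas (g : Dy L → ℝ) (k : ℕ) : Meas k (Weighted_R g k) := by
  induction k with
  | zero => exact fun _ _ _ => rfl
  | succ k ih =>
    intro x x' hx
    show max _ _ = max _ _
    rw [(ih.mono (Nat.le_succ k)) x x' hx, ((meas_e k g).mono (Nat.le_succ k)) x x' hx]

private theorem Weighted_R_meas' (g : Dy L → ℝ) (k : ℕ) : Meas k (Weighted_R g (k + 1)) := by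
  intro x x' hx
  show max _ _ = max _ _
  rw [Weighted_R_meas g k x x' hx, meas_e k g x x' hx]

private theorem Weighted_step {w : Dy L → ℝ} (hw : ∀ y, 0 ≤ w y) {g : Dy L → ℝ}
    (hg : ∀ y, 0 ≤ g y) (k : ℕ) :
    ∑ y, w y * (Weighted_R g (k + 1) y ^ 2 - Weighted_R g k y ^ 2) ≤
      4 * ∑ y, Sup2 w y * (Weighted_P (g y) (Weighted_R g k y) -
        Weighted_P (g y) (Weighted_R g (k + 1) y)) := by
  set A : Dy L → ℝ := Weighted_R g k with hA
  set B : Dy L → ℝ := Weighted_R g (k + 1) with hB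
  have hAB : ∀ y, A y ≤ B y := fun y => le_max_left _ _
  have hA0 : ∀ y, 0 ≤ A y := fun y => Weighted_R_nonneg g k y
  have hAm : Meas k A := Weighted_R_meas g k
  have hBm : Meas k B := Weighted_R_meas' g k
  have hcase : ∀ y, (B y - A y) * (e k g y - B y) = 0 := by
    intro y
    rcases le_total (A y) (e k g y) with h | h
    · have : B y = e k g y := max_eq_right h
      rw [this, sub_self, mul_zero]
    · have : B y = A y := max_eq_left h
      rw [this, sub_self, zero_mul]
  have hm1 : Meas k (fun y => B y ^ 2 - A y ^ 2) := fun x x' hx => by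
    beta_reduce
    rw [hAm x x' hx, hBm x x' hx]
  have hm2 : Meas k (fun y => B y - A y) := fun x x' hx => by
    beta_reduce
    rw [hAm x x' hx, hBm x x' hx]
  have hm3 : Meas k (fun y => (B y ^ 2 - A y ^ 2) / 4 - (B y - A y) * B y) := fun x x' hx => by
    beta_reduce
    rw [hAm x x' hx, hBm x x' hx]
  set F : Dy L → ℝ := fun y => Weighted_P (g y) (A y) - Weighted_P (g y) (B y) with hF
  have hF0 : ∀ y, 0 ≤ F y := fun y => sub_nonneg.2 (Weighted_P_anti _ (hAB y))
  -- the average of the tangent inequality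
  have hpt : ∀ y, (B y ^ 2 - A y ^ 2) / 4 ≤ e k F y := by
    intro y
    have h1 := e_mono k (g := fun y => ((B y ^ 2 - A y ^ 2) / 4 - (B y - A y) * B y) +
      (B y - A y) * g y) (h := F) (fun y => by
        have := Weighted_tangent (g y) (hA0 y) (hAB y)
        rw [hF]
        simp only
        linarith) y
    rw [e_add k (fun y => (B y ^ 2 - A y ^ 2) / 4 - (B y - A y) * B y)
      (fun y => (B y - A y) * g y) y, e_of_meas hm3, e_mul_meas hm2] at h1
    have h2 := hcase y
    linarith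
  have hew : ∀ y, 0 ≤ e k w y := fun y => by
    unfold e
    exact div_nonneg (Finset.sum_nonneg fun _ _ => hw _) (Nat.cast_nonneg _)
  calc ∑ y, w y * (B y ^ 2 - A y ^ 2) = ∑ y, (B y ^ 2 - A y ^ 2) * w y :=
        Finset.sum_congr rfl fun y _ => mul_comm _ _
    _ = ∑ y, (B y ^ 2 - A y ^ 2) * e k w y := (sum_mul_e hm1 w).symm
    _ ≤ ∑ y, 4 * (e k w y * e k F y) := by
        refine Finset.sum_le_sum fun y _ => ?_
        have h1 := mul_le_mul_of_nonneg_left (hpt y) (hew y)
        linarith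
    _ = 4 * ∑ y, e k w y * F y := by
        rw [← Finset.mul_sum, sum_mul_e (meas_e k w) F]
    _ ≤ 4 * ∑ y, Sup2 w y * F y := by
        refine mul_le_mul_of_nonneg_left (Finset.sum_le_sum fun y _ => ?_) (by norm_num)
        exact mul_le_mul_of_nonneg_right ((le_abs_self _).trans (le_Sup2 k w y)) (hF0 y)

theorem fs {w : Dy L → ℝ} (hw : ∀ y, 0 ≤ w y) (h : Dy L → ℝ) :
    ∑ y, w y * (Sup2 h y) ^ 2 ≤ 8 * ∑ y, Sup2 w y * (h y) ^ 2 := by
  set g : Dy L → ℝ := fun y => |h y| with hg
  have hg0 : ∀ y, 0 ≤ g y := fun y => abs_nonneg _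
  have hW0 : ∀ y, 0 ≤ Sup2 w y := fun y => Sup2_nonneg w y
  have hP : ∀ a x : ℝ, 0 ≤ Weighted_P x a := fun a x => sq_nonneg _
  have key : ∀ k, ∑ y, w y * Weighted_R g k y ^ 2 ≤
      4 * ∑ y, Sup2 w y * (Weighted_P (g y) 0 - Weighted_P (g y) (Weighted_R g k y)) := by
    intro k
    induction k with
    | zero => simp [Weighted_R]
    | succ k ih =>
      have hstep := Weighted_step hw hg0 k
      have e1 : ∑ y, w y * Weighted_R g (k + 1) y ^ 2 =
          ∑ y, w y * Weighted_R g k y ^ 2 +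
            ∑ y, w y * (Weighted_R g (k + 1) y ^ 2 - Weighted_R g k y ^ 2) := by
        rw [← Finset.sum_add_distrib]
        exact Finset.sum_congr rfl fun y _ => by ring
      have e2 : ∑ y, Sup2 w y * (Weighted_P (g y) 0 - Weighted_P (g y) (Weighted_R g (k + 1) y)) =
          ∑ y, Sup2 w y * (Weighted_P (g y) 0 - Weighted_P (g y) (Weighted_R g k y)) +
            ∑ y, Sup2 w y * (Weighted_P (g y) (Weighted_R g k y) -
              Weighted_P (g y) (Weighted_R g (k + 1) y)) := by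
        rw [← Finset.sum_add_distrib]
        exact Finset.sum_congr rfl fun y _ => by ring
      rw [e1, e2]
      linarith
  have h1 : ∀ y, Sup2 h y ≤ Weighted_R g (L + 1) y := by
    intro y
    unfold Sup2
    apply Finset.sup'_le
    intro k hk
    have hk' : k < L + 1 := Finset.mem_range.1 hk
    exact (e_abs_le k h y).trans (Weighted_le_R g hk' y)
  have h2 : ∑ y, w y * Sup2 h y ^ 2 ≤ ∑ y, w y * Weighted_R g (L + 1) y ^ 2 :=
    Finset.sum_le_sum fun y _ => mul_le_mul_of_nonneg_left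
      (pow_le_pow_left₀ (Sup2_nonneg h y) (h1 y) 2) (hw y)
  have h3 : ∑ y, Sup2 w y * (Weighted_P (g y) 0 - Weighted_P (g y) (Weighted_R g (L + 1) y)) ≤
      ∑ y, Sup2 w y * h y ^ 2 := by
    refine Finset.sum_le_sum fun y _ => mul_le_mul_of_nonneg_left ?_ (hW0 y)
    have h4 := hP (Weighted_R g (L + 1) y) (g y)
    have h5 : Weighted_P (g y) 0 = h y ^ 2 := by
      unfold Weighted_P
      rw [zero_div, sub_zero, max_eq_left (hg0 y), hg]
      exact sq_abs _
    linarith
  have h6 : 0 ≤ ∑ y, Sup2 w y * h y ^ 2 :=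
    Finset.sum_nonneg fun y _ => mul_nonneg (hW0 y) (sq_nonneg _)
  have h7 := key (L + 1)
  linarith

end Pool.Agent.helper75.HX
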