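import Pool.Agent.helper75.HX.Two1
import Pool.Agent.helper75.HX.Doob
import Pool.Agent.helper75.HX.Weighted

/-!
# GMom : moments of `G1`, `G2`

`q = 1`: `doob'` (`Sup2` in `L²` with constant 4).  `q ≥ 2`: with `Γ = G1 f`,
`SS Γ^q = ∑_j SS Γ^{q-1} (M2 (D1 j f))² ≤ 8 ∑_j SS M2(Γ^{q-1}) (D1 j f)² = 8 SS M2(Γ^{q-1}) F1` (`fs` for each fixed `x`);
Hoelder with exponents `q/(q-1)` and `q`, `doob_pow` for each fixed `x`:
`≤ 8 q (SS Γ^q)^{(q-1)/q} (SS F1^q)^{1/q}`, so `SS Γ^q ≤ (8q)^q SS F1^q`.  The same with the variables exchanged.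
-/

set_option autoImplicit false

namespace Pool.Agent.helper75.HX

open Finset Pool.Agent.helper18.HC

variable {K L : ℕ}

theorem GMom_sup_sq (u : Dy L → ℝ) : ∑ y, (Sup2 u y) ^ 2 ≤ 4 * ∑ y, (u y) ^ 2 := doob' u

/-- the case `q = 1` -/
theorem GMom_one {X : Type*} [Fintype X] (n : ℕ) (g : ℕ → X → Dy L → ℝ) :
    ∑ x, ∑ y, (∑ j ∈ range n, (Sup2 (g j x) y) ^ 2) ≤
      4 * ∑ x, ∑ y, (∑ j ∈ range n, (g j x y) ^ 2) := by
  rw [mul_sum]
  refine sum_le_sum fun x _ => ?_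
  rw [sum_comm, sum_comm (s := univ) (t := range n), mul_sum]
  exact sum_le_sum fun j _ => GMom_sup_sq _

/-- the first step for `q ≥ 2` -/
theorem GMom_step {X : Type*} [Fintype X] (n : ℕ) (g : ℕ → X → Dy L → ℝ) (q : ℕ) :
    ∑ x, ∑ y, (∑ j ∈ range n, (Sup2 (g j x) y) ^ 2) ^ (q + 1) ≤
      8 * ∑ x, ∑ y, Sup2 (fun y => (∑ j ∈ range n, (Sup2 (g j x) y) ^ 2) ^ q) y *
        (∑ j ∈ range n, (g j x y) ^ 2) := by
  rw [mul_sum]
  refine sum_le_sum fun x _ => ?_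
  have h1 : ∑ y, (∑ j ∈ range n, (Sup2 (g j x) y) ^ 2) ^ (q + 1) =
      ∑ j ∈ range n, ∑ y, (∑ j ∈ range n, (Sup2 (g j x) y) ^ 2) ^ q * (Sup2 (g j x) y) ^ 2 := by
    rw [sum_comm]
    refine sum_congr rfl fun y _ => ?_
    rw [pow_succ, mul_sum]
  have h2 : 8 * ∑ y, Sup2 (fun y => (∑ j ∈ range n, (Sup2 (g j x) y) ^ 2) ^ q) y *
        (∑ j ∈ range n, (g j x y) ^ 2) =
      ∑ j ∈ range n, 8 * ∑ y, Sup2 (fun y => (∑ j ∈ range n, (Sup2 (g j x) y) ^ 2) ^ q) y *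
        (g j x y) ^ 2 := by
    rw [← mul_sum, sum_comm]
    congr 1
    exact sum_congr rfl fun y _ => mul_sum _ _ _
  rw [h1, h2]
  refine sum_le_sum fun j _ => ?_
  exact fs (w := fun y => (∑ j ∈ range n, (Sup2 (g j x) y) ^ 2) ^ q)
    (fun y => pow_nonneg (sum_nonneg fun j _ => sq_nonneg _) _) (g j x)

/-- the general moment inequality -/
theorem GMom_abs {X : Type*} [Fintype X] (n : ℕ) (g : ℕ → X → Dy L → ℝ) {q : ℕ} (hq : 1 ≤ q) :
    ∑ x, ∑ y, (∑ j ∈ range n, (Sup2 (g j x) y) ^ 2) ^ q ≤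
      (8 * (q : ℝ)) ^ q * ∑ x, ∑ y, (∑ j ∈ range n, (g j x y) ^ 2) ^ q := by
  rcases hq.eq_or_lt with rfl | hq2
  · have h1 := GMom_one n g
    have h2 : 0 ≤ ∑ x, ∑ y, (∑ j ∈ range n, (g j x y) ^ 2) :=
      sum_nonneg fun x _ => sum_nonneg fun y _ => sum_nonneg fun j _ => sq_nonneg _
    simp only [pow_one, Nat.cast_one, mul_one]
    linarith
  · obtain ⟨m, rfl⟩ : ∃ m, q = m + 1 := ⟨q - 1, by omega⟩
    have hm : 1 ≤ m := by omega
    have hm0 : (0 : ℝ) < m := by exact_mod_cast hm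
    set Γ : X → Dy L → ℝ := fun x y => ∑ j ∈ range n, (Sup2 (g j x) y) ^ 2 with hΓ
    set F : X → Dy L → ℝ := fun x y => ∑ j ∈ range n, (g j x y) ^ 2 with hF
    have hΓ0 : ∀ x y, 0 ≤ Γ x y := fun x y => sum_nonneg fun j _ => sq_nonneg _
    have hF0 : ∀ x y, 0 ≤ F x y := fun x y => sum_nonneg fun j _ => sq_nonneg _
    obtain ⟨Z, hZ⟩ : ∃ Z, Z = ∑ x, ∑ y, Γ x y ^ (m + 1) := ⟨_, rfl⟩
    obtain ⟨W, hW⟩ : ∃ W, W = ∑ x, ∑ y, F x y ^ (m + 1) := ⟨_, rfl⟩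
    have hZ0 : 0 ≤ Z := by
      rw [hZ]
      exact sum_nonneg fun x _ => sum_nonneg fun y _ => pow_nonneg (hΓ0 x y) _
    have hW0 : 0 ≤ W := by
      rw [hW]
      exact sum_nonneg fun x _ => sum_nonneg fun y _ => pow_nonneg (hF0 x y) _
    show ∑ x, ∑ y, Γ x y ^ (m + 1) ≤ (8 * ((m + 1 : ℕ) : ℝ)) ^ (m + 1) *
      ∑ x, ∑ y, F x y ^ (m + 1)
    rw [← hZ, ← hW]
    have hQ1 : (1 : ℝ) < ((m + 1 : ℕ) : ℝ) := by push_cast; linarith
    obtain ⟨Q, hQ⟩ : ∃ Q : ℝ, Q = ((m + 1 : ℕ) : ℝ) := ⟨_, rfl⟩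
    rw [← hQ] at hQ1 ⊢
    have hQm : Q - 1 = (m : ℝ) := by rw [hQ]; push_cast; ring
    have hQ0 : 0 < Q := by linarith
    obtain ⟨r, hr⟩ : ∃ r : ℝ, r = Q / (Q - 1) := ⟨_, rfl⟩
    have hr0 : 0 < r := by rw [hr]; exact div_pos hQ0 (by linarith)
    have hconj : r.HolderConjugate Q := by
      rw [hr]
      exact (Real.HolderConjugate.conjExponent hQ1).symm
    -- step 1
    have h1 : Z ≤ 8 * ∑ x, ∑ y, Sup2 (fun y => Γ x y ^ m) y * F x y := by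
      rw [hZ]
      exact GMom_step n g m
    -- Hoelder
    have h2 : ∑ x, ∑ y, Sup2 (fun y => Γ x y ^ m) y * F x y ≤
        (∑ x, ∑ y, (Sup2 (fun y => Γ x y ^ m) y) ^ r) ^ (1 / r) * W ^ (1 / Q) := by
      have h3 := Real.inner_le_Lp_mul_Lq_of_nonneg (Finset.univ : Finset (X × Dy L))
        (f := fun p => Sup2 (fun y => Γ p.1 y ^ m) p.2) (g := fun p => F p.1 p.2) hconj
        (fun p _ => Sup2_nonneg _ _) (fun p _ => hF0 _ _)
      rw [Fintype.sum_prod_type, Fintype.sum_prod_type, Fintype.sum_prod_type] at h3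
      have h4 : ∑ x, ∑ y, F x y ^ Q = W := by
        rw [hW, hQ]
        simp only [Real.rpow_natCast]
      simp only at h3
      rw [h4] at h3
      exact h3
    -- Doob
    have h3 : ∑ x, ∑ y, (Sup2 (fun y => Γ x y ^ m) y) ^ r ≤ Q ^ r * Z := by
      rw [hZ, mul_sum]
      refine sum_le_sum fun x _ => ?_
      have h4 := doob_pow (u := fun y => Γ x y ^ m) (fun y => pow_nonneg (hΓ0 x y) _)
        (q := m + 1) (by omega)
      rw [← hQ, ← hr] at h4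
      refine h4.trans (le_of_eq ?_)
      congr 1
      refine sum_congr rfl fun y _ => ?_
      have h5 : ((m : ℝ)) * r = Q := by
        rw [hr, hQm]
        field_simp
      rw [← Real.rpow_natCast (Γ x y) m, ← Real.rpow_mul (hΓ0 x y), h5, hQ, Real.rpow_natCast]
    have h4 : (∑ x, ∑ y, (Sup2 (fun y => Γ x y ^ m) y) ^ r) ^ (1 / r) ≤ Q * Z ^ (1 / r) := by
      have h5 : 0 ≤ ∑ x, ∑ y, (Sup2 (fun y => Γ x y ^ m) y) ^ r :=
        sum_nonneg fun x _ => sum_nonneg fun y _ => Real.rpow_nonneg (Sup2_nonneg _ _) _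
      have h6 := Real.rpow_le_rpow h5 h3 (one_div_nonneg.2 hr0.le)
      rw [Real.mul_rpow (Real.rpow_nonneg hQ0.le _) hZ0, ← Real.rpow_mul hQ0.le,
        mul_one_div_cancel hr0.ne', Real.rpow_one] at h6
      exact h6
    have h5 : Z ≤ Z ^ (1 / r) * (8 * Q * W ^ (1 / Q)) := by
      have hW1 : 0 ≤ W ^ (1 / Q) := Real.rpow_nonneg hW0 _
      calc Z ≤ 8 * ∑ x, ∑ y, Sup2 (fun y => Γ x y ^ m) y * F x y := h1
        _ ≤ 8 * ((Q * Z ^ (1 / r)) * W ^ (1 / Q)) := by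
          refine mul_le_mul_of_nonneg_left (h2.trans ?_) (by norm_num)
          exact mul_le_mul_of_nonneg_right h4 hW1
        _ = Z ^ (1 / r) * (8 * Q * W ^ (1 / Q)) := by ring
    rcases hZ0.eq_or_lt with hz | hz
    · rw [← hz]
      positivity
    · have h6 : Z = Z ^ (1 / r) * Z ^ (1 / Q) := by
        rw [← Real.rpow_add hz, one_div, one_div, hconj.inv_add_inv_eq_one, Real.rpow_one]
      have h7 : Z ^ (1 / Q) ≤ 8 * Q * W ^ (1 / Q) := by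
        have hz' : 0 < Z ^ (1 / r) := Real.rpow_pos_of_pos hz _
        refine le_of_mul_le_mul_left ?_ hz'
        rw [← h6]
        exact h5
      have h8 := pow_le_pow_left₀ (Real.rpow_nonneg hZ0 _) h7 (m + 1)
      rw [mul_pow, one_div, hQ, Real.rpow_inv_natCast_pow hZ0 (by omega),
        Real.rpow_inv_natCast_pow hW0 (by omega)] at h8
      rw [hQ]
      exact h8

theorem moment_G1 (f : Dy K → Dy L → ℝ) {q : ℕ} (hq : 1 ≤ q) :
    SS (fun x y => G1 f x y ^ q) ≤ (8 * (q : ℝ)) ^ q * SS (fun x y => F1 f x y ^ q) :=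
  GMom_abs (K + 1) (fun j x y => D1 j f x y) hq

theorem moment_G2 (f : Dy K → Dy L → ℝ) {q : ℕ} (hq : 1 ≤ q) :
    SS (fun x y => G2 f x y ^ q) ≤ (8 * (q : ℝ)) ^ q * SS (fun x y => F2 f x y ^ q) := by
  unfold SS
  rw [sum_comm, sum_comm (f := fun x y => F2 f x y ^ q)]
  exact GMom_abs (L + 1) (fun k y x => D2 k f x y) hq

/-- The strong maximal function (`M2` then `M1`) in `L^{q/(q-1)}` and in `L²`. -/
theorem Ms_pow {g : Dy K → Dy L → ℝ} (hg : ∀ x y, 0 ≤ g x y) {q : ℕ} (hq : 2 ≤ q) :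
    SS (fun x y => (Ms g x y) ^ ((q : ℝ) / (q - 1))) ≤
      ((q : ℝ) ^ 2) ^ ((q : ℝ) / (q - 1)) * SS (fun x y => (g x y) ^ ((q : ℝ) / (q - 1))) := by
  obtain ⟨r, hr⟩ : ∃ r : ℝ, r = (q : ℝ) / (q - 1) := ⟨_, rfl⟩
  have hq0 : (0 : ℝ) ≤ q := Nat.cast_nonneg q
  have h1 : SS (fun x y => (Ms g x y) ^ r) ≤ (q : ℝ) ^ r * SS (fun x y => (M2 g x y) ^ r) := by
    unfold SS
    rw [sum_comm, sum_comm (f := fun x y => (M2 g x y) ^ r), mul_sum]
    refine sum_le_sum fun y _ => ?_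
    rw [hr]
    exact doob_pow (u := fun x => M2 g x y) (fun x => Sup2_nonneg _ _) hq
  have h2 : SS (fun x y => (M2 g x y) ^ r) ≤ (q : ℝ) ^ r * SS (fun x y => (g x y) ^ r) := by
    unfold SS
    rw [mul_sum]
    refine sum_le_sum fun x _ => ?_
    rw [hr]
    exact doob_pow (u := g x) (hg x) hq
  rw [← hr]
  calc SS (fun x y => (Ms g x y) ^ r) ≤ (q : ℝ) ^ r * SS (fun x y => (M2 g x y) ^ r) := h1
    _ ≤ (q : ℝ) ^ r * ((q : ℝ) ^ r * SS (fun x y => (g x y) ^ r)) :=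
      mul_le_mul_of_nonneg_left h2 (Real.rpow_nonneg hq0 _)
    _ = ((q : ℝ) ^ 2) ^ r * SS (fun x y => (g x y) ^ r) := by
      rw [sq, Real.mul_rpow hq0 hq0]
      ring

theorem Ms_sq (g : Dy K → Dy L → ℝ) :
    SS (fun x y => (Ms g x y) ^ 2) ≤ 16 * SS (fun x y => (g x y) ^ 2) := by
  have h1 : SS (fun x y => (Ms g x y) ^ 2) ≤ 4 * SS (fun x y => (M2 g x y) ^ 2) := by
    unfold SS
    rw [sum_comm, sum_comm (f := fun x y => (M2 g x y) ^ 2), mul_sum]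
    exact sum_le_sum fun y _ => GMom_sup_sq (fun x => M2 g x y)
  have h2 : SS (fun x y => (M2 g x y) ^ 2) ≤ 4 * SS (fun x y => (g x y) ^ 2) := by
    unfold SS
    rw [mul_sum]
    exact sum_le_sum fun x _ => GMom_sup_sq (g x)
  linarith

/-- `E1 j (E2 k g) ≤ Ms g` for `g ≥ 0`. -/
theorem le_Ms {g : Dy K → Dy L → ℝ} (hg : ∀ x y, 0 ≤ g x y) (j k : ℕ) (x : Dy K) (y : Dy L) :
    E1 j (E2 k g) x y ≤ Ms g x y := by
  rw [E1_eq]
  have h1 : e j (fun x' => E2 k g x' y) x ≤ e j (fun x' => M2 g x' y) x := by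
    refine e_mono j (fun x' => ?_) x
    rw [E2_eq]
    exact (le_abs_self _).trans (le_Sup2 k (g x') y)
  exact h1.trans ((le_abs_self _).trans (le_Sup2 j (fun x' => M2 g x' y) x))

end Pool.Agent.helper75.HX
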