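import Mathlib

/-!
# Point : pointwise inequalities between powers and exponentials

`pow_le_exp`: `t ≥ 0`: `t^n ≤ n! e^t` (`Real.pow_div_factorial_le_exp`).
`point_lin`: if `|R| ≤ V` clear; otherwise `cosh R exp(-V/2) ≥ ½ e^{|R|} e^{-|R|/2} = ½ e^{|R|/2} ≥ ½ (|R|/2)^p/p!`.
`point_sq`: if `F ≤ ε²` clear; otherwise `ε < √F` and `cosh(√F) exp(-ε/2) ≥ ½ e^{√F/2} ≥ ½ (√F/2)^{2q}/(2q)!`.
`point_pair`: `κ ≥ 1`, `κ ≥ 4p`, `ε ≤ 1/(16κ⁴)`.  If `|X| ≤ 1` clear.  Let `u = √|X| ≥ 1`.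
Case `V ≤ |X|/(4κ²)`: `cosh(4κ²X) exp(-8κ⁴V) ≥ ½ exp(4κ²|X| - 2κ²|X|) ≥ ½ e^{2κu}`.
Case `V > |X|/(4κ²)`: `√V > u/(2κ)`, `cosh(4κ²√V) exp(-8κ⁴ε) ≥ ½ exp(2κu - 1/2)`.
So the bracket is `≥ ½ e^{-1/2} e^{2κu}`, and `|X|^{2p} = u^{4p} ≤ e^{4p(u-1)} ≤ e^{κ(u-1)} ≤ e^{2κu} e^{-2κ}`;
`2 e^{1/2} ≤ 4`.
-/

set_option autoImplicit false

namespace Pool.Agent.helper75.HX

private theorem Point_half_exp_le_cosh (x : ℝ) : 1 / 2 * Real.exp |x| ≤ Real.cosh x := by
  rw [← Real.cosh_abs, Real.cosh_eq]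
  have h1 := Real.exp_pos (-|x|)
  linarith

theorem point_lin (p : ℕ) (R V : ℝ) (hV : 0 ≤ V) :
    |R| ^ p ≤ V ^ p + 2 * p.factorial * 2 ^ p * (Real.cosh R * Real.exp (-(1 / 2 * V))) := by
  have hR := abs_nonneg R
  have hc : 0 < Real.cosh R := Real.cosh_pos R
  have hf : (0 : ℝ) < p.factorial := by exact_mod_cast p.factorial_pos
  rcases le_or_gt |R| V with h | h
  · have h1 : |R| ^ p ≤ V ^ p := pow_le_pow_left₀ hR h p
    have h2 : 0 ≤ 2 * (p.factorial : ℝ) * 2 ^ p * (Real.cosh R * Real.exp (-(1 / 2 * V))) := by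
      positivity
    linarith
  · have h1 : 1 / 2 * Real.exp |R| ≤ Real.cosh R := Point_half_exp_le_cosh R
    have h2 : Real.exp (-(1 / 2 * |R|)) ≤ Real.exp (-(1 / 2 * V)) :=
      Real.exp_le_exp.2 (by linarith)
    have h3 : 1 / 2 * Real.exp (|R| / 2) ≤ Real.cosh R * Real.exp (-(1 / 2 * V)) := by
      calc 1 / 2 * Real.exp (|R| / 2) = (1 / 2 * Real.exp |R|) * Real.exp (-(1 / 2 * |R|)) := by
            rw [mul_assoc, ← Real.exp_add]
            congr 2
            ring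
        _ ≤ Real.cosh R * Real.exp (-(1 / 2 * V)) :=
            mul_le_mul h1 h2 (Real.exp_pos _).le hc.le
    have h4 : (|R| / 2) ^ p / p.factorial ≤ Real.exp (|R| / 2) :=
      Real.pow_div_factorial_le_exp _ (by positivity) p
    have h5 : |R| ^ p = 2 * (p.factorial : ℝ) * 2 ^ p *
        (1 / 2 * ((|R| / 2) ^ p / p.factorial)) := by
      rw [div_pow]
      field_simp
    have h6 : 2 * (p.factorial : ℝ) * 2 ^ p * (1 / 2 * ((|R| / 2) ^ p / p.factorial)) ≤
        2 * (p.factorial : ℝ) * 2 ^ p * (Real.cosh R * Real.exp (-(1 / 2 * V))) := by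
      refine mul_le_mul_of_nonneg_left ?_ (by positivity)
      linarith
    have h7 : 0 ≤ V ^ p := pow_nonneg hV p
    linarith

theorem point_sq (q : ℕ) (F ε : ℝ) (hF : 0 ≤ F) (hε : 0 ≤ ε) :
    F ^ q ≤ ε ^ (2 * q) + 2 * (2 * q).factorial * 4 ^ q *
      (Real.cosh (1 * Real.sqrt F) * Real.exp (-(1 ^ 2 / 2 * ε))) := by
  have h := point_lin (2 * q) (Real.sqrt F) ε hε
  rw [abs_of_nonneg (Real.sqrt_nonneg F), pow_mul (Real.sqrt F) 2 q, Real.sq_sqrt hF,
    pow_mul (2 : ℝ) 2 q] at h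
  rw [one_mul, one_pow]
  norm_num at h ⊢
  exact h

theorem point_pair (p : ℕ) (κ X V ε : ℝ) (hκ1 : 1 ≤ κ) (hκ : 4 * p ≤ κ) (hV : 0 ≤ V)
    (hε : ε ≤ 1 / (16 * κ ^ 4)) :
    |X| ^ (2 * p) ≤ 1 + 4 * Real.exp (-(2 * κ)) *
      (Real.cosh (4 * κ ^ 2 * X) * Real.exp (-((4 * κ ^ 2) ^ 2 / 2 * V)) +
       Real.cosh (4 * κ ^ 2 * Real.sqrt V) * Real.exp (-((4 * κ ^ 2) ^ 2 / 2 * ε))) := by
  have hκ0 : 0 < κ := by linarith
  have hX := abs_nonneg X
  have c1 : 0 < Real.cosh (4 * κ ^ 2 * X) := Real.cosh_pos _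
  have c2 : 0 < Real.cosh (4 * κ ^ 2 * Real.sqrt V) := Real.cosh_pos _
  rcases le_or_gt |X| 1 with h | h
  · have h1 : |X| ^ (2 * p) ≤ 1 := pow_le_one₀ hX h
    have h2 : 0 ≤ 4 * Real.exp (-(2 * κ)) *
      (Real.cosh (4 * κ ^ 2 * X) * Real.exp (-((4 * κ ^ 2) ^ 2 / 2 * V)) +
       Real.cosh (4 * κ ^ 2 * Real.sqrt V) * Real.exp (-((4 * κ ^ 2) ^ 2 / 2 * ε))) := by
      positivity
    linarith
  · obtain ⟨u, hu⟩ : ∃ u, u = Real.sqrt |X| := ⟨_, rfl⟩
    have hu1 : 1 < u := by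
      rw [hu, Real.lt_sqrt (by norm_num)]
      simpa using h
    have hu2 : u ^ 2 = |X| := by rw [hu, Real.sq_sqrt hX]
    have hku : 1 ≤ κ * u := by nlinarith
    -- lower bound for the bracket
    have hB : 1 / 2 * Real.exp (-(1 / 2)) * Real.exp (2 * κ * u) ≤
        Real.cosh (4 * κ ^ 2 * X) * Real.exp (-((4 * κ ^ 2) ^ 2 / 2 * V)) +
       Real.cosh (4 * κ ^ 2 * Real.sqrt V) * Real.exp (-((4 * κ ^ 2) ^ 2 / 2 * ε)) := by
      rcases le_or_gt V (|X| / (4 * κ ^ 2)) with hc | hc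
      · have h1 := Point_half_exp_le_cosh (4 * κ ^ 2 * X)
        have h2 : |4 * κ ^ 2 * X| = 4 * κ ^ 2 * |X| := by
          rw [abs_mul, abs_of_nonneg (by positivity)]
        rw [h2] at h1
        have h3 : 4 * κ ^ 2 * V ≤ |X| := by
          rw [le_div_iff₀ (by positivity)] at hc
          linarith
        have h4 : Real.exp (-(2 * κ ^ 2 * |X|)) ≤ Real.exp (-((4 * κ ^ 2) ^ 2 / 2 * V)) := by
          refine Real.exp_le_exp.2 (neg_le_neg ?_)
          have : 2 * κ ^ 2 * (4 * κ ^ 2 * V) ≤ 2 * κ ^ 2 * |X| :=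
            mul_le_mul_of_nonneg_left h3 (by positivity)
          linarith
        have h5 : 1 / 2 * Real.exp (2 * κ ^ 2 * |X|) ≤
            Real.cosh (4 * κ ^ 2 * X) * Real.exp (-((4 * κ ^ 2) ^ 2 / 2 * V)) := by
          calc 1 / 2 * Real.exp (2 * κ ^ 2 * |X|)
              = (1 / 2 * Real.exp (4 * κ ^ 2 * |X|)) * Real.exp (-(2 * κ ^ 2 * |X|)) := by
                have e0 : Real.exp (2 * κ ^ 2 * |X|) =
                    Real.exp (4 * κ ^ 2 * |X|) * Real.exp (-(2 * κ ^ 2 * |X|)) := by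
                  rw [← Real.exp_add]
                  congr 1
                  ring
                rw [e0]
                ring
            _ ≤ _ := mul_le_mul h1 h4 (Real.exp_pos _).le c1.le
        have h6 : Real.exp (2 * κ * u) ≤ Real.exp (2 * κ ^ 2 * |X|) := by
          refine Real.exp_le_exp.2 ?_
          rw [← hu2]
          have : κ * u ≤ (κ * u) * (κ * u) := le_mul_of_one_le_right (by positivity) hku
          nlinarith
        have h7 : Real.exp (-(1 / 2) : ℝ) ≤ 1 := Real.exp_le_one_iff.2 (by norm_num)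
        have h8 : 1 / 2 * Real.exp (-(1 / 2)) * Real.exp (2 * κ * u) ≤
            1 / 2 * Real.exp (2 * κ * u) := by
          have := Real.exp_pos (2 * κ * u)
          nlinarith
        have h9 : 0 ≤ Real.cosh (4 * κ ^ 2 * Real.sqrt V) *
            Real.exp (-((4 * κ ^ 2) ^ 2 / 2 * ε)) := by positivity
        linarith
      · have h1 := Point_half_exp_le_cosh (4 * κ ^ 2 * Real.sqrt V)
        have h2 : |4 * κ ^ 2 * Real.sqrt V| = 4 * κ ^ 2 * Real.sqrt V :=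
          abs_of_nonneg (by positivity)
        rw [h2] at h1
        have h3 : u / (2 * κ) ≤ Real.sqrt V := by
          refine Real.le_sqrt_of_sq_le ?_
          rw [div_pow, hu2]
          have e1 : (2 * κ) ^ 2 = 4 * κ ^ 2 := by ring
          rw [e1]
          exact hc.le
        have h4 : 2 * κ * u ≤ 4 * κ ^ 2 * Real.sqrt V := by
          rw [div_le_iff₀ (by positivity)] at h3
          have := mul_le_mul_of_nonneg_left h3 (show (0 : ℝ) ≤ 2 * κ by positivity)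
          linarith
        have h5 : Real.exp (-(1 / 2)) ≤ Real.exp (-((4 * κ ^ 2) ^ 2 / 2 * ε)) := by
          refine Real.exp_le_exp.2 (neg_le_neg ?_)
          rw [le_div_iff₀ (by positivity)] at hε
          nlinarith
        have h6 : 1 / 2 * Real.exp (2 * κ * u) ≤ Real.cosh (4 * κ ^ 2 * Real.sqrt V) := by
          have := Real.exp_le_exp.2 h4
          linarith
        have h7 : 1 / 2 * Real.exp (2 * κ * u) * Real.exp (-(1 / 2)) ≤
            Real.cosh (4 * κ ^ 2 * Real.sqrt V) * Real.exp (-((4 * κ ^ 2) ^ 2 / 2 * ε)) :=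
          mul_le_mul h6 h5 (Real.exp_pos _).le c2.le
        have h8 : 0 ≤ Real.cosh (4 * κ ^ 2 * X) * Real.exp (-((4 * κ ^ 2) ^ 2 / 2 * V)) := by
          positivity
        linarith
    -- upper bound for the power
    have hP : |X| ^ (2 * p) ≤ Real.exp (2 * κ * u) * Real.exp (-(2 * κ)) := by
      have e1 : |X| ^ (2 * p) = u ^ (4 * p) := by
        rw [← hu2, ← pow_mul]
        congr 1
        ring
      have e2 : u ≤ Real.exp (u - 1) := by
        have := Real.add_one_le_exp (u - 1)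
        linarith
      have e3 : u ^ (4 * p) ≤ Real.exp (u - 1) ^ (4 * p) :=
        pow_le_pow_left₀ (by linarith) e2 _
      rw [e1]
      refine e3.trans ?_
      rw [← Real.exp_nat_mul, ← Real.exp_add]
      refine Real.exp_le_exp.2 ?_
      push_cast
      have e4 : 4 * (p : ℝ) * (u - 1) ≤ κ * (u - 1) :=
        mul_le_mul_of_nonneg_right hκ (by linarith)
      have e5 : 0 ≤ κ * (u - 1) := mul_nonneg hκ0.le (by linarith)
      linarith
    have hE : 1 / 2 ≤ Real.exp (-(1 / 2) : ℝ) := by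
      have := Real.add_one_le_exp (-(1 / 2) : ℝ)
      linarith
    have hF : Real.exp (2 * κ * u) * Real.exp (-(2 * κ)) ≤
        4 * Real.exp (-(2 * κ)) * (1 / 2 * Real.exp (-(1 / 2)) * Real.exp (2 * κ * u)) := by
      have e1 : 0 < Real.exp (2 * κ * u) * Real.exp (-(2 * κ)) := by positivity
      have e2 : 4 * Real.exp (-(2 * κ)) * (1 / 2 * Real.exp (-(1 / 2)) * Real.exp (2 * κ * u)) =
          (2 * Real.exp (-(1 / 2))) * (Real.exp (2 * κ * u) * Real.exp (-(2 * κ))) := by ring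
      rw [e2]
      exact le_mul_of_one_le_left e1.le (by linarith)
    have hG := mul_le_mul_of_nonneg_left hB
      (show (0 : ℝ) ≤ 4 * Real.exp (-(2 * κ)) by positivity)
    linarith

end Pool.Agent.helper75.HX
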