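import Pool.Agent.helper75.HX.Two2
import Pool.Agent.helper75.HX.Point

/-!
# Moments : moments of `F1`, `F2` and `f` for an atom

`F1 f = Vr all f` (`D1_eq_sum`).  On `S`: `point_sq` with `ε = En all f`: `F1^q ≤ En^{2q} + 2(2q)!4^q (..)`; sum over `S`
(outside `S` both `F1` and `En` vanish), `exp_V` with `lam = 1`: `SS F1^q ≤ SS En^{2q} + 2(2q)!4^q |S|
≤ (32 q²)^{2q}|S| + 2 (4q)^{2q}|S| ≤ (2048 q⁴)^q |S|` (`(2q)! ≤ (2q)^{2q}`).  `F2`: `exp_F2`.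
`f`: `point_lin` with `R = f`, `V = F1 f` (`exp_X` with `ρ = all`, `Rs all f = f`, `Vr all f = F1 f`):
`SS f^{2p} ≤ SS F1^{2p} + 2 (2p)! 4^p |S| ≤ 3 (32768 p⁴)^{2p} |S|`.
-/

set_option autoImplicit false

namespace Pool.Agent.helper75.HX

open Finset Pool.Agent.helper18.HC

variable {K L : ℕ}

/-- The sum over the grid of a nonnegative function dominates the sum over `S`. -/
theorem Moments_sum_le_SS {F : Dy K → Dy L → ℝ} (hF : ∀ x y, 0 ≤ F x y)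
    (S : Finset (Dy K × Dy L)) : ∑ z ∈ S, F z.1 z.2 ≤ SS F := by
  have h : SS F = ∑ z : Dy K × Dy L, F z.1 z.2 := by
    unfold SS
    rw [Fintype.sum_prod_type]
  rw [h]
  exact Finset.sum_le_univ_sum_of_nonneg fun z => hF z.1 z.2

/-- The sum over the grid of a function vanishing outside `S`. -/
theorem Moments_SS_eq {F : Dy K → Dy L → ℝ} {S : Finset (Dy K × Dy L)}
    (hF : ∀ x y, (x, y) ∉ S → F x y = 0) : SS F = ∑ z ∈ S, F z.1 z.2 := by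
  have h : SS F = ∑ z : Dy K × Dy L, F z.1 z.2 := by
    unfold SS
    rw [Fintype.sum_prod_type]
  rw [h]
  exact (Finset.sum_subset (Finset.subset_univ S) fun z _ hz => hF z.1 z.2 hz).symm

theorem Moments_Vr_all (f : Dy K → Dy L → ℝ) (x : Dy K) (y : Dy L) :
    Vr all f x y = F1 f x y := by
  unfold Vr F1
  refine Finset.sum_congr rfl fun j _ => ?_
  rw [D1_eq_sum]
  simp [all]

theorem Moments_Rs_all (f : Dy K → Dy L → ℝ) (x : Dy K) (y : Dy L) :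
    Rs all f x y = f x y := by
  unfold Rs
  rw [← sum_DD_all f x y]
  simp [all]

theorem Moments_F1_nonneg (f : Dy K → Dy L → ℝ) (x : Dy K) (y : Dy L) : 0 ≤ F1 f x y := by
  unfold F1
  exact Finset.sum_nonneg fun j _ => sq_nonneg _

theorem Moments_F2_nonneg (f : Dy K → Dy L → ℝ) (x : Dy K) (y : Dy L) : 0 ≤ F2 f x y := by
  unfold F2
  exact Finset.sum_nonneg fun j _ => sq_nonneg _

theorem Moments_En_nonneg (ρ : ℕ → ℕ → Bool) (f : Dy K → Dy L → ℝ) (x : Dy K) (y : Dy L) :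
    0 ≤ En ρ f x y := by
  unfold En
  refine Finset.sum_nonneg fun j _ => Finset.sum_nonneg fun k _ => ?_
  split_ifs
  · exact sq_nonneg _
  · exact le_refl _

theorem Moments_F1_zero {f : Dy K → Dy L → ℝ} {S : Finset (Dy K × Dy L)} (hS : SuppIn f S)
    {x : Dy K} {y : Dy L} (hz : (x, y) ∉ S) : F1 f x y = 0 := by
  unfold F1
  refine Finset.sum_eq_zero fun j _ => ?_
  rw [D1_eq_sum, Finset.sum_eq_zero fun k _ => hS x y hz j k]
  norm_num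

theorem Moments_F2_zero {f : Dy K → Dy L → ℝ} {S : Finset (Dy K × Dy L)} (hS : SuppIn f S)
    {x : Dy K} {y : Dy L} (hz : (x, y) ∉ S) : F2 f x y = 0 := by
  unfold F2
  refine Finset.sum_eq_zero fun k _ => ?_
  rw [D2_eq_sum, Finset.sum_eq_zero fun j _ => hS x y hz j k]
  norm_num

theorem Moments_f_zero {f : Dy K → Dy L → ℝ} {S : Finset (Dy K × Dy L)} (hS : SuppIn f S)
    {x : Dy K} {y : Dy L} (hz : (x, y) ∉ S) : f x y = 0 := by
  rw [← sum_DD_all f x y]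
  exact Finset.sum_eq_zero fun j _ => Finset.sum_eq_zero fun k _ => hS x y hz j k

/-- `(1024 q⁴)^q + 2 (2q)! 4^q ≤ (2048 q⁴)^q`. -/
theorem Moments_num {q : ℕ} (hq : 1 ≤ q) :
    (8 * ((2 * q : ℕ) : ℝ) ^ 2) ^ (2 * q) + 2 * (2 * q).factorial * 4 ^ q ≤
      (2048 * (q : ℝ) ^ 4) ^ q := by
  have hq1 : (1 : ℝ) ≤ q := by exact_mod_cast hq
  have h1 : (8 * ((2 * q : ℕ) : ℝ) ^ 2) ^ (2 * q) = (1024 * (q : ℝ) ^ 4) ^ q := by
    rw [pow_mul]
    congr 1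
    push_cast
    ring
  have h2 : ((2 * q).factorial : ℝ) ≤ (4 * (q : ℝ) ^ 2) ^ q := by
    have e1 : ((2 * q).factorial : ℝ) ≤ ((2 * q : ℕ) : ℝ) ^ (2 * q) := by
      exact_mod_cast Nat.factorial_le_pow (2 * q)
    refine e1.trans (le_of_eq ?_)
    rw [pow_mul]
    congr 1
    push_cast
    ring
  have h3 : 2 * ((2 * q).factorial : ℝ) * 4 ^ q ≤ 2 * (16 * (q : ℝ) ^ 2) ^ q := by
    have e1 : (16 * (q : ℝ) ^ 2) ^ q = (4 * (q : ℝ) ^ 2) ^ q * 4 ^ q := by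
      rw [← mul_pow]
      congr 1
      ring
    rw [e1, mul_assoc]
    have : ((2 * q).factorial : ℝ) * 4 ^ q ≤ (4 * (q : ℝ) ^ 2) ^ q * 4 ^ q :=
      mul_le_mul_of_nonneg_right h2 (by positivity)
    linarith
  have h4 : (2 : ℝ) ≤ 2 ^ q := by
    calc (2 : ℝ) = 2 ^ 1 := (pow_one 2).symm
      _ ≤ 2 ^ q := pow_le_pow_right₀ (by norm_num) hq
  have h5 : 2 * (16 * (q : ℝ) ^ 2) ^ q ≤ (1024 * (q : ℝ) ^ 4) ^ q := by
    calc 2 * (16 * (q : ℝ) ^ 2) ^ q ≤ 2 ^ q * (16 * (q : ℝ) ^ 2) ^ q :=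
          mul_le_mul_of_nonneg_right h4 (by positivity)
      _ = (32 * (q : ℝ) ^ 2) ^ q := by
          rw [← mul_pow]
          congr 1
          ring
      _ ≤ (1024 * (q : ℝ) ^ 4) ^ q := by
          refine pow_le_pow_left₀ (by positivity) ?_ q
          have : (1 : ℝ) ≤ (q : ℝ) ^ 2 := one_le_pow₀ hq1
          nlinarith
  have h6 : 2 * (1024 * (q : ℝ) ^ 4) ^ q ≤ (2048 * (q : ℝ) ^ 4) ^ q := by
    calc 2 * (1024 * (q : ℝ) ^ 4) ^ q ≤ 2 ^ q * (1024 * (q : ℝ) ^ 4) ^ q :=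
          mul_le_mul_of_nonneg_right h4 (by positivity)
      _ = (2048 * (q : ℝ) ^ 4) ^ q := by
          rw [← mul_pow]
          congr 1
          ring
  linarith

/-- The common part of `moment_F1` and `moment_F2`. -/
theorem Moments_key {F ε : Dy K → Dy L → ℝ} {S : Finset (Dy K × Dy L)} {q : ℕ} (hq : 1 ≤ q)
    (hF : ∀ x y, 0 ≤ F x y) (hε : ∀ x y, 0 ≤ ε x y) (h0 : ∀ x y, (x, y) ∉ S → F x y = 0)
    (hexp : ∑ z ∈ S, Real.cosh (1 * Real.sqrt (F z.1 z.2)) *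
      Real.exp (-(1 ^ 2 / 2 * ε z.1 z.2)) ≤ S.card)
    (hm : SS (fun x y => ε x y ^ (2 * q)) ≤ (8 * ((2 * q : ℕ) : ℝ) ^ 2) ^ (2 * q) * S.card) :
    SS (fun x y => F x y ^ q) ≤ (2048 * (q : ℝ) ^ 4) ^ q * S.card := by
  have h1 : SS (fun x y => F x y ^ q) = ∑ z ∈ S, F z.1 z.2 ^ q := by
    refine Moments_SS_eq fun x y hz => ?_
    rw [h0 x y hz, zero_pow (by omega)]
  have h2 : ∑ z ∈ S, F z.1 z.2 ^ q ≤ ∑ z ∈ S, (ε z.1 z.2 ^ (2 * q) +
      2 * (2 * q).factorial * 4 ^ q * (Real.cosh (1 * Real.sqrt (F z.1 z.2)) *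
        Real.exp (-(1 ^ 2 / 2 * ε z.1 z.2)))) :=
    Finset.sum_le_sum fun z _ => point_sq q _ _ (hF _ _) (hε _ _)
  have h3 : ∑ z ∈ S, ε z.1 z.2 ^ (2 * q) ≤ SS (fun x y => ε x y ^ (2 * q)) :=
    Moments_sum_le_SS (F := fun x y => ε x y ^ (2 * q)) (fun x y => pow_nonneg (hε x y) _) S
  rw [Finset.sum_add_distrib, ← Finset.mul_sum] at h2
  have h4 : 2 * ((2 * q).factorial : ℝ) * 4 ^ q * ∑ z ∈ S, (Real.cosh (1 * Real.sqrt (F z.1 z.2)) *
        Real.exp (-(1 ^ 2 / 2 * ε z.1 z.2))) ≤ 2 * ((2 * q).factorial : ℝ) * 4 ^ q * S.card :=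
    mul_le_mul_of_nonneg_left hexp (by positivity)
  have h5 := mul_le_mul_of_nonneg_right (Moments_num hq) (Nat.cast_nonneg (α := ℝ) S.card)
  rw [h1]
  linarith

theorem moment_F1 {f : Dy K → Dy L → ℝ} {S : Finset (Dy K × Dy L)} (hf : Atom f S) {q : ℕ}
    (hq : 1 ≤ q) : SS (fun x y => F1 f x y ^ q) ≤ (2048 * (q : ℝ) ^ 4) ^ q * S.card := by
  refine Moments_key (ε := En all f) hq (Moments_F1_nonneg f) (Moments_En_nonneg all f)
    (fun x y hz => Moments_F1_zero hf.1 hz) ?_ (hf.2 (2 * q) (by omega))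
  have h := exp_V all hf.1 1
  simpa only [Moments_Vr_all] using h

theorem moment_F2 {f : Dy K → Dy L → ℝ} {S : Finset (Dy K × Dy L)} (hf : Atom f S) {q : ℕ}
    (hq : 1 ≤ q) : SS (fun x y => F2 f x y ^ q) ≤ (2048 * (q : ℝ) ^ 4) ^ q * S.card :=
  Moments_key (ε := En all f) hq (Moments_F2_nonneg f) (Moments_En_nonneg all f)
    (fun _ _ hz => Moments_F2_zero hf.1 hz) (exp_F2 hf.1 1) (hf.2 (2 * q) (by omega))

/-- `2 (2p)! 4^p ≤ 2 (32768 p⁴)^{2p}`. -/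
theorem Moments_num2 {p : ℕ} (hp : 1 ≤ p) :
    2 * ((2 * p).factorial : ℝ) * 2 ^ (2 * p) ≤ 2 * (32768 * (p : ℝ) ^ 4) ^ (2 * p) := by
  have hp1 : (1 : ℝ) ≤ p := by exact_mod_cast hp
  have h1 : ((2 * p).factorial : ℝ) ≤ ((2 * p : ℕ) : ℝ) ^ (2 * p) := by
    exact_mod_cast Nat.factorial_le_pow (2 * p)
  have h2 : ((2 * p).factorial : ℝ) * 2 ^ (2 * p) ≤ (32768 * (p : ℝ) ^ 4) ^ (2 * p) := by
    calc ((2 * p).factorial : ℝ) * 2 ^ (2 * p) ≤ ((2 * p : ℕ) : ℝ) ^ (2 * p) * 2 ^ (2 * p) :=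
          mul_le_mul_of_nonneg_right h1 (by positivity)
      _ = (4 * (p : ℝ)) ^ (2 * p) := by
          rw [← mul_pow]
          congr 1
          push_cast
          ring
      _ ≤ (32768 * (p : ℝ) ^ 4) ^ (2 * p) := by
          refine pow_le_pow_left₀ (by positivity) ?_ _
          have e1 : (p : ℝ) ≤ (p : ℝ) ^ 4 := le_self_pow₀ hp1 (by norm_num)
          linarith
  linarith

theorem moment_f {f : Dy K → Dy L → ℝ} {S : Finset (Dy K × Dy L)} (hf : Atom f S) {p : ℕ}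
    (hp : 1 ≤ p) : SS (fun x y => f x y ^ (2 * p)) ≤ 3 * (32768 * (p : ℝ) ^ 4) ^ (2 * p) * S.card := by
  have h1 : SS (fun x y => f x y ^ (2 * p)) = ∑ z ∈ S, f z.1 z.2 ^ (2 * p) := by
    refine Moments_SS_eq fun x y hz => ?_
    rw [Moments_f_zero hf.1 hz, zero_pow (by omega)]
  have h2 : ∑ z ∈ S, f z.1 z.2 ^ (2 * p) ≤ ∑ z ∈ S, (F1 f z.1 z.2 ^ (2 * p) +
      2 * (2 * p).factorial * 2 ^ (2 * p) * (Real.cosh (f z.1 z.2) *
        Real.exp (-(1 / 2 * F1 f z.1 z.2)))) := by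
    refine Finset.sum_le_sum fun z _ => ?_
    have h := point_lin (2 * p) (f z.1 z.2) (F1 f z.1 z.2) (Moments_F1_nonneg f _ _)
    have e : |f z.1 z.2| ^ (2 * p) = f z.1 z.2 ^ (2 * p) :=
      Even.pow_abs (even_two_mul p) _
    rw [e] at h
    exact h
  have h3 : ∑ z ∈ S, F1 f z.1 z.2 ^ (2 * p) ≤ SS (fun x y => F1 f x y ^ (2 * p)) :=
    Moments_sum_le_SS (F := fun x y => F1 f x y ^ (2 * p))
      (fun x y => pow_nonneg (Moments_F1_nonneg f x y) _) S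
  have h4 := moment_F1 hf (q := 2 * p) (by omega)
  have h5 : (2048 * ((2 * p : ℕ) : ℝ) ^ 4) ^ (2 * p) = (32768 * (p : ℝ) ^ 4) ^ (2 * p) := by
    congr 1
    push_cast
    ring
  rw [h5] at h4
  have h6 := exp_X all hf.1 1
  simp only [Moments_Vr_all, Moments_Rs_all, one_mul, one_pow] at h6
  rw [Finset.sum_add_distrib, ← Finset.mul_sum] at h2
  have h7 := mul_le_mul_of_nonneg_left h6
    (show (0 : ℝ) ≤ 2 * ((2 * p).factorial : ℝ) * 2 ^ (2 * p) by positivity)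
  have h8 := mul_le_mul_of_nonneg_right (Moments_num2 hp) (Nat.cast_nonneg (α := ℝ) S.card)
  rw [h1]
  linarith

end Pool.Agent.helper75.HX
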