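import Pool.Agent.helper75.HX.Split
import Pool.Agent.helper75.HX.Moments
import Pool.Agent.helper75.HX.GMom

/-!
# Sampled : hyperbolic sums at energy sampled levels

`w = (DD j k f)²` is measurable at level `j` in `x` and `k` in `y` (`meas_DD_sq_x`, `Meas.mono`).
`Hs_split` with `m = ν j k`: `|Hs|^p ≤ 3^p (|E1 E2 f|^p + |Q|^p + |R|^p)`.
* `SS w |E1 j (E2 k f)|^p ≤ SS w E1 j (E2 k |f|^p) = SS w |f|^p` (`e_abs_pow_le` twice, `sum_mul_e` twice).  Sum over `j, k`: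
  `≤ SS En |f|^p ≤ (SS En²)^{1/2} (SS f^{2p})^{1/2} ≤ 32 |S|^{1/2} 2 (32768 p⁴)^p |S|^{1/2}`.
* `R`: `point_lin` with `V = ∑ (D1 j' (uR ..))² ≤ G1`, `exp_R1` (`s = j+1`, weight `w`):
  `SS w |R|^p ≤ SS w G1^p + 2 p! 2^p SS w`.  Sum: `≤ (SS En²)^{1/2} (SS G1^{2p})^{1/2} + 2 p! 2^p SS En
  ≤ 32 (524288 p⁵)^p |S| + 16 (2p)^p |S|` (`moment_G1` with `q = 2p`, `moment_F1` with `q = 2p`).
* `Q` the same with `exp_R2`, `G2`.
Total `≤ 3^p · 160 (524288 p⁵)^p |S| ≤ (3·10⁸ p⁵)^p |S|`.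
-/

set_option autoImplicit false

namespace Pool.Agent.helper75.HX

open Finset Pool.Agent.helper18.HC

variable {K L : ℕ}

private theorem Sampled_abs3 (a b c : ℝ) (p : ℕ) :
    |a + b + c| ^ p ≤ 3 ^ p * (|a| ^ p + |b| ^ p + |c| ^ p) := by
  have ha := abs_nonneg a
  have hb := abs_nonneg b
  have hc := abs_nonneg c
  have hpa := pow_nonneg ha p
  have hpb := pow_nonneg hb p
  have hpc := pow_nonneg hc p
  have key : ∀ M : ℝ, 0 ≤ M → |a| ≤ M → |b| ≤ M → |c| ≤ M → |a + b + c| ^ p ≤ 3 ^ p * M ^ p := by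
    intro M _ h1 h2 h3
    rw [← mul_pow]
    refine pow_le_pow_left₀ (abs_nonneg _) ?_ p
    have h4 : |a + b + c| ≤ |a| + |b| + |c| := abs_add_three a b c
    linarith
  have h3 : (0 : ℝ) ≤ 3 ^ p := by positivity
  rcases le_total |a| |b| with h1 | h1
  · rcases le_total |b| |c| with h2 | h2
    · exact (key |c| hc (h1.trans h2) h2 le_rfl).trans
        (mul_le_mul_of_nonneg_left (by linarith) h3)
    · exact (key |b| hb h1 le_rfl h2).trans
        (mul_le_mul_of_nonneg_left (by linarith) h3)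
  · rcases le_total |a| |c| with h2 | h2
    · exact (key |c| hc h2 (h1.trans h2) le_rfl).trans
        (mul_le_mul_of_nonneg_left (by linarith) h3)
    · exact (key |a| ha le_rfl h1 h2).trans
        (mul_le_mul_of_nonneg_left (by linarith) h3)

private theorem Sampled_mono {u v : Dy K → Dy L → ℝ} (h : ∀ x y, u x y ≤ v x y) :
    SS u ≤ SS v := by
  unfold SS
  exact Finset.sum_le_sum fun x _ => Finset.sum_le_sum fun y _ => h x y

private theorem Sampled_add (u v : Dy K → Dy L → ℝ) :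
    SS (fun x y => u x y + v x y) = SS u + SS v := by
  unfold SS
  simp only [Finset.sum_add_distrib]

private theorem Sampled_mul (c : ℝ) (u : Dy K → Dy L → ℝ) :
    SS (fun x y => c * u x y) = c * SS u := by
  unfold SS
  simp only [Finset.mul_sum]

private theorem Sampled_sum (s : Finset ℕ) (F : ℕ → Dy K → Dy L → ℝ) :
    SS (fun x y => ∑ j ∈ s, F j x y) = ∑ j ∈ s, SS (F j) := by
  unfold SS
  calc ∑ x, ∑ y, ∑ j ∈ s, F j x y = ∑ x, ∑ j ∈ s, ∑ y, F j x y :=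
        Finset.sum_congr rfl fun x _ => Finset.sum_comm
    _ = ∑ j ∈ s, ∑ x, ∑ y, F j x y := Finset.sum_comm

/-- Cauchy-Schwarz. -/
private theorem Sampled_cs (u v : Dy K → Dy L → ℝ) {a b s : ℝ} (ha : 0 ≤ a) (hb : 0 ≤ b)
    (hs : 0 ≤ s) (hu : SS (fun x y => u x y ^ 2) ≤ a ^ 2 * s)
    (hv : SS (fun x y => v x y ^ 2) ≤ b ^ 2 * s) :
    SS (fun x y => u x y * v x y) ≤ a * b * s := by
  have e : ∀ F : Dy K → Dy L → ℝ, SS F = ∑ z : Dy K × Dy L, F z.1 z.2 := by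
    intro F
    unfold SS
    rw [Fintype.sum_prod_type]
  rw [e] at hu hv ⊢
  have h1 := Finset.sum_mul_sq_le_sq_mul_sq (Finset.univ : Finset (Dy K × Dy L))
    (fun z => u z.1 z.2) (fun z => v z.1 z.2)
  have h2 : (∑ z : Dy K × Dy L, u z.1 z.2 ^ 2) * (∑ z : Dy K × Dy L, v z.1 z.2 ^ 2) ≤
      (a ^ 2 * s) * (b ^ 2 * s) :=
    mul_le_mul hu hv (Finset.sum_nonneg fun _ _ => sq_nonneg _) (by positivity)
  have h3 : (∑ z : Dy K × Dy L, u z.1 z.2 * v z.1 z.2) ^ 2 ≤ (a * b * s) ^ 2 := by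
    refine (h1.trans h2).trans (le_of_eq ?_)
    ring
  exact le_of_abs_le (abs_le_of_sq_le_sq h3 (by positivity))

private theorem Sampled_A (f : Dy K → Dy L → ℝ) {p : ℕ} (hp : 1 ≤ p) (j k : ℕ) :
    SS (fun x y => (DD j k f x y) ^ 2 * |E1 j (E2 k f) x y| ^ p) ≤
      SS (fun x y => (DD j k f x y) ^ 2 * |f x y| ^ p) := by
  have hmx : ∀ y, Meas j (fun x => (DD j k f x y) ^ 2) := fun y =>
    (meas_DD_sq_x j k f y).mono (Nat.sub_le _ _)
  have hmy : ∀ x, Meas k (fun y => (DD j k f x y) ^ 2) := fun x =>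
    (meas_DD_sq_y j k f x).mono (Nat.sub_le _ _)
  have h1 : SS (fun x y => (DD j k f x y) ^ 2 * |E1 j (E2 k f) x y| ^ p) ≤
      SS (fun x y => (DD j k f x y) ^ 2 * |E2 k f x y| ^ p) := by
    unfold SS
    rw [Finset.sum_comm, Finset.sum_comm (f := fun x y => (DD j k f x y) ^ 2 * |E2 k f x y| ^ p)]
    refine Finset.sum_le_sum fun y _ => ?_
    calc ∑ x, (DD j k f x y) ^ 2 * |E1 j (E2 k f) x y| ^ p
        ≤ ∑ x, (DD j k f x y) ^ 2 * e j (fun x' => |E2 k f x' y| ^ p) x := by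
          refine Finset.sum_le_sum fun x _ => mul_le_mul_of_nonneg_left ?_ (sq_nonneg _)
          rw [E1_eq]
          exact e_abs_pow_le j (fun x' => E2 k f x' y) p hp x
      _ = ∑ x, (DD j k f x y) ^ 2 * |E2 k f x y| ^ p :=
          sum_mul_e (hmx y) (fun x' => |E2 k f x' y| ^ p)
  refine h1.trans ?_
  unfold SS
  refine Finset.sum_le_sum fun x _ => ?_
  calc ∑ y, (DD j k f x y) ^ 2 * |E2 k f x y| ^ p
      ≤ ∑ y, (DD j k f x y) ^ 2 * e k (fun y' => |f x y'| ^ p) y := by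
        refine Finset.sum_le_sum fun y _ => mul_le_mul_of_nonneg_left ?_ (sq_nonneg _)
        rw [E2_eq]
        exact e_abs_pow_le k (f x) p hp y
    _ = ∑ y, (DD j k f x y) ^ 2 * |f x y| ^ p :=
        sum_mul_e (hmy x) (fun y' => |f x y'| ^ p)

/-- The common pointwise step for `R` and `Q`. -/
private theorem Sampled_point (p : ℕ) {w R V G : ℝ} (hw : 0 ≤ w) (hV : 0 ≤ V) (hG : V ≤ G) :
    w * |R| ^ p ≤ w * G ^ p + 2 * p.factorial * 2 ^ p *
      (w * (Real.cosh R * Real.exp (-(1 / 2 * V)))) := by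
  have h1 := mul_le_mul_of_nonneg_left (point_lin p R V hV) hw
  have h2 := mul_le_mul_of_nonneg_left (pow_le_pow_left₀ hV hG p) hw
  linarith

private theorem Sampled_R (f : Dy K → Dy L → ℝ) (p : ℕ) (m j k : ℕ) :
    SS (fun x y => (DD j k f x y) ^ 2 * |∑ j' ∈ Ico (j + 1) (K + 1), D1 j' (uR m f j') x y| ^ p) ≤
      SS (fun x y => (DD j k f x y) ^ 2 * G1 f x y ^ p) +
        2 * p.factorial * 2 ^ p * SS (fun x y => (DD j k f x y) ^ 2) := by
  have hm : ∀ y, Meas (j + 1 - 1) (fun x => (DD j k f x y) ^ 2) := fun y =>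
    (meas_DD_sq_x j k f y).mono (by omega)
  have h1 := exp_R1 (j + 1) (uR m f) (fun x y => (DD j k f x y) ^ 2) (fun x y => sq_nonneg _) hm
  have h2 : SS (fun x y => (DD j k f x y) ^ 2 *
      |∑ j' ∈ Ico (j + 1) (K + 1), D1 j' (uR m f j') x y| ^ p) ≤
      SS (fun x y => (DD j k f x y) ^ 2 * G1 f x y ^ p + 2 * p.factorial * 2 ^ p *
        ((DD j k f x y) ^ 2 * (Real.cosh (∑ j' ∈ Ico (j + 1) (K + 1), D1 j' (uR m f j') x y) *
          Real.exp (-(1 / 2 * ∑ j' ∈ Ico (j + 1) (K + 1), (D1 j' (uR m f j') x y) ^ 2))))) :=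
    Sampled_mono fun x y => Sampled_point p (sq_nonneg _)
      (Finset.sum_nonneg fun _ _ => sq_nonneg _) (sq_R_le m j f x y)
  rw [Sampled_add, Sampled_mul] at h2
  have h3 := mul_le_mul_of_nonneg_left h1
    (show (0 : ℝ) ≤ 2 * (p.factorial : ℝ) * 2 ^ p by positivity)
  linarith

private theorem Sampled_Q (f : Dy K → Dy L → ℝ) (p : ℕ) (m j k : ℕ) :
    SS (fun x y => (DD j k f x y) ^ 2 * |∑ k' ∈ Ico (k + 1) (L + 1), D2 k' (vQ m j f k') x y| ^ p) ≤
      SS (fun x y => (DD j k f x y) ^ 2 * G2 f x y ^ p) +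
        2 * p.factorial * 2 ^ p * SS (fun x y => (DD j k f x y) ^ 2) := by
  have hm : ∀ x, Meas (k + 1 - 1) (fun y => (DD j k f x y) ^ 2) := fun x =>
    (meas_DD_sq_y j k f x).mono (by omega)
  have h1 := exp_R2 (k + 1) (vQ m j f) (fun x y => (DD j k f x y) ^ 2) (fun x y => sq_nonneg _) hm
  have h2 : SS (fun x y => (DD j k f x y) ^ 2 *
      |∑ k' ∈ Ico (k + 1) (L + 1), D2 k' (vQ m j f k') x y| ^ p) ≤
      SS (fun x y => (DD j k f x y) ^ 2 * G2 f x y ^ p + 2 * p.factorial * 2 ^ p *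
        ((DD j k f x y) ^ 2 * (Real.cosh (∑ k' ∈ Ico (k + 1) (L + 1), D2 k' (vQ m j f k') x y) *
          Real.exp (-(1 / 2 * ∑ k' ∈ Ico (k + 1) (L + 1), (D2 k' (vQ m j f k') x y) ^ 2))))) :=
    Sampled_mono fun x y => Sampled_point p (sq_nonneg _)
      (Finset.sum_nonneg fun _ _ => sq_nonneg _) (sq_Q_le m j k f x y)
  rw [Sampled_add, Sampled_mul] at h2
  have h3 := mul_le_mul_of_nonneg_left h1
    (show (0 : ℝ) ≤ 2 * (p.factorial : ℝ) * 2 ^ p by positivity)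
  linarith

private theorem Sampled_term (f : Dy K → Dy L → ℝ) {p : ℕ} (hp : 1 ≤ p) {j k m : ℕ}
    (h : j + k < m) (hj : j ≤ K) (hk : k ≤ L) :
    SS (fun x y => (DD j k f x y) ^ 2 * |Hs m f x y| ^ p) ≤
      3 ^ p * (SS (fun x y => (DD j k f x y) ^ 2 * |f x y| ^ p) +
        SS (fun x y => (DD j k f x y) ^ 2 * G2 f x y ^ p) +
        SS (fun x y => (DD j k f x y) ^ 2 * G1 f x y ^ p) +
        2 * (2 * p.factorial * 2 ^ p * SS (fun x y => (DD j k f x y) ^ 2))) := by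
  have h1 : SS (fun x y => (DD j k f x y) ^ 2 * |Hs m f x y| ^ p) ≤
      SS (fun x y => 3 ^ p * ((DD j k f x y) ^ 2 * |E1 j (E2 k f) x y| ^ p +
        ((DD j k f x y) ^ 2 * |∑ k' ∈ Ico (k + 1) (L + 1), D2 k' (vQ m j f k') x y| ^ p +
        (DD j k f x y) ^ 2 * |∑ j' ∈ Ico (j + 1) (K + 1), D1 j' (uR m f j') x y| ^ p))) := by
    refine Sampled_mono fun x y => ?_
    rw [Hs_split h hj hk]
    have h2 := mul_le_mul_of_nonneg_left (Sampled_abs3 (E1 j (E2 k f) x y)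
      (∑ k' ∈ Ico (k + 1) (L + 1), D2 k' (vQ m j f k') x y)
      (∑ j' ∈ Ico (j + 1) (K + 1), D1 j' (uR m f j') x y) p) (sq_nonneg (DD j k f x y))
    refine h2.trans (le_of_eq ?_)
    ring
  rw [Sampled_mul, Sampled_add, Sampled_add] at h1
  refine h1.trans (mul_le_mul_of_nonneg_left ?_ (by positivity))
  have hA := Sampled_A f hp j k
  have hR := Sampled_R f p m j k
  have hQ := Sampled_Q f p m j k
  linarith

/-- Summation over `j, k`. -/
private theorem Sampled_En (f g : Dy K → Dy L → ℝ) :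
    ∑ j ∈ range (K + 1), ∑ k ∈ range (L + 1), SS (fun x y => (DD j k f x y) ^ 2 * g x y) =
      SS (fun x y => En all f x y * g x y) := by
  have h1 : (fun x y => En all f x y * g x y) = fun x y => ∑ j ∈ range (K + 1),
      ∑ k ∈ range (L + 1), (DD j k f x y) ^ 2 * g x y := by
    funext x y
    unfold En
    rw [Finset.sum_mul]
    refine Finset.sum_congr rfl fun j _ => ?_
    rw [Finset.sum_mul]
    refine Finset.sum_congr rfl fun k _ => ?_
    simp [all]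
  rw [h1, Sampled_sum]
  exact Finset.sum_congr rfl fun j _ => (Sampled_sum _ _).symm

private theorem Sampled_G {f F G : Dy K → Dy L → ℝ} {S : Finset (Dy K × Dy L)} (hf : Atom f S)
    {p : ℕ} (hp : 1 ≤ p) (hF : ∀ q : ℕ, 1 ≤ q → SS (fun x y => F x y ^ q) ≤
      (2048 * (q : ℝ) ^ 4) ^ q * S.card)
    (hG : ∀ q : ℕ, 1 ≤ q → SS (fun x y => G x y ^ q) ≤
      (8 * (q : ℝ)) ^ q * SS (fun x y => F x y ^ q)) :
    SS (fun x y => En all f x y * G x y ^ p) ≤ 32 * (524288 * (p : ℝ) ^ 5) ^ p * S.card := by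
  refine Sampled_cs (En all f) (fun x y => G x y ^ p) (by norm_num) (by positivity)
    (Nat.cast_nonneg _) ?_ ?_
  · refine (hf.2 2 (by norm_num)).trans (le_of_eq ?_)
    norm_num
  · have h1 : SS (fun x y => (G x y ^ p) ^ 2) = SS (fun x y => G x y ^ (2 * p)) := by
      congr 1
      funext x y
      rw [← pow_mul, mul_comm]
    rw [h1]
    refine (hG (2 * p) (by omega)).trans ?_
    refine (mul_le_mul_of_nonneg_left (hF (2 * p) (by omega)) (by positivity)).trans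
      (le_of_eq ?_)
    rw [← mul_assoc, ← mul_pow, ← pow_mul, mul_comm p 2]
    congr 2
    push_cast
    ring

private theorem Sampled_f {f : Dy K → Dy L → ℝ} {S : Finset (Dy K × Dy L)} (hf : Atom f S)
    {p : ℕ} (hp : 1 ≤ p) :
    SS (fun x y => En all f x y * |f x y| ^ p) ≤
      32 * (2 * (32768 * (p : ℝ) ^ 4) ^ p) * S.card := by
  refine Sampled_cs (En all f) (fun x y => |f x y| ^ p) (by norm_num) (by positivity)
    (Nat.cast_nonneg _) ?_ ?_
  · refine (hf.2 2 (by norm_num)).trans (le_of_eq ?_)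
    norm_num
  · have h1 : SS (fun x y => (|f x y| ^ p) ^ 2) = SS (fun x y => f x y ^ (2 * p)) := by
      congr 1
      funext x y
      rw [← pow_mul, mul_comm, Even.pow_abs (even_two_mul p)]
    rw [h1]
    refine (moment_f hf hp).trans (mul_le_mul_of_nonneg_right ?_ (Nat.cast_nonneg _))
    rw [mul_pow 2, ← pow_mul, mul_comm p 2]
    have h2 : (0 : ℝ) ≤ (32768 * (p : ℝ) ^ 4) ^ (2 * p) := by positivity
    linarith

private theorem Sampled_num {p : ℕ} (hp : 1 ≤ p) {s : ℝ} (hs : 0 ≤ s) :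
    3 ^ p * (32 * (2 * (32768 * (p : ℝ) ^ 4) ^ p) * s + 32 * (524288 * (p : ℝ) ^ 5) ^ p * s +
      32 * (524288 * (p : ℝ) ^ 5) ^ p * s + 2 * (2 * p.factorial * 2 ^ p * (8 * s))) ≤
      (300000000 * (p : ℝ) ^ 5) ^ p * s := by
  have hp1 : (1 : ℝ) ≤ p := by exact_mod_cast hp
  have e1 : (p : ℝ) ^ 4 ≤ (p : ℝ) ^ 5 := pow_le_pow_right₀ hp1 (by norm_num)
  have e2 : (p : ℝ) ≤ (p : ℝ) ^ 5 := le_self_pow₀ hp1 (by norm_num)
  have e3 : (0 : ℝ) ≤ (p : ℝ) ^ 5 := by positivity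
  have h1 : (32768 * (p : ℝ) ^ 4) ^ p ≤ (524288 * (p : ℝ) ^ 5) ^ p :=
    pow_le_pow_left₀ (by positivity) (by nlinarith) p
  have h2 : (p.factorial : ℝ) * 2 ^ p ≤ (524288 * (p : ℝ) ^ 5) ^ p := by
    have h3 : (p.factorial : ℝ) ≤ (p : ℝ) ^ p := by exact_mod_cast Nat.factorial_le_pow p
    calc (p.factorial : ℝ) * 2 ^ p ≤ (p : ℝ) ^ p * 2 ^ p :=
          mul_le_mul_of_nonneg_right h3 (by positivity)
      _ = ((p : ℝ) * 2) ^ p := (mul_pow _ _ _).symm
      _ ≤ (524288 * (p : ℝ) ^ 5) ^ p := pow_le_pow_left₀ (by positivity) (by nlinarith) p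
  have h4 : (160 : ℝ) ≤ 160 ^ p := le_self_pow₀ (by norm_num) (by omega)
  set T : ℝ := (524288 * (p : ℝ) ^ 5) ^ p with hT
  have hT0 : 0 ≤ T := by positivity
  have h5 : 32 * (2 * (32768 * (p : ℝ) ^ 4) ^ p) * s + 32 * T * s + 32 * T * s +
      2 * (2 * p.factorial * 2 ^ p * (8 * s)) ≤ 160 ^ p * T * s := by
    have a1 := mul_le_mul_of_nonneg_right h1 hs
    have a2 := mul_le_mul_of_nonneg_right h2 hs
    have a3 := mul_le_mul_of_nonneg_right h4 (mul_nonneg hT0 hs)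
    nlinarith
  have h6 := mul_le_mul_of_nonneg_left h5 (show (0 : ℝ) ≤ 3 ^ p by positivity)
  refine h6.trans ?_
  have h7 : (3 : ℝ) ^ p * (160 ^ p * T * s) = (3 * 160 * (524288 * (p : ℝ) ^ 5)) ^ p * s := by
    rw [hT, mul_pow (3 * 160) (524288 * (p : ℝ) ^ 5) p, mul_pow 3 160 p]
    ring
  rw [h7]
  refine mul_le_mul_of_nonneg_right (pow_le_pow_left₀ (by positivity) ?_ p) hs
  nlinarith

theorem sampled {f : Dy K → Dy L → ℝ} {S : Finset (Dy K × Dy L)} (hf : Atom f S) {p : ℕ}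
    (hp : 1 ≤ p) (ν : ℕ → ℕ → ℕ) (hν : ∀ j k, j + k < ν j k) :
    SS (fun x y => ∑ j ∈ range (K + 1), ∑ k ∈ range (L + 1),
      (DD j k f x y) ^ 2 * |Hs (ν j k) f x y| ^ p) ≤ (300000000 * (p : ℝ) ^ 5) ^ p * S.card := by
  have hs : (0 : ℝ) ≤ S.card := Nat.cast_nonneg _
  rw [Sampled_sum]
  simp only [Sampled_sum]
  have h1 : ∑ j ∈ range (K + 1), ∑ k ∈ range (L + 1),
      SS (fun x y => (DD j k f x y) ^ 2 * |Hs (ν j k) f x y| ^ p) ≤
      ∑ j ∈ range (K + 1), ∑ k ∈ range (L + 1),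
      3 ^ p * (SS (fun x y => (DD j k f x y) ^ 2 * |f x y| ^ p) +
        SS (fun x y => (DD j k f x y) ^ 2 * G2 f x y ^ p) +
        SS (fun x y => (DD j k f x y) ^ 2 * G1 f x y ^ p) +
        2 * (2 * p.factorial * 2 ^ p * SS (fun x y => (DD j k f x y) ^ 2))) := by
    refine Finset.sum_le_sum fun j hj => Finset.sum_le_sum fun k hk => ?_
    rw [mem_range] at hj hk
    exact Sampled_term f hp (hν j k) (by omega) (by omega)
  refine h1.trans ?_
  simp only [← Finset.mul_sum, Finset.sum_add_distrib]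
  have h2 := Sampled_En f (fun x y => |f x y| ^ p)
  have h3 := Sampled_En f (fun x y => G2 f x y ^ p)
  have h4 := Sampled_En f (fun x y => G1 f x y ^ p)
  have h5 := Sampled_En f (fun _ _ => 1)
  simp only [mul_one] at h5
  rw [h2, h3, h4, h5]
  have h6 : SS (fun x y => En all f x y) ≤ 8 * S.card := by
    have h := hf.2 1 le_rfl
    simpa using h
  have h7 := Sampled_f hf hp
  have h8 := Sampled_G hf hp (F := F2 f) (G := G2 f) (fun q hq => moment_F2 hf hq)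
    (fun q hq => moment_G2 f hq)
  have h9 := Sampled_G hf hp (F := F1 f) (G := G1 f) (fun q hq => moment_F1 hf hq)
    (fun q hq => moment_G1 f hq)
  refine le_trans (mul_le_mul_of_nonneg_left ?_ (by positivity)) (Sampled_num hp hs)
  have h10 := mul_le_mul_of_nonneg_left h6
    (show (0 : ℝ) ≤ 2 * (p.factorial : ℝ) * 2 ^ p by positivity)
  linarith

end Pool.Agent.helper75.HX
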