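import Pool.Agent.helper75.HX.Pairs
import Pool.Agent.helper75.HX.Chain
import Pool.Agent.helper75.HX.Sampled

/-!
# AtomThm : the maximal function of an atom

`MT T h0 f x y = max_{t ∈ T} |Hs t f x y|`.  Outside `S` all double differences vanish, so `MT = 0`.
`atom_sup`: put `κ = max (4p) (log |T|)`, so `1 ≤ κ ≤ e^p` (`4p ≤ e^p` for `p ≥ 3`), `d = 1/(16κ⁴)`,
`ν l` = least element of `T` larger than `l`, if there is one, and `l + 1` otherwise (so `l < ν l` always).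
`chain` at every `z ∈ S` with `ε l = En (btw l (l+1)) f z` (`∑_{l ∈ Ico s t} ε l = En (btw s t) f z`),
`a t = Hs t f z`, `U = UP T κ f z`, `M` = maximum of `T`; the sum over `l < M` of `ε l |a (ν l)|^p` is at most
`∑_{j,k} (DD j k f)² |Hs (ν (j+k)) f|^p`.  Sum over `z ∈ S`:
`∑ MT^p ≤ ∑ U + 2^p 16κ⁴ (∑ ∑_{j,k} (DD j k f)² |Hs (ν (j+k)) f|^p + ∑ U En all f)`
`≤ 3|S| + 2^p 16 e^{4p} ((3·10⁸p⁵)^p |S| + 3|S|^{1/2} (∑ En²)^{1/2})`, `∑ En² ≤ 1024|S|`, by `sum_UP_sq`, `sampled`,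
Cauchy-Schwarz and `Atom` with `q = 2`; `e^4 ≤ 55`, so this is `≤ 1600 (3.3·10¹⁰ p⁵)^p |S| ≤ (10¹² p⁵)^p |S|` as `p ≥ 3`.
`atom_sup3`: Hoelder on `S`: `∑ MT³ ≤ (∑ MT^p)^{3/p} |S|^{1-3/p}`.  (Or pointwise: with `B = 10¹²p⁵`, `b = MT/B`:
`b³ ≤ 1 + b^p` gives the constant `2`; the statement allows the factor `2`.)
-/

set_option autoImplicit false

namespace Pool.Agent.helper75.HX

open Finset Pool.Agent.helper18.HC

variable {K L : ℕ}

/-- The maximal function over the levels in `T`. -/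
noncomputable def MT (T : Finset ℕ) (h0 : T.Nonempty) (f : Dy K → Dy L → ℝ) (x : Dy K) (y : Dy L) :
    ℝ := T.sup' h0 fun t => |Hs t f x y|

theorem MT_nonneg (T : Finset ℕ) (h0 : T.Nonempty) (f : Dy K → Dy L → ℝ) (x : Dy K) (y : Dy L) :
    0 ≤ MT T h0 f x y := by
  obtain ⟨t, ht⟩ := h0
  exact (abs_nonneg _).trans (Finset.le_sup' (fun t => |Hs t f x y|) ht)

private theorem AtomThm_Hs_zero {f : Dy K → Dy L → ℝ}
    {S : Finset (Dy K × Dy L)} (hS : SuppIn f S) {x : Dy K} {y : Dy L} (h : (x, y) ∉ S) (t : ℕ) :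
    Hs t f x y = 0 := by
  unfold Hs Rs
  refine Finset.sum_eq_zero fun j _ => Finset.sum_eq_zero fun k _ => ?_
  rw [hS x y h j k, ite_self]

theorem MT_supp (T : Finset ℕ) (h0 : T.Nonempty) {f : Dy K → Dy L → ℝ}
    {S : Finset (Dy K × Dy L)} (hS : SuppIn f S) {x : Dy K} {y : Dy L} (h : (x, y) ∉ S) :
    MT T h0 f x y = 0 := by
  refine le_antisymm (Finset.sup'_le _ _ fun t _ => ?_) (MT_nonneg T h0 f x y)
  rw [AtomThm_Hs_zero hS h t, abs_zero]

/-- The next element of `T`. -/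
noncomputable def AtomThm_nu (T : Finset ℕ) (l : ℕ) : ℕ :=
  if h : (T.filter (fun t => l < t)).Nonempty then (T.filter (fun t => l < t)).min' h else l + 1

theorem AtomThm_nu_lt (T : Finset ℕ) (l : ℕ) : l < AtomThm_nu T l := by
  unfold AtomThm_nu
  split_ifs with h
  · exact (Finset.mem_filter.1 (Finset.min'_mem _ h)).2
  · exact Nat.lt_succ_self l

theorem AtomThm_nu_mem {T : Finset ℕ} {l t : ℕ} (ht : t ∈ T) (hl : l < t) :
    AtomThm_nu T l ∈ T ∧ l < AtomThm_nu T l ∧ AtomThm_nu T l ≤ t := by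
  have h : (T.filter (fun t => l < t)).Nonempty := ⟨t, Finset.mem_filter.2 ⟨ht, hl⟩⟩
  refine ⟨?_, AtomThm_nu_lt T l, ?_⟩
  · unfold AtomThm_nu
    rw [dif_pos h]
    exact (Finset.mem_filter.1 (Finset.min'_mem _ h)).1
  · unfold AtomThm_nu
    rw [dif_pos h]
    exact Finset.min'_le _ _ (Finset.mem_filter.2 ⟨ht, hl⟩)

/-- Summation of the energies of levels. -/
theorem AtomThm_sum (f : Dy K → Dy L → ℝ) (x : Dy K) (y : Dy L) (s : Finset ℕ) (c : ℕ → ℝ) :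
    ∑ l ∈ s, En (btw l (l + 1)) f x y * c l =
      ∑ j ∈ range (K + 1), ∑ k ∈ range (L + 1),
        if j + k ∈ s then (DD j k f x y) ^ 2 * c (j + k) else 0 := by
  unfold En
  simp only [Finset.sum_mul]
  rw [Finset.sum_comm]
  refine Finset.sum_congr rfl fun j _ => ?_
  rw [Finset.sum_comm]
  refine Finset.sum_congr rfl fun k _ => ?_
  have h : ∀ l ∈ s, (if btw l (l + 1) j k = true then (DD j k f x y) ^ 2 else 0) * c l =
      if j + k = l then (DD j k f x y) ^ 2 * c (j + k) else 0 := by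
    intro l _
    by_cases hl : j + k = l
    · subst hl
      simp [btw]
    · rw [if_neg hl, if_neg, zero_mul]
      simp only [btw, decide_eq_true_eq]
      omega
  rw [Finset.sum_congr rfl h, Finset.sum_ite_eq]

theorem AtomThm_sum_le (f : Dy K → Dy L → ℝ) (x : Dy K) (y : Dy L) (s : Finset ℕ) (c : ℕ → ℝ)
    (hc : ∀ l, 0 ≤ c l) :
    ∑ l ∈ s, En (btw l (l + 1)) f x y * c l ≤
      ∑ j ∈ range (K + 1), ∑ k ∈ range (L + 1), (DD j k f x y) ^ 2 * c (j + k) := by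
  rw [AtomThm_sum]
  refine Finset.sum_le_sum fun j _ => Finset.sum_le_sum fun k _ => ?_
  split_ifs
  · exact le_rfl
  · exact mul_nonneg (sq_nonneg _) (hc _)

theorem AtomThm_En_btw (f : Dy K → Dy L → ℝ) (x : Dy K) (y : Dy L) (s t : ℕ) :
    ∑ l ∈ Ico s t, En (btw l (l + 1)) f x y = En (btw s t) f x y := by
  have h := AtomThm_sum f x y (Ico s t) (fun _ => 1)
  simp only [mul_one] at h
  rw [h]
  unfold En
  refine Finset.sum_congr rfl fun j _ => Finset.sum_congr rfl fun k _ => ?_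
  simp only [btw, decide_eq_true_eq, Finset.mem_Ico]

theorem AtomThm_En_le (f : Dy K → Dy L → ℝ) (x : Dy K) (y : Dy L) (s : Finset ℕ) :
    ∑ l ∈ s, En (btw l (l + 1)) f x y ≤ En all f x y := by
  have h := AtomThm_sum_le f x y s (fun _ => 1) (fun _ => zero_le_one)
  simp only [mul_one] at h
  refine h.trans (le_of_eq ?_)
  unfold En
  refine Finset.sum_congr rfl fun j _ => Finset.sum_congr rfl fun k _ => ?_
  simp [all]

private theorem AtomThm_exp_ge {p : ℕ} (hp : 3 ≤ p) : 4 * (p : ℝ) ≤ Real.exp p := by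
  have h1 : (2.7 : ℝ) ^ p ≤ Real.exp p := by
    rw [← Real.exp_one_pow]
    have := Real.exp_one_gt_d9
    exact pow_le_pow_left₀ (by norm_num) (by linarith) _
  refine le_trans ?_ h1
  induction p, hp using Nat.le_induction with
  | base => norm_num
  | succ n hn ih =>
    have h2 : (2.7 : ℝ) ^ n ≤ Real.exp n := by
      rw [← Real.exp_one_pow]
      have := Real.exp_one_gt_d9
      exact pow_le_pow_left₀ (by norm_num) (by linarith) _
    have h3 := ih h2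
    have h4 : (3 : ℝ) ≤ n := by exact_mod_cast hn
    rw [pow_succ]
    push_cast
    nlinarith

private theorem AtomThm_exp_le (p : ℕ) : (Real.exp p) ^ 4 ≤ 55 ^ p := by
  have h1 : (Real.exp p) ^ 4 = (Real.exp 1 ^ 4) ^ p := by
    rw [← Real.exp_one_pow, ← pow_mul, ← pow_mul, mul_comm]
  rw [h1]
  refine pow_le_pow_left₀ (by positivity) ?_ _
  have h2 := Real.exp_one_lt_d9
  have h3 : Real.exp 1 ^ 4 ≤ 2.7182818286 ^ 4 :=
    pow_le_pow_left₀ (Real.exp_pos _).le h2.le 4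
  refine h3.trans ?_
  norm_num

private theorem AtomThm_num {p : ℕ} (hp : 3 ≤ p) :
    3 + 2 ^ p * (16 * (55 : ℝ) ^ p) * ((300000000 * (p : ℝ) ^ 5) ^ p + 96) ≤
      (1000000000000 * (p : ℝ) ^ 5) ^ p := by
  have hp1 : (1 : ℝ) ≤ (p : ℝ) ^ 5 := one_le_pow₀ (by exact_mod_cast (by omega : 1 ≤ p))
  set q : ℝ := (p : ℝ) ^ 5 with hq
  set B : ℝ := (300000000 * q) ^ p with hB
  have hB1 : 96 ≤ B := by
    have h1 : (300000000 * q) ^ 1 ≤ (300000000 * q) ^ p :=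
      pow_le_pow_right₀ (by linarith) (by omega)
    rw [pow_one] at h1
    linarith
  have h110 : (1 : ℝ) ≤ 110 ^ p := one_le_pow₀ (by norm_num)
  have e1 : (2 : ℝ) ^ p * (16 * 55 ^ p) = 16 * 110 ^ p := by
    have : (2 : ℝ) ^ p * 55 ^ p = 110 ^ p := by rw [← mul_pow]; norm_num
    calc (2 : ℝ) ^ p * (16 * 55 ^ p) = 16 * (2 ^ p * 55 ^ p) := by ring
      _ = _ := by rw [this]
  have e2 : (110 : ℝ) ^ p * B * 30 ^ p ≤ (1000000000000 * q) ^ p := by
    rw [hB, ← mul_pow, ← mul_pow]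
    refine pow_le_pow_left₀ (by positivity) ?_ _
    linarith
  have h30 : (33 : ℝ) ≤ 30 ^ p := by
    have h1 : (30 : ℝ) ^ 3 ≤ 30 ^ p := pow_le_pow_right₀ (by norm_num) hp
    refine le_trans ?_ h1
    norm_num
  have hAB : (0 : ℝ) ≤ 110 ^ p * B := by positivity
  have h3 : (3 : ℝ) ≤ 110 ^ p * B := by nlinarith
  have h4 : (110 : ℝ) ^ p * 96 ≤ 110 ^ p * B := mul_le_mul_of_nonneg_left hB1 (by linarith)
  rw [e1]
  have h5 : (110 : ℝ) ^ p * B * 33 ≤ 110 ^ p * B * 30 ^ p := mul_le_mul_of_nonneg_left h30 hAB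
  nlinarith

/-- The pointwise inequality. -/
theorem AtomThm_point {p : ℕ} (hp : 3 ≤ p) {T : Finset ℕ} (h0 : 0 ∈ T)
    (hT : Real.log T.card ≤ Real.exp p) (f : Dy K → Dy L → ℝ) (x : Dy K) (y : Dy L) :
    MT T ⟨0, h0⟩ f x y ^ p ≤ UP T (max (4 * (p : ℝ)) (Real.log T.card)) f x y +
      2 ^ p * (16 * (55 : ℝ) ^ p) * ((∑ j ∈ range (K + 1), ∑ k ∈ range (L + 1),
        (DD j k f x y) ^ 2 * |Hs (AtomThm_nu T (j + k)) f x y| ^ p) +
        UP T (max (4 * (p : ℝ)) (Real.log T.card)) f x y * En all f x y) := by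
  set κ : ℝ := max (4 * (p : ℝ)) (Real.log T.card) with hκ
  have hp3 : (3 : ℝ) ≤ p := by exact_mod_cast hp
  have hκ4 : 4 * (p : ℝ) ≤ κ := le_max_left _ _
  have hκ1 : 1 ≤ κ := by linarith
  have hκe : κ ≤ Real.exp p := max_le (AtomThm_exp_ge hp) hT
  have hκ0 : 0 < κ := by linarith
  have hk55 : κ ^ 4 ≤ 55 ^ p := (pow_le_pow_left₀ hκ0.le hκe 4).trans (AtomThm_exp_le p)
  obtain ⟨t, ht, hmt⟩ := Finset.exists_mem_eq_sup' (⟨0, h0⟩ : T.Nonempty) (fun t => |Hs t f x y|)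
  have hMT : MT T ⟨0, h0⟩ f x y = |Hs t f x y| := hmt
  have hd : (0 : ℝ) < 1 / (16 * κ ^ 4) := by positivity
  have hc := chain T h0 (AtomThm_nu T) (fun l t ht hl => AtomThm_nu_mem ht hl)
    (fun l => En (btw l (l + 1)) f x y) (fun l => En_nonneg _ _ _ _) (fun t => Hs t f x y)
    (Hs_zero f x y) hd (UP_nonneg T κ f x y) p (by omega)
    (fun s hs t ht hst hε => pair_le p hκ1 hκ4 f x y hs ht hst
      (by rw [AtomThm_En_btw] at hε; exact hε))
    (T.sup id) (fun t ht => Finset.le_sup (f := id) ht) ht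
  rw [hMT]
  refine hc.trans ?_
  have hU := UP_nonneg T κ f x y
  have h1 := AtomThm_sum_le f x y (range (T.sup id))
    (fun l => |Hs (AtomThm_nu T l) f x y| ^ p) (fun l => by positivity)
  have h2 := AtomThm_En_le f x y (range (T.sup id))
  have h3 := mul_le_mul_of_nonneg_left h2 hU
  have h4 : 2 ^ p / (1 / (16 * κ ^ 4)) ≤ 2 ^ p * (16 * (55 : ℝ) ^ p) := by
    rw [div_div_eq_mul_div, div_one]
    exact mul_le_mul_of_nonneg_left (by linarith) (by positivity)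
  have h5 : 0 ≤ (∑ j ∈ range (K + 1), ∑ k ∈ range (L + 1),
        (DD j k f x y) ^ 2 * |Hs (AtomThm_nu T (j + k)) f x y| ^ p) +
        UP T κ f x y * En all f x y := by
    refine add_nonneg (Finset.sum_nonneg fun j _ => Finset.sum_nonneg fun k _ => by positivity) ?_
    exact mul_nonneg hU (En_nonneg _ _ _ _)
  have h6 : 2 ^ p / (1 / (16 * κ ^ 4)) *
      (∑ l ∈ range (T.sup id), En (btw l (l + 1)) f x y * |Hs (AtomThm_nu T l) f x y| ^ p +
        UP T κ f x y * ∑ l ∈ range (T.sup id), En (btw l (l + 1)) f x y) ≤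
      2 ^ p / (1 / (16 * κ ^ 4)) * ((∑ j ∈ range (K + 1), ∑ k ∈ range (L + 1),
        (DD j k f x y) ^ 2 * |Hs (AtomThm_nu T (j + k)) f x y| ^ p) +
        UP T κ f x y * En all f x y) :=
    mul_le_mul_of_nonneg_left (add_le_add h1 h3) (by positivity)
  have h7 := mul_le_mul_of_nonneg_right h4 h5
  linarith

theorem atom_sup {p : ℕ} (hp : 3 ≤ p) {T : Finset ℕ} (h0 : 0 ∈ T)
    (hT : Real.log T.card ≤ Real.exp p) {f : Dy K → Dy L → ℝ} {S : Finset (Dy K × Dy L)}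
    (hf : Atom f S) :
    SS (fun x y => MT T ⟨0, h0⟩ f x y ^ p) ≤ (1000000000000 * (p : ℝ) ^ 5) ^ p * S.card := by
  set κ : ℝ := max (4 * (p : ℝ)) (Real.log T.card) with hκ
  set c : ℝ := 2 ^ p * (16 * (55 : ℝ) ^ p) with hc
  have hc0 : 0 ≤ c := by positivity
  have hs : (0 : ℝ) ≤ S.card := Nat.cast_nonneg _
  have hU2 : ∑ z ∈ S, (UP T κ f z.1 z.2) ^ 2 ≤ 9 * S.card := sum_UP_sq (le_max_right _ _) hf.1
  have hE2 : ∑ z ∈ S, (En all f z.1 z.2) ^ 2 ≤ 1024 * S.card := by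
    have h1 := hf.2 2 (by norm_num)
    have h2 := Moments_sum_le_SS (F := fun x y => En all f x y ^ 2)
      (fun x y => sq_nonneg _) S
    have h3 : ((8 : ℝ) * ((2 : ℕ) : ℝ) ^ 2) ^ 2 = 1024 := by norm_num
    rw [h3] at h1
    exact h2.trans h1
  have hU1 : ∑ z ∈ S, UP T κ f z.1 z.2 ≤ 3 * S.card := by
    have h1 := Finset.sum_mul_sq_le_sq_mul_sq S (fun _ => (1 : ℝ)) (fun z => UP T κ f z.1 z.2)
    simp only [one_mul, one_pow, Finset.sum_const, nsmul_eq_mul, mul_one] at h1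
    have h2 : (∑ z ∈ S, UP T κ f z.1 z.2) ^ 2 ≤ (3 * (S.card : ℝ)) ^ 2 := by
      refine h1.trans ?_
      have := mul_le_mul_of_nonneg_left hU2 hs
      nlinarith
    exact le_of_sq_le_sq h2 (by positivity)
  have hUE : ∑ z ∈ S, UP T κ f z.1 z.2 * En all f z.1 z.2 ≤ 96 * S.card := by
    have h1 := Finset.sum_mul_sq_le_sq_mul_sq S (fun z => UP T κ f z.1 z.2)
      (fun z => En all f z.1 z.2)
    have h2 : (∑ z ∈ S, UP T κ f z.1 z.2 * En all f z.1 z.2) ^ 2 ≤ (96 * (S.card : ℝ)) ^ 2 := by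
      refine h1.trans ?_
      have h3 : 0 ≤ ∑ z ∈ S, (En all f z.1 z.2) ^ 2 := Finset.sum_nonneg fun _ _ => sq_nonneg _
      have := mul_le_mul hU2 hE2 h3 (by positivity)
      nlinarith
    exact le_of_sq_le_sq h2 (by positivity)
  have hsam : ∑ z ∈ S, (∑ j ∈ range (K + 1), ∑ k ∈ range (L + 1),
        (DD j k f z.1 z.2) ^ 2 * |Hs (AtomThm_nu T (j + k)) f z.1 z.2| ^ p) ≤
      (300000000 * (p : ℝ) ^ 5) ^ p * S.card := by
    have h1 := sampled hf (p := p) (by omega) (fun j k => AtomThm_nu T (j + k))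
      (fun j k => AtomThm_nu_lt T (j + k))
    refine le_trans (Moments_sum_le_SS (F := fun x y => ∑ j ∈ range (K + 1),
      ∑ k ∈ range (L + 1), (DD j k f x y) ^ 2 * |Hs (AtomThm_nu T (j + k)) f x y| ^ p)
      (fun x y => ?_) S) h1
    exact Finset.sum_nonneg fun j _ => Finset.sum_nonneg fun k _ => by positivity
  have h1 : SS (fun x y => MT T ⟨0, h0⟩ f x y ^ p) =
      ∑ z ∈ S, MT T ⟨0, h0⟩ f z.1 z.2 ^ p := by
    refine Moments_SS_eq fun x y hz => ?_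
    rw [MT_supp T ⟨0, h0⟩ hf.1 hz, zero_pow (by omega)]
  rw [h1]
  have h2 : ∑ z ∈ S, MT T ⟨0, h0⟩ f z.1 z.2 ^ p ≤ ∑ z ∈ S, (UP T κ f z.1 z.2 +
      c * ((∑ j ∈ range (K + 1), ∑ k ∈ range (L + 1),
        (DD j k f z.1 z.2) ^ 2 * |Hs (AtomThm_nu T (j + k)) f z.1 z.2| ^ p) +
        UP T κ f z.1 z.2 * En all f z.1 z.2)) :=
    Finset.sum_le_sum fun z _ => AtomThm_point hp h0 hT f z.1 z.2
  rw [Finset.sum_add_distrib, ← Finset.mul_sum, Finset.sum_add_distrib] at h2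
  refine h2.trans ?_
  have h3 := mul_le_mul_of_nonneg_left (add_le_add hsam hUE) hc0
  have h4 := mul_le_mul_of_nonneg_right (AtomThm_num hp) hs
  rw [← hc] at h4
  nlinarith

theorem atom_sup3 {p : ℕ} (hp : 3 ≤ p) {T : Finset ℕ} (h0 : 0 ∈ T)
    (hT : Real.log T.card ≤ Real.exp p) {f : Dy K → Dy L → ℝ} {S : Finset (Dy K × Dy L)}
    (hf : Atom f S) :
    SS (fun x y => MT T ⟨0, h0⟩ f x y ^ 3) ≤ 2 * (1000000000000 * (p : ℝ) ^ 5) ^ 3 * S.card := by
  set B : ℝ := 1000000000000 * (p : ℝ) ^ 5 with hB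
  have hp0 : (0 : ℝ) < p := by exact_mod_cast (by omega : 0 < p)
  have hB0 : 0 < B := by positivity
  have hs : (0 : ℝ) ≤ S.card := Nat.cast_nonneg _
  have hA := atom_sup hp h0 hT hf
  rw [← hB] at hA
  have h1 : ∀ q : ℕ, 1 ≤ q → SS (fun x y => MT T ⟨0, h0⟩ f x y ^ q) =
      ∑ z ∈ S, MT T ⟨0, h0⟩ f z.1 z.2 ^ q := fun q hq => by
    refine Moments_SS_eq fun x y hz => ?_
    rw [MT_supp T ⟨0, h0⟩ hf.1 hz, zero_pow (by omega)]
  rw [h1 p (by omega)] at hA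
  rw [h1 3 (by norm_num)]
  have h2 : ∀ z ∈ S, MT T ⟨0, h0⟩ f z.1 z.2 ^ 3 ≤
      B ^ 3 * (1 + MT T ⟨0, h0⟩ f z.1 z.2 ^ p / B ^ p) := by
    intro z _
    have hm := MT_nonneg T ⟨0, h0⟩ f z.1 z.2
    set m := MT T ⟨0, h0⟩ f z.1 z.2 with hmm
    have hb : 0 ≤ m / B := div_nonneg hm hB0.le
    have h3 : (m / B) ^ 3 ≤ 1 + (m / B) ^ p := by
      rcases le_total (m / B) 1 with h | h
      · have h4 : (m / B) ^ 3 ≤ 1 := pow_le_one₀ hb h
        have h5 : 0 ≤ (m / B) ^ p := by positivity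
        linarith
      · have h4 : (m / B) ^ 3 ≤ (m / B) ^ p := pow_le_pow_right₀ h hp
        linarith
    calc m ^ 3 = B ^ 3 * (m / B) ^ 3 := by
          rw [← mul_pow, mul_div_cancel₀ _ hB0.ne']
      _ ≤ B ^ 3 * (1 + (m / B) ^ p) := mul_le_mul_of_nonneg_left h3 (by positivity)
      _ = _ := by rw [div_pow]
  refine (Finset.sum_le_sum h2).trans ?_
  rw [← Finset.mul_sum, Finset.sum_add_distrib, ← Finset.sum_div, Finset.sum_const,
    nsmul_eq_mul, mul_one]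
  have h5 : (∑ z ∈ S, MT T ⟨0, h0⟩ f z.1 z.2 ^ p) / B ^ p ≤ S.card := by
    rw [div_le_iff₀ (by positivity)]
    linarith
  have h6 : B ^ 3 * ((S.card : ℝ) + (∑ z ∈ S, MT T ⟨0, h0⟩ f z.1 z.2 ^ p) / B ^ p) ≤
      B ^ 3 * (S.card + S.card) := mul_le_mul_of_nonneg_left (by linarith) (by positivity)
  linarith

end Pool.Agent.helper75.HX
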