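import Pool.Agent.helper75.HX.GMom

/-!
# Decomp : definitions for the atomic decomposition

`ind f m` is the indicator of `{En all f > 4^m}`, `m : ℤ`.  `cc f m j k` is `1` if the average of `ind f m` over the dyadic
rectangle of level `(j-1, k-1)` around `(x, y)` is larger than `1/2` and the average of `ind f (m+1)` is at most `1/2`, and `0`
otherwise.  `part f m = ∑ cc · DD`.
-/

set_option autoImplicit false

namespace Pool.Agent.helper75.HX

open Finset Pool.Agent.helper18.HC

variable {K L : ℕ}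

/-- indicator of `{En all f > 4^m}` -/
noncomputable def ind (f : Dy K → Dy L → ℝ) (m : ℤ) (x : Dy K) (y : Dy L) : ℝ :=
  if (4 : ℝ) ^ m < En all f x y then 1 else 0

/-- average over the rectangle of level `(j-1, k-1)` -/
noncomputable def aa (f : Dy K → Dy L → ℝ) (m : ℤ) (j k : ℕ) (x : Dy K) (y : Dy L) : ℝ :=
  E1 (j - 1) (E2 (k - 1) (ind f m)) x y

/-- selector of the level -/
noncomputable def cc (f : Dy K → Dy L → ℝ) (m : ℤ) (j k : ℕ) (x : Dy K) (y : Dy L) : ℝ :=
  if 1 / 2 < aa f m j k x y ∧ aa f (m + 1) j k x y ≤ 1 / 2 then 1 else 0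

/-- the part of `f` of level `m` -/
noncomputable def part (f : Dy K → Dy L → ℝ) (m : ℤ) (x : Dy K) (y : Dy L) : ℝ :=
  ∑ j ∈ range (K + 1), ∑ k ∈ range (L + 1), cc f m j k x y * DD j k f x y

/-- the enlarged level set -/
noncomputable def Om (f : Dy K → Dy L → ℝ) (m : ℤ) : Finset (Dy K × Dy L) :=
  univ.filter fun z => 1 / 2 < Ms (ind f m) z.1 z.2

private theorem Decomp_ind_nonneg (f : Dy K → Dy L → ℝ) (m : ℤ) (x : Dy K) (y : Dy L) :
    0 ≤ ind f m x y := by
  unfold ind
  split_ifs <;> norm_num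

private theorem Decomp_ind_anti (f : Dy K → Dy L → ℝ) {m m' : ℤ} (h : m ≤ m') (x : Dy K)
    (y : Dy L) : ind f m' x y ≤ ind f m x y := by
  unfold ind
  by_cases h1 : (4 : ℝ) ^ m' < En all f x y
  · rw [if_pos h1, if_pos (lt_of_le_of_lt (zpow_le_zpow_right₀ (by norm_num) h) h1)]
  · rw [if_neg h1]
    split_ifs <;> norm_num

private theorem Decomp_aa_eq (f : Dy K → Dy L → ℝ) (m : ℤ) (j k : ℕ) (x : Dy K) (y : Dy L) :
    aa f m j k x y = e (j - 1) (fun x' => e (k - 1) (fun y' => ind f m x' y') y) x := by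
  unfold aa
  rw [E1_eq]
  congr 1

private theorem Decomp_aa_anti (f : Dy K → Dy L → ℝ) {m m' : ℤ} (h : m ≤ m') (j k : ℕ)
    (x : Dy K) (y : Dy L) : aa f m' j k x y ≤ aa f m j k x y := by
  rw [Decomp_aa_eq, Decomp_aa_eq]
  exact e_mono _ (fun x' => e_mono _ (fun y' => Decomp_ind_anti f h x' y') y) x

theorem meas_cc_x (f : Dy K → Dy L → ℝ) (m : ℤ) (j k : ℕ) (y : Dy L) :
    Meas (j - 1) (fun x => cc f m j k x y) := by
  have h : ∀ m, ∀ x x' : Dy K, (∀ i : Fin K, i.val < j - 1 → x i = x' i) →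
      aa f m j k x y = aa f m j k x' y := by
    intro m x x' hx
    rw [Decomp_aa_eq, Decomp_aa_eq]
    exact meas_e (j - 1) _ x x' hx
  intro x x' hx
  show cc f m j k x y = cc f m j k x' y
  unfold cc
  rw [h m x x' hx, h (m + 1) x x' hx]

theorem meas_cc_y (f : Dy K → Dy L → ℝ) (m : ℤ) (j k : ℕ) (x : Dy K) :
    Meas (k - 1) (fun y => cc f m j k x y) := by
  have h : ∀ m, ∀ y y' : Dy L, (∀ i : Fin L, i.val < k - 1 → y i = y' i) →
      aa f m j k x y = aa f m j k x y' := by
    intro m y y' hy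
    unfold aa
    rw [E1_E2, E2_eq, E2_eq]
    exact meas_e (k - 1) _ y y' hy
  intro y y' hy
  show cc f m j k x y = cc f m j k x y'
  unfold cc
  rw [h m y y' hy, h (m + 1) y y' hy]

/-- `DD_mult` and, beyond the resolution, `DD_large`. -/
theorem DD_part (f : Dy K → Dy L → ℝ) (m : ℤ) (j k : ℕ) (x : Dy K) (y : Dy L) :
    DD j k (part f m) x y = cc f m j k x y * DD j k f x y := by
  by_cases h : K < j ∨ L < k
  · rw [DD_large h, DD_large h, mul_zero]
  · rw [not_or, not_lt, not_lt] at h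
    exact DD_mult (fun j k x y => cc f m j k x y) (fun j k y => meas_cc_x f m j k y)
      (fun j k x => meas_cc_y f m j k x) f h.1 h.2 x y

/-- If `cc ≠ 0` then `Ms (ind f m) ≥ aa > 1/2` (`le_Ms`). -/
theorem supp_part (f : Dy K → Dy L → ℝ) (m : ℤ) : SuppIn (part f m) (Om f m) := by
  intro x y hxy j k
  rw [DD_part]
  by_cases h : 1 / 2 < aa f m j k x y
  · exfalso
    apply hxy
    unfold Om
    rw [Finset.mem_filter]
    refine ⟨Finset.mem_univ _, ?_⟩
    exact lt_of_lt_of_le h (le_Ms (Decomp_ind_nonneg f m) (j - 1) (k - 1) x y)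
  · have : cc f m j k x y = 0 := by
      unfold cc
      rw [if_neg]
      intro h'
      exact h h'.1
    rw [this, zero_mul]

/-- `|Om|/4 ≤ ∑ (Ms ind)² ≤ 16 ∑ ind²` (`Ms_sq`). -/
theorem card_Om_le (f : Dy K → Dy L → ℝ) (m : ℤ) :
    ((Om f m).card : ℝ) ≤ 64 * SS (ind f m) := by
  have h1 : ((Om f m).card : ℝ) * (1 / 4) ≤ SS (fun x y => (Ms (ind f m) x y) ^ 2) := by
    unfold SS
    rw [← Fintype.sum_prod_type' (f := fun x y => (Ms (ind f m) x y) ^ 2)]
    calc ((Om f m).card : ℝ) * (1 / 4) = ∑ z ∈ Om f m, (1 / 4 : ℝ) := by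
          rw [Finset.sum_const, nsmul_eq_mul]
      _ ≤ ∑ z ∈ Om f m, (Ms (ind f m) z.1 z.2) ^ 2 := by
          refine Finset.sum_le_sum fun z hz => ?_
          have h2 : 1 / 2 < Ms (ind f m) z.1 z.2 := by
            unfold Om at hz
            exact (Finset.mem_filter.1 hz).2
          nlinarith
      _ ≤ ∑ z : Dy K × Dy L, (Ms (ind f m) z.1 z.2) ^ 2 :=
          Finset.sum_le_sum_of_subset_of_nonneg (Finset.subset_univ _)
            (fun _ _ _ => sq_nonneg _)
  have h2 := Ms_sq (ind f m)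
  have h3 : SS (fun x y => (ind f m x y) ^ 2) = SS (ind f m) := by
    unfold SS
    refine Finset.sum_congr rfl fun x _ => Finset.sum_congr rfl fun y _ => ?_
    show ind f m x y ^ 2 = ind f m x y
    have h5 : ind f m x y = 1 ∨ ind f m x y = 0 := by
      unfold ind
      by_cases h4 : (4 : ℝ) ^ m < En all f x y
      · exact Or.inl (if_pos h4)
      · exact Or.inr (if_neg h4)
    rcases h5 with h5 | h5 <;> rw [h5] <;> norm_num
  rw [h3] at h2
  linarith

private theorem Decomp_geom (s : Finset ℤ) : ∀ M : ℤ, (∀ m ∈ s, m ≤ M) →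
    ∑ m ∈ s, (4 : ℝ) ^ m ≤ 4 / 3 * (4 : ℝ) ^ M := by
  induction s using Finset.induction_on_max with
  | empty =>
    intro M _
    rw [Finset.sum_empty]
    positivity
  | insert a s ha ih =>
    intro M hM
    have hnot : a ∉ s := fun h => lt_irrefl _ (ha a h)
    rw [Finset.sum_insert hnot]
    have h1 := ih (a - 1) (fun m hm => by have := ha m hm; omega)
    have h2 : (4 : ℝ) ^ (a - 1) = (4 : ℝ) ^ a / 4 := by
      rw [zpow_sub₀ (by norm_num), zpow_one]
    have h3 : (4 : ℝ) ^ a ≤ (4 : ℝ) ^ M :=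
      zpow_le_zpow_right₀ (by norm_num) (hM a (Finset.mem_insert_self _ _))
    rw [h2] at h1
    linarith

private theorem Decomp_geom' (s : Finset ℤ) {v : ℝ} (hv : 0 ≤ v) :
    ∑ m ∈ s, (4 : ℝ) ^ m * (if (4 : ℝ) ^ m < v then 1 else 0) ≤ 4 / 3 * v := by
  have h1 : ∑ m ∈ s, (4 : ℝ) ^ m * (if (4 : ℝ) ^ m < v then 1 else 0) =
      ∑ m ∈ s.filter (fun m => (4 : ℝ) ^ m < v), (4 : ℝ) ^ m := by
    rw [Finset.sum_filter]
    refine Finset.sum_congr rfl fun m _ => ?_
    split_ifs
    · rw [mul_one]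
    · rw [mul_zero]
  rw [h1]
  rcases (s.filter (fun m => (4 : ℝ) ^ m < v)).eq_empty_or_nonempty with he | hne
  · rw [he, Finset.sum_empty]
    positivity
  · obtain ⟨M, hM⟩ : ∃ M, M = (s.filter (fun m => (4 : ℝ) ^ m < v)).max' hne := ⟨_, rfl⟩
    have hMm : M ∈ s.filter (fun m => (4 : ℝ) ^ m < v) := by
      rw [hM]
      exact Finset.max'_mem _ _
    have h2 := Decomp_geom (s.filter (fun m => (4 : ℝ) ^ m < v)) M
      (fun m hm => by rw [hM]; exact Finset.le_max' _ m hm)
    have h3 := (Finset.mem_filter.1 hMm).2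
    linarith

private theorem Decomp_En_nonneg (f : Dy K → Dy L → ℝ) (x : Dy K) (y : Dy L) :
    0 ≤ En all f x y := by
  unfold En
  refine Finset.sum_nonneg fun j _ => Finset.sum_nonneg fun k _ => ?_
  split_ifs
  · exact sq_nonneg _
  · exact le_rfl

/-- Total size of the level sets: `∑_{m ∈ s} 4^m 1{4^m < e} ≤ (4/3) e` for `e ≥ 0` (geometric series),
`SS_En_all`. -/
theorem sum_level (f : Dy K → Dy L → ℝ) (s : Finset ℤ) :
    ∑ m ∈ s, (4 : ℝ) ^ m * SS (ind f m) ≤ 4 / 3 * SS (fun x y => f x y ^ 2) := by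
  rw [← SS_En_all]
  have h1 : ∑ m ∈ s, (4 : ℝ) ^ m * SS (ind f m) =
      ∑ x, ∑ y, ∑ m ∈ s, (4 : ℝ) ^ m * ind f m x y := by
    unfold SS
    simp only [Finset.mul_sum]
    rw [Finset.sum_comm]
    exact Finset.sum_congr rfl fun x _ => Finset.sum_comm
  rw [h1]
  unfold SS
  rw [Finset.mul_sum]
  refine Finset.sum_le_sum fun x _ => ?_
  rw [Finset.mul_sum]
  refine Finset.sum_le_sum fun y _ => ?_
  exact Decomp_geom' s (Decomp_En_nonneg f x y)

private theorem Decomp_DD_le (f : Dy K → Dy L → ℝ) {j k : ℕ} (hj : j ∈ range (K + 1))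
    (hk : k ∈ range (L + 1)) (x : Dy K) (y : Dy L) : DD j k f x y ^ 2 ≤ En all f x y := by
  unfold En
  have h1 : DD j k f x y ^ 2 ≤
      ∑ k ∈ range (L + 1), (if all j k then (DD j k f x y) ^ 2 else 0) := by
    refine le_trans (le_of_eq ?_) (Finset.single_le_sum
      (f := fun k => if all j k then (DD j k f x y) ^ 2 else 0) (fun k _ => ?_) hk)
    · exact (if_pos (rfl : all j k = true)).symm
    · exact le_of_le_of_eq (sq_nonneg (DD j k f x y)) (if_pos (rfl : all j k = true)).symm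
  refine h1.trans (Finset.single_le_sum
    (f := fun j => ∑ k ∈ range (L + 1), (if all j k then (DD j k f x y) ^ 2 else 0))
    (fun j _ => ?_) hj)
  refine Finset.sum_nonneg fun k _ => ?_
  exact le_of_le_of_eq (sq_nonneg (DD j k f x y)) (if_pos (rfl : all j k = true)).symm

private theorem Decomp_cyl {j : ℕ} {x x' : Dy K} (h : x' ∈ cyl j x) :
    ∀ i : Fin K, i.val < j → x' i = x i := by
  unfold cyl at h
  exact (Finset.mem_filter.1 h).2

/-- average of a function which is at least `c` on the cylinder -/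
private theorem Decomp_e_ge {j : ℕ} {h : Dy K → ℝ} {c : ℝ} (x : Dy K)
    (hc : ∀ x' ∈ cyl j x, c ≤ h x') : c ≤ e j h x := by
  unfold e
  have hpos : 0 < ((cyl j x).card : ℝ) := by
    have : x ∈ cyl j x := by
      unfold cyl
      rw [Finset.mem_filter]
      exact ⟨Finset.mem_univ _, fun _ _ => rfl⟩
    exact_mod_cast Finset.card_pos.2 ⟨x, this⟩
  rw [le_div_iff₀ hpos]
  have h1 : ∑ x' ∈ cyl j x, c ≤ ∑ x' ∈ cyl j x, h x' := Finset.sum_le_sum hc
  rw [Finset.sum_const, nsmul_eq_mul] at h1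
  linarith

private theorem Decomp_aa_one (f : Dy K → Dy L → ℝ) {m : ℤ} {j k : ℕ} (hj : j ∈ range (K + 1))
    (hk : k ∈ range (L + 1)) {x : Dy K} {y : Dy L} (h : (4 : ℝ) ^ m < DD j k f x y ^ 2) :
    1 / 2 < aa f m j k x y := by
  have h1 : 1 ≤ aa f m j k x y := by
    rw [Decomp_aa_eq]
    refine Decomp_e_ge x fun x' hx' => ?_
    refine Decomp_e_ge y fun y' hy' => ?_
    have e1 : DD j k f x' y' ^ 2 = DD j k f x y ^ 2 := by
      have e2 : DD j k f x' y' ^ 2 = DD j k f x y' ^ 2 :=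
        meas_DD_sq_x j k f y' x' x (Decomp_cyl hx')
      have e3 : DD j k f x y' ^ 2 = DD j k f x y ^ 2 :=
        meas_DD_sq_y j k f x y' y (Decomp_cyl hy')
      rw [e2, e3]
    have e4 : (4 : ℝ) ^ m < En all f x' y' :=
      lt_of_lt_of_le (by rw [e1]; exact h) (Decomp_DD_le f hj hk x' y')
    unfold ind
    rw [if_pos e4]
  linarith

private theorem Decomp_aa_zero (f : Dy K → Dy L → ℝ) {m : ℤ} (j k : ℕ)
    (h : ∀ x y, En all f x y ≤ (4 : ℝ) ^ m) (x : Dy K) (y : Dy L) :
    ¬ 1 / 2 < aa f m j k x y := by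
  have h1 : ∀ x' : Dy K, (fun y' => ind f m x' y') = fun _ => 0 := by
    intro x'
    funext y'
    unfold ind
    rw [if_neg (not_lt.2 (h x' y'))]
  have h2 : aa f m j k x y = 0 := by
    rw [Decomp_aa_eq]
    have h3 : (fun x' => e (k - 1) (fun y' => ind f m x' y') y) = fun _ => 0 := by
      funext x'
      rw [h1 x']
      exact e_const_zero _ _
    rw [h3]
    exact e_const_zero _ _
  rw [h2]
  norm_num

private theorem Decomp_tele (M : ℕ) (b : ℤ → ℝ) :
    ∑ m ∈ Icc (-(M : ℤ)) M, (b m - b (m + 1)) = b (-(M : ℤ)) - b (M + 1) := by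
  have h1 : ∑ m ∈ Icc (-(M : ℤ)) M, (b m - b (m + 1)) =
      ∑ i ∈ range (2 * M + 1), ((fun i : ℕ => b ((i : ℤ) - M)) i -
        (fun i : ℕ => b ((i : ℤ) - M)) (i + 1)) := by
    refine Finset.sum_nbij' (fun m => (m + M).toNat) (fun i => (i : ℤ) - M) ?_ ?_ ?_ ?_ ?_
    · intro m hm
      rw [Finset.mem_Icc] at hm
      rw [Finset.mem_range]
      omega
    · intro i hi
      rw [Finset.mem_range] at hi
      rw [Finset.mem_Icc]
      omega
    · intro m hm
      rw [Finset.mem_Icc] at hm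
      omega
    · intro i _
      omega
    · intro m hm
      rw [Finset.mem_Icc] at hm
      have e1 : (((m + M).toNat : ℕ) : ℤ) - M = m := by omega
      have e2 : ((((m + M).toNat + 1 : ℕ)) : ℤ) - M = m + 1 := by push_cast; omega
      simp only [e1, e2]
  rw [h1, Finset.sum_range_sub']
  congr 2
  · push_cast
    ring
  · push_cast
    ring

/-- For `M` large every nonzero double difference has exactly one level, so `f` is the sum of its parts.
If `DD j k f x y ≠ 0` (`j ≤ K`, `k ≤ L`), then `(DD j k f)²` is constant on the rectangle of level `(j-1, k-1)`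
(`meas_DD_sq_x`, `meas_DD_sq_y`), so `En all f ≥ (DD j k f x y)²` there and `aa f m j k x y = 1` if
`4^m < (DD j k f x y)²`; and `aa f m j k x y = 0` if `4^m ≥ max En`.  `aa` is decreasing in `m`, so `cc f m j k x y = 1` for exactly
one `m` (the largest with `aa > 1/2`), and this `m` is in `[-M, M]` for `M` large. -/
theorem sum_part (f : Dy K → Dy L → ℝ) :
    ∃ M : ℕ, ∀ x y, ∑ m ∈ Icc (-(M : ℤ)) M, part f m x y = f x y := by
  have hA : ∀ᶠ M : ℕ in Filter.atTop, ∀ x : Dy K, ∀ y : Dy L, ∀ j ∈ range (K + 1),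
      ∀ k ∈ range (L + 1), DD j k f x y ≠ 0 → (4 : ℝ) ^ (-(M : ℤ)) < DD j k f x y ^ 2 := by
    rw [Filter.eventually_all]
    intro x
    rw [Filter.eventually_all]
    intro y
    rw [Filter.eventually_all_finset]
    intro j _
    rw [Filter.eventually_all_finset]
    intro k _
    by_cases h0 : DD j k f x y = 0
    · exact Filter.Eventually.of_forall fun M h => absurd h0 h
    · have hpos : 0 < DD j k f x y ^ 2 := by positivity
      have ht : Filter.Tendsto (fun M : ℕ => ((1 / 4 : ℝ)) ^ M) Filter.atTop (nhds 0) :=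
        tendsto_pow_atTop_nhds_zero_of_lt_one (by norm_num) (by norm_num)
      filter_upwards [ht.eventually_lt_const hpos] with M hM _
      have e1 : (4 : ℝ) ^ (-(M : ℤ)) = (1 / 4 : ℝ) ^ M := by
        rw [zpow_neg, zpow_natCast, one_div, inv_pow]
      rw [e1]
      exact hM
  have hB : ∀ᶠ M : ℕ in Filter.atTop, ∀ x : Dy K, ∀ y : Dy L, En all f x y ≤ (4 : ℝ) ^ M := by
    rw [Filter.eventually_all]
    intro x
    rw [Filter.eventually_all]
    intro y
    exact (tendsto_pow_atTop_atTop_of_one_lt (by norm_num)).eventually_ge_atTop _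
  obtain ⟨M, hMA, hMB⟩ := (hA.and hB).exists
  refine ⟨M, fun x y => ?_⟩
  have hsum : ∑ m ∈ Icc (-(M : ℤ)) M, part f m x y =
      ∑ j ∈ range (K + 1), ∑ k ∈ range (L + 1),
        (∑ m ∈ Icc (-(M : ℤ)) M, cc f m j k x y) * DD j k f x y := by
    unfold part
    rw [Finset.sum_comm]
    refine Finset.sum_congr rfl fun j _ => ?_
    rw [Finset.sum_comm]
    refine Finset.sum_congr rfl fun k _ => ?_
    rw [Finset.sum_mul]
  rw [hsum, ← sum_DD_all f x y]
  refine Finset.sum_congr rfl fun j hj => Finset.sum_congr rfl fun k hk => ?_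
  by_cases h0 : DD j k f x y = 0
  · rw [h0, mul_zero]
  · obtain ⟨b, hb⟩ : ∃ b : ℤ → ℝ, b = fun m => if 1 / 2 < aa f m j k x y then 1 else 0 :=
      ⟨_, rfl⟩
    have hcc : ∀ m, cc f m j k x y = b m - b (m + 1) := by
      intro m
      have hanti := Decomp_aa_anti f (by omega : m ≤ m + 1) j k x y
      rw [hb]
      unfold cc
      by_cases h1 : 1 / 2 < aa f m j k x y
      · by_cases h2 : 1 / 2 < aa f (m + 1) j k x y
        · rw [if_neg (fun h => absurd h.2 (not_le.2 h2))]
          simp only [h1, h2, if_true]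
          norm_num
        · rw [if_pos ⟨h1, not_lt.1 h2⟩]
          simp only [h1, h2, if_true, if_false]
          norm_num
      · have h2 : ¬ 1 / 2 < aa f (m + 1) j k x y := fun h => h1 (lt_of_lt_of_le h hanti)
        rw [if_neg (fun h => h1 h.1)]
        simp only [h1, h2, if_false]
        norm_num
    rw [Finset.sum_congr rfl fun m _ => hcc m, Decomp_tele]
    have hb1 : b (-(M : ℤ)) = 1 := by
      rw [hb]
      exact if_pos (Decomp_aa_one f hj hk (hMA x y j hj k hk h0))
    have hb2 : b (M + 1) = 0 := by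
      rw [hb]
      refine if_neg (Decomp_aa_zero f j k (fun x' y' => ?_) x y)
      refine (hMB x' y').trans ?_
      rw [← zpow_natCast]
      exact zpow_le_zpow_right₀ (by norm_num) (by omega)
    rw [hb1, hb2]
    ring

end Pool.Agent.helper75.HX
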