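import Pool.Agent.helper18.HC.Two

/-!
# Dyadic hyperbolic sums (`MP_a22eb9_an`): definitions

`Dy K` = dyadic intervals of length `2^-K`, `e j h` = average over dyadic intervals of length `2^-j`,
`d2 j h` = martingale difference (`d2 0 = e 0`), `E1, E2, D1, D2` the operators in the two variables
(from `Pool.Agent.helper18.HC`).  Regions of index pairs are functions `ρ : ℕ → ℕ → Bool`.
-/

set_option autoImplicit false

namespace Pool.Agent.helper75.HX

open Finset Pool.Agent.helper18.HC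

variable {K L : ℕ}

/-- `g` depends only on the first `j` digits. -/
def Meas (j : ℕ) (g : Dy K → ℝ) : Prop :=
  ∀ x x' : Dy K, (∀ i : Fin K, i.val < j → x i = x' i) → g x = g x'

/-- The double martingale difference. -/
noncomputable def DD (j k : ℕ) (f : Dy K → Dy L → ℝ) : Dy K → Dy L → ℝ := D1 j (D2 k f)

/-- The partial sum over a region. -/
noncomputable def Rs (ρ : ℕ → ℕ → Bool) (f : Dy K → Dy L → ℝ) (x : Dy K) (y : Dy L) : ℝ :=
  ∑ j ∈ range (K + 1), ∑ k ∈ range (L + 1), if ρ j k then DD j k f x y else 0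

/-- The energy in a region. -/
noncomputable def En (ρ : ℕ → ℕ → Bool) (f : Dy K → Dy L → ℝ) (x : Dy K) (y : Dy L) : ℝ :=
  ∑ j ∈ range (K + 1), ∑ k ∈ range (L + 1), if ρ j k then (DD j k f x y) ^ 2 else 0

/-- The square function in the first variable of the partial sum over a region. -/
noncomputable def Vr (ρ : ℕ → ℕ → Bool) (f : Dy K → Dy L → ℝ) (x : Dy K) (y : Dy L) : ℝ :=
  ∑ j ∈ range (K + 1), (∑ k ∈ range (L + 1), if ρ j k then DD j k f x y else 0) ^ 2

/-- all index pairs -/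
def all : ℕ → ℕ → Bool := fun _ _ => true

/-- `j + k < m` -/
def lt (m : ℕ) : ℕ → ℕ → Bool := fun j k => decide (j + k < m)

/-- `s ≤ j + k < t` -/
def btw (s t : ℕ) : ℕ → ℕ → Bool := fun j k => decide (s ≤ j + k ∧ j + k < t)

/-- The hyperbolic sum `∑_{j+k<m}`. -/
noncomputable def Hs (m : ℕ) (f : Dy K → Dy L → ℝ) : Dy K → Dy L → ℝ := Rs (lt m) f

/-- maximal function in the second variable -/
noncomputable def M2 (f : Dy K → Dy L → ℝ) (x : Dy K) (y : Dy L) : ℝ := Sup2 (f x) y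

/-- maximal function in the first variable -/
noncomputable def M1 (f : Dy K → Dy L → ℝ) (x : Dy K) (y : Dy L) : ℝ :=
  Sup2 (fun x' => f x' y) x

/-- strong maximal function -/
noncomputable def Ms (f : Dy K → Dy L → ℝ) : Dy K → Dy L → ℝ := M1 (M2 f)

/-- `∑_j (D1 j f)²` -/
noncomputable def F1 (f : Dy K → Dy L → ℝ) (x : Dy K) (y : Dy L) : ℝ :=
  ∑ j ∈ range (K + 1), (D1 j f x y) ^ 2

/-- `∑_k (D2 k f)²` -/
noncomputable def F2 (f : Dy K → Dy L → ℝ) (x : Dy K) (y : Dy L) : ℝ :=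
  ∑ k ∈ range (L + 1), (D2 k f x y) ^ 2

/-- `∑_j (M2 (D1 j f))²` -/
noncomputable def G1 (f : Dy K → Dy L → ℝ) (x : Dy K) (y : Dy L) : ℝ :=
  ∑ j ∈ range (K + 1), (M2 (D1 j f) x y) ^ 2

/-- `∑_k (M1 (D2 k f))²` -/
noncomputable def G2 (f : Dy K → Dy L → ℝ) (x : Dy K) (y : Dy L) : ℝ :=
  ∑ k ∈ range (L + 1), (M1 (D2 k f) x y) ^ 2

/-- The sum over the grid. -/
noncomputable def SS (F : Dy K → Dy L → ℝ) : ℝ := ∑ x, ∑ y, F x y

/-- All double differences of `f` vanish outside `S`. -/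
def SuppIn (f : Dy K → Dy L → ℝ) (S : Finset (Dy K × Dy L)) : Prop :=
  ∀ x y, (x, y) ∉ S → ∀ j k, DD j k f x y = 0

/-- An atom on `S`: supported in `S`, with `∑ En^q ≤ (8 q²)^q |S|` for all `q ≥ 1`. -/
def Atom (f : Dy K → Dy L → ℝ) (S : Finset (Dy K × Dy L)) : Prop :=
  SuppIn f S ∧ ∀ q : ℕ, 1 ≤ q → SS (fun x y => En all f x y ^ q) ≤ (8 * (q : ℝ) ^ 2) ^ q * S.card

end Pool.Agent.helper75.HX
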