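import Pool.Agent.helper75.HX.One1

/-!
# Expo : the exponential inequality for vector valued dyadic martingales

`exp_ineq`: let `Z_m = (∑_{s ≤ j < m} d2 j (h i j))_i`, `W_m = ∑_{s ≤ j < m} ∑_i (d2 j (h i j))²`.  Claim (induction on `m`):
`∑_x w cosh(lam |Z_m|) exp(-lam² W_m/2) ≤ ∑_x w`.  Step from `m` to `m+1` (`m ≤ K`): for `m ≥ 1` the functions
`w, Z_m, W_m` and `|v|²` (`v_i = d2 m (h i m)`) are measurable at level `m - 1` (`meas_d2_sq`, `Meas.mono`; note `s - 1 ≤ m - 1`),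
`v` changes sign under `flip (m-1)`; average the sum with its flip (`sum_flip`):
`(cosh(lam|Z+v|) + cosh(lam|Z-v|))/2 ≤ cosh(lam|Z|) cosh(lam|v|) ≤ cosh(lam|Z|) exp(lam²|v|²/2)`
(`cosh_norm_avg`, `Real.cosh_le_exp_half_sq`).  For `m = 0` (so `s = 0`, `Z = 0`, `W = 0`): directly
`cosh(lam|v|) exp(-lam²|v|²/2) ≤ 1`.
`cosh_norm_avg`: in Euclidean space, `t ↦ cosh √t` is convex and increasing on `t ≥ 0`
(power series), so with `A = |Z|²+|v|²`, `b = 2⟪Z,v⟫`, `|b| ≤ B = 2|Z||v|`: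
`cosh √(A+b) + cosh √(A-b) ≤ cosh √(A+B) + cosh √(A-B) = 2 cosh|Z| cosh|v|`.
Alternative: `cosh √t = ∑ t^n/(2n)!` and `(A+b)^n + (A-b)^n ≤ (A+B)^n + (A-B)^n` termwise (only even powers of `b`).
-/

set_option autoImplicit false

namespace Pool.Agent.helper75.HX

open Finset Pool.Agent.helper18.HC

variable {K : ℕ}

private theorem Expo_pow (A b B : ℝ) (hA : 0 ≤ A) (hB : 0 ≤ B) (hb : |b| ≤ B) (n : ℕ) :
    (0 ≤ (A + b) ^ n + (A - b) ^ n ∧ (A + b) ^ n + (A - b) ^ n ≤ (A + B) ^ n + (A - B) ^ n) ∧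
      (0 ≤ b * ((A + b) ^ n - (A - b) ^ n) ∧
        b * ((A + b) ^ n - (A - b) ^ n) ≤ B * ((A + B) ^ n - (A - B) ^ n)) := by
  have hbB : b ^ 2 ≤ B ^ 2 := by
    rw [← sq_abs b]
    exact pow_le_pow_left₀ (abs_nonneg b) hb 2
  induction n with
  | zero => simp
  | succ n ih =>
    obtain ⟨⟨h1, h2⟩, h3, h4⟩ := ih
    have e1 : (A + b) ^ (n + 1) + (A - b) ^ (n + 1) =
        A * ((A + b) ^ n + (A - b) ^ n) + b * ((A + b) ^ n - (A - b) ^ n) := by ring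
    have e2 : (A + B) ^ (n + 1) + (A - B) ^ (n + 1) =
        A * ((A + B) ^ n + (A - B) ^ n) + B * ((A + B) ^ n - (A - B) ^ n) := by ring
    have e3 : b * ((A + b) ^ (n + 1) - (A - b) ^ (n + 1)) =
        A * (b * ((A + b) ^ n - (A - b) ^ n)) + b ^ 2 * ((A + b) ^ n + (A - b) ^ n) := by ring
    have e4 : B * ((A + B) ^ (n + 1) - (A - B) ^ (n + 1)) =
        A * (B * ((A + B) ^ n - (A - B) ^ n)) + B ^ 2 * ((A + B) ^ n + (A - B) ^ n) := by ring
    rw [e1, e2, e3, e4]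
    have h5 : b ^ 2 * ((A + b) ^ n + (A - b) ^ n) ≤ B ^ 2 * ((A + B) ^ n + (A - B) ^ n) :=
      mul_le_mul hbB h2 h1 (sq_nonneg B)
    exact ⟨⟨by positivity, add_le_add (mul_le_mul_of_nonneg_left h2 hA) h4⟩, by positivity,
      add_le_add (mul_le_mul_of_nonneg_left h4 hA) h5⟩

private theorem Expo_hasSum (t : ℝ) (ht : 0 ≤ t) :
    HasSum (fun n : ℕ => t ^ n / ((2 * n).factorial : ℝ)) (Real.cosh (Real.sqrt t)) := by
  have h := Real.hasSum_cosh (Real.sqrt t)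
  refine h.congr_fun ?_
  intro n
  rw [pow_mul, Real.sq_sqrt ht]

private theorem Expo_cosh (A b B : ℝ) (hA : 0 ≤ A) (hB : 0 ≤ B) (hb : |b| ≤ B) (hBA : B ≤ A) :
    Real.cosh (Real.sqrt (A + b)) + Real.cosh (Real.sqrt (A - b)) ≤
      Real.cosh (Real.sqrt (A + B)) + Real.cosh (Real.sqrt (A - B)) := by
  have hb' := abs_le.1 hb
  have h1 := (Expo_hasSum (A + b) (by linarith)).add (Expo_hasSum (A - b) (by linarith))
  have h2 := (Expo_hasSum (A + B) (by linarith)).add (Expo_hasSum (A - B) (by linarith))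
  refine hasSum_le ?_ h1 h2
  intro n
  rw [← add_div, ← add_div]
  exact div_le_div_of_nonneg_right (Expo_pow A b B hA hB hb n).1.2 (by positivity)

theorem cosh_norm_avg {J : Type} [Fintype J] (Z v : J → ℝ) :
    (Real.cosh (Real.sqrt (∑ i, (Z i + v i) ^ 2)) + Real.cosh (Real.sqrt (∑ i, (Z i - v i) ^ 2))) / 2 ≤
      Real.cosh (Real.sqrt (∑ i, Z i ^ 2)) * Real.cosh (Real.sqrt (∑ i, v i ^ 2)) := by
  set p := Real.sqrt (∑ i, Z i ^ 2) with hp
  set q := Real.sqrt (∑ i, v i ^ 2) with hq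
  have hp0 : 0 ≤ p := Real.sqrt_nonneg _
  have hq0 : 0 ≤ q := Real.sqrt_nonneg _
  have hp2 : p ^ 2 = ∑ i, Z i ^ 2 := Real.sq_sqrt (Finset.sum_nonneg fun i _ => sq_nonneg _)
  have hq2 : q ^ 2 = ∑ i, v i ^ 2 := Real.sq_sqrt (Finset.sum_nonneg fun i _ => sq_nonneg _)
  have e1 : ∑ i, (Z i + v i) ^ 2 = (p ^ 2 + q ^ 2) + 2 * ∑ i, Z i * v i := by
    rw [hp2, hq2, Finset.mul_sum, ← Finset.sum_add_distrib, ← Finset.sum_add_distrib]
    exact Finset.sum_congr rfl fun i _ => by ring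
  have e2 : ∑ i, (Z i - v i) ^ 2 = (p ^ 2 + q ^ 2) - 2 * ∑ i, Z i * v i := by
    rw [hp2, hq2, Finset.mul_sum, ← Finset.sum_add_distrib, ← Finset.sum_sub_distrib]
    exact Finset.sum_congr rfl fun i _ => by ring
  have hcs : |2 * ∑ i, Z i * v i| ≤ 2 * (p * q) := by
    rw [abs_mul, abs_two]
    refine mul_le_mul_of_nonneg_left ?_ (by norm_num)
    refine abs_le_of_sq_le_sq ?_ (by positivity)
    rw [mul_pow, hp2, hq2]
    exact Finset.sum_mul_sq_le_sq_mul_sq _ _ _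
  have h := Expo_cosh (p ^ 2 + q ^ 2) (2 * ∑ i, Z i * v i) (2 * (p * q)) (by positivity)
    (by positivity) hcs (by nlinarith [sq_nonneg (p - q)])
  have e3 : p ^ 2 + q ^ 2 + 2 * (p * q) = (p + q) ^ 2 := by ring
  have e4 : p ^ 2 + q ^ 2 - 2 * (p * q) = (p - q) ^ 2 := by ring
  rw [e3, e4, Real.sqrt_sq_eq_abs, Real.sqrt_sq_eq_abs, Real.cosh_abs, Real.cosh_abs,
    Real.cosh_add, Real.cosh_sub] at h
  rw [e1, e2]
  linarith

/-- the pointwise step -/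
private theorem Expo_step {J : Type} [Fintype J] (Z v : J → ℝ) (W lam : ℝ) :
    Real.cosh (lam * Real.sqrt (∑ i, (Z i + v i) ^ 2)) *
        Real.exp (-(lam ^ 2 / 2 * (W + ∑ i, v i ^ 2))) +
      Real.cosh (lam * Real.sqrt (∑ i, (Z i - v i) ^ 2)) *
        Real.exp (-(lam ^ 2 / 2 * (W + ∑ i, v i ^ 2))) ≤
      2 * (Real.cosh (lam * Real.sqrt (∑ i, Z i ^ 2)) * Real.exp (-(lam ^ 2 / 2 * W))) := by
  have hs : ∀ u : J → ℝ, Real.cosh (lam * Real.sqrt (∑ i, u i ^ 2)) =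
      Real.cosh (Real.sqrt (∑ i, (lam * u i) ^ 2)) := by
    intro u
    have h1 : ∑ i, (lam * u i) ^ 2 = lam ^ 2 * ∑ i, u i ^ 2 := by
      rw [Finset.mul_sum]
      exact Finset.sum_congr rfl fun i _ => by ring
    rw [h1, Real.sqrt_mul (sq_nonneg lam), Real.sqrt_sq_eq_abs, ← Real.cosh_abs (lam * _), abs_mul,
      abs_of_nonneg (Real.sqrt_nonneg _)]
  have h1 := cosh_norm_avg (fun i => lam * Z i) (fun i => lam * v i)
  have h2 : Real.cosh (Real.sqrt (∑ i, (lam * v i) ^ 2)) ≤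
      Real.exp (lam ^ 2 / 2 * ∑ i, v i ^ 2) := by
    refine (Real.cosh_le_exp_half_sq _).trans (Real.exp_le_exp.2 (le_of_eq ?_))
    rw [Real.sq_sqrt (Finset.sum_nonneg fun i _ => sq_nonneg _), Finset.mul_sum, Finset.sum_div]
    exact Finset.sum_congr rfl fun i _ => by ring
  have e1 : ∑ i, (lam * Z i + lam * v i) ^ 2 = ∑ i, (lam * (Z i + v i)) ^ 2 :=
    Finset.sum_congr rfl fun i _ => by ring
  have e2 : ∑ i, (lam * Z i - lam * v i) ^ 2 = ∑ i, (lam * (Z i - v i)) ^ 2 :=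
    Finset.sum_congr rfl fun i _ => by ring
  simp only [e1, e2] at h1
  rw [hs (fun i => Z i + v i), hs (fun i => Z i - v i), hs Z, ← add_mul]
  have h3 : Real.exp (-(lam ^ 2 / 2 * (W + ∑ i, v i ^ 2))) =
      Real.exp (-(lam ^ 2 / 2 * W)) * Real.exp (-(lam ^ 2 / 2 * ∑ i, v i ^ 2)) := by
    rw [← Real.exp_add]
    congr 1
    ring
  have h4 : Real.exp (lam ^ 2 / 2 * ∑ i, v i ^ 2) * Real.exp (-(lam ^ 2 / 2 * ∑ i, v i ^ 2)) = 1 := by
    rw [← Real.exp_add]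
    simp
  have h5 : Real.cosh (Real.sqrt (∑ i, (lam * (Z i + v i)) ^ 2)) +
      Real.cosh (Real.sqrt (∑ i, (lam * (Z i - v i)) ^ 2)) ≤
      2 * (Real.cosh (Real.sqrt (∑ i, (lam * Z i) ^ 2)) *
        Real.exp (lam ^ 2 / 2 * ∑ i, v i ^ 2)) := by
    have h6 := mul_le_mul_of_nonneg_left h2 (Real.cosh_pos (Real.sqrt (∑ i, (lam * Z i) ^ 2))).le
    linarith
  calc _ ≤ 2 * (Real.cosh (Real.sqrt (∑ i, (lam * Z i) ^ 2)) *
        Real.exp (lam ^ 2 / 2 * ∑ i, v i ^ 2)) *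
        Real.exp (-(lam ^ 2 / 2 * (W + ∑ i, v i ^ 2))) :=
        mul_le_mul_of_nonneg_right h5 (Real.exp_pos _).le
    _ = 2 * (Real.cosh (Real.sqrt (∑ i, (lam * Z i) ^ 2)) * Real.exp (-(lam ^ 2 / 2 * W))) *
        (Real.exp (lam ^ 2 / 2 * ∑ i, v i ^ 2) *
          Real.exp (-(lam ^ 2 / 2 * ∑ i, v i ^ 2))) := by rw [h3]; ring
    _ = _ := by rw [h4, mul_one]

private theorem Expo_ind {J : Type} [Fintype J] (s : ℕ) (h : J → ℕ → Dy K → ℝ) (w : Dy K → ℝ)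
    (hw : ∀ x, 0 ≤ w x) (hm : Meas (s - 1) w) (lam : ℝ) (n : ℕ) (hn : s + n ≤ K + 1) :
    ∑ x, w x * (Real.cosh (lam * Real.sqrt (∑ i, (∑ j ∈ Ico s (s + n), d2 j (h i j) x) ^ 2)) *
      Real.exp (-(lam ^ 2 / 2 * ∑ j ∈ Ico s (s + n), ∑ i, (d2 j (h i j) x) ^ 2))) ≤ ∑ x, w x := by
  induction n with
  | zero => simp
  | succ n ih =>
    have ih' := ih (by omega)
    have hle : s ≤ s + n := Nat.le_add_right s n
    have hsplit1 : ∀ (i : J) (x : Dy K), ∑ j ∈ Ico s (s + (n + 1)), d2 j (h i j) x =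
        ∑ j ∈ Ico s (s + n), d2 j (h i j) x + d2 (s + n) (h i (s + n)) x := by
      intro i x
      rw [← add_assoc, Finset.sum_Ico_succ_top hle]
    have hsplit2 : ∀ x : Dy K, ∑ j ∈ Ico s (s + (n + 1)), ∑ i, (d2 j (h i j) x) ^ 2 =
        ∑ j ∈ Ico s (s + n), ∑ i, (d2 j (h i j) x) ^ 2 +
          ∑ i, (d2 (s + n) (h i (s + n)) x) ^ 2 := by
      intro x
      rw [← add_assoc, Finset.sum_Ico_succ_top hle]
    simp only [hsplit1, hsplit2]
    rcases Nat.eq_zero_or_pos (s + n) with h0 | hpos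
    · -- the first step
      have hs0 : s = 0 := by omega
      have hn0 : n = 0 := by omega
      subst hs0 hn0
      simp only [Nat.add_zero, Ico_self, sum_empty, zero_add]
      refine Finset.sum_le_sum fun x _ => ?_
      have h1 := Expo_step (fun _ : J => (0 : ℝ)) (fun i => d2 0 (h i 0) x) 0 lam
      simp only [zero_add, zero_sub, neg_sq] at h1
      have h2 : Real.cosh (lam * Real.sqrt (∑ i : J, (0 : ℝ) ^ 2)) *
          Real.exp (-(lam ^ 2 / 2 * 0)) = 1 := by simp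
      rw [h2] at h1
      have h3 : Real.cosh (lam * Real.sqrt (∑ i, (d2 0 (h i 0) x) ^ 2)) *
          Real.exp (-(lam ^ 2 / 2 * ∑ i, (d2 0 (h i 0) x) ^ 2)) ≤ 1 := by linarith
      calc _ ≤ w x * 1 := mul_le_mul_of_nonneg_left h3 (hw x)
        _ = w x := mul_one _
    · obtain ⟨m, hm'⟩ : ∃ m, s + n = m + 1 := ⟨s + n - 1, by omega⟩
      have hmK : m < K := by omega
      set G : Dy K → ℝ := fun x => w x * (Real.cosh (lam * Real.sqrt
        (∑ i, (∑ j ∈ Ico s (s + n), d2 j (h i j) x + d2 (s + n) (h i (s + n)) x) ^ 2)) *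
        Real.exp (-(lam ^ 2 / 2 * (∑ j ∈ Ico s (s + n), ∑ i, (d2 j (h i j) x) ^ 2 +
          ∑ i, (d2 (s + n) (h i (s + n)) x) ^ 2)))) with hG
      have hwf : ∀ x, w (flip m x) = w x := fun x => meas_flip (hm.mono (by omega)) x
      have hdf : ∀ (i : J) (j : ℕ), j ∈ Ico s (s + n) → ∀ x,
          d2 j (h i j) (flip m x) = d2 j (h i j) x := by
        intro i j hj x
        exact meas_flip ((meas_d2 j (h i j)).mono (by rw [Finset.mem_Ico] at hj; omega)) x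
      have hvf : ∀ (i : J) (x : Dy K), d2 (s + n) (h i (s + n)) (flip m x) =
          -d2 (s + n) (h i (s + n)) x := by
        intro i x
        rw [hm']
        exact d2_flip hmK _ x
      have hGf : ∀ x, G (flip m x) = w x * (Real.cosh (lam * Real.sqrt
          (∑ i, (∑ j ∈ Ico s (s + n), d2 j (h i j) x - d2 (s + n) (h i (s + n)) x) ^ 2)) *
          Real.exp (-(lam ^ 2 / 2 * (∑ j ∈ Ico s (s + n), ∑ i, (d2 j (h i j) x) ^ 2 +
            ∑ i, (d2 (s + n) (h i (s + n)) x) ^ 2)))) := by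
        intro x
        have e1 : ∀ i : J, ∑ j ∈ Ico s (s + n), d2 j (h i j) (flip m x) =
            ∑ j ∈ Ico s (s + n), d2 j (h i j) x := fun i =>
          Finset.sum_congr rfl fun j hj => hdf i j hj x
        have e2 : ∑ j ∈ Ico s (s + n), ∑ i, (d2 j (h i j) (flip m x)) ^ 2 =
            ∑ j ∈ Ico s (s + n), ∑ i, (d2 j (h i j) x) ^ 2 :=
          Finset.sum_congr rfl fun j hj => Finset.sum_congr rfl fun i _ => by rw [hdf i j hj x]
        simp only [hG, hwf, e1, e2, hvf, neg_sq, ← sub_eq_add_neg]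
      have hsum : ∑ x, G x = (∑ x, (G x + G (flip m x))) / 2 := by
        rw [Finset.sum_add_distrib, sum_flip m G]
        ring
      change ∑ x, G x ≤ _
      rw [hsum]
      refine le_trans ?_ ih'
      rw [div_le_iff₀ (by norm_num : (0 : ℝ) < 2), Finset.sum_mul]
      refine Finset.sum_le_sum fun x _ => ?_
      rw [hGf x]
      have h1 := Expo_step (fun i => ∑ j ∈ Ico s (s + n), d2 j (h i j) x)
        (fun i => d2 (s + n) (h i (s + n)) x)
        (∑ j ∈ Ico s (s + n), ∑ i, (d2 j (h i j) x) ^ 2) lam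
      have h2 := mul_le_mul_of_nonneg_left h1 (hw x)
      simp only [hG]
      rw [← mul_add]
      refine h2.trans (le_of_eq ?_)
      ring

theorem exp_ineq {J : Type} [Fintype J] (s : ℕ) (h : J → ℕ → Dy K → ℝ) (w : Dy K → ℝ)
    (hw : ∀ x, 0 ≤ w x) (hm : Meas (s - 1) w) (lam : ℝ) :
    ∑ x, w x * (Real.cosh (lam * Real.sqrt (∑ i, (∑ j ∈ Ico s (K + 1), d2 j (h i j) x) ^ 2)) *
      Real.exp (-(lam ^ 2 / 2 * ∑ j ∈ Ico s (K + 1), ∑ i, (d2 j (h i j) x) ^ 2))) ≤ ∑ x, w x := by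
  by_cases hs : s ≤ K + 1
  · have h1 := Expo_ind s h w hw hm lam (K + 1 - s) (by omega)
    rw [Nat.add_sub_cancel' hs] at h1
    exact h1
  · have h2 : Ico s (K + 1) = ∅ := Finset.Ico_eq_empty (by omega)
    simp [h2]

/-- scalar case -/
theorem exp_ineq_scalar (s : ℕ) (h : ℕ → Dy K → ℝ) (w : Dy K → ℝ)
    (hw : ∀ x, 0 ≤ w x) (hm : Meas (s - 1) w) (lam : ℝ) :
    ∑ x, w x * (Real.cosh (lam * ∑ j ∈ Ico s (K + 1), d2 j (h j) x) *
      Real.exp (-(lam ^ 2 / 2 * ∑ j ∈ Ico s (K + 1), (d2 j (h j) x) ^ 2))) ≤ ∑ x, w x := by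
  have h1 := exp_ineq (J := Unit) s (fun _ => h) w hw hm lam
  simp only [Finset.univ_unique, Finset.sum_singleton, Real.sqrt_sq_eq_abs] at h1
  refine le_trans (le_of_eq (Finset.sum_congr rfl fun x _ => ?_)) h1
  congr 2
  rw [← Real.cosh_abs, abs_mul, ← Real.cosh_abs (lam * _), abs_mul, abs_abs]

end Pool.Agent.helper75.HX
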