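import Pool.Agent.helper75.HX.Defs

/-!
# One1 : API for dyadic averages in one variable

`e j h x` is the average of `h` over the cylinder `cyl j x` (points with the same first `j` digits as `x`).
-/

set_option autoImplicit false

namespace Pool.Agent.helper75.HX

open Finset Pool.Agent.helper18.HC

variable {K : ℕ}

theorem Meas.mono {i j : ℕ} {g : Dy K → ℝ} (h : Meas i g) (hij : i ≤ j) : Meas j g :=
  fun x x' hx => h x x' fun a ha => hx a (lt_of_lt_of_le ha hij)

theorem meas_large {j : ℕ} (hj : K ≤ j) (g : Dy K → ℝ) : Meas j g := by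
  intro x x' h
  congr 1
  funext i
  exact h i (lt_of_lt_of_le i.isLt hj)

private theorem One1_cyl_eq {j : ℕ} {x x' : Dy K} (h : ∀ i : Fin K, i.val < j → x i = x' i) :
    cyl j x = cyl j x' := by
  unfold cyl
  apply Finset.filter_congr
  intro z _
  constructor
  · intro hz i hi
    rw [hz i hi, h i hi]
  · intro hz i hi
    rw [hz i hi, h i hi]

private theorem One1_card_pos (j : ℕ) (x : Dy K) : 0 < ((cyl j x).card : ℝ) := by
  have : x ∈ cyl j x := by
    unfold cyl
    rw [Finset.mem_filter]
    exact ⟨Finset.mem_univ _, fun _ _ => rfl⟩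
  exact_mod_cast Finset.card_pos.2 ⟨x, this⟩

private theorem One1_meas_cyl {j : ℕ} {g : Dy K → ℝ} (hg : Meas j g) {x x' : Dy K}
    (h : x' ∈ cyl j x) : g x' = g x := by
  unfold cyl at h
  exact hg x' x (Finset.mem_filter.1 h).2

theorem meas_e (j : ℕ) (h : Dy K → ℝ) : Meas j (e j h) := by
  intro x x' hx
  unfold e
  rw [One1_cyl_eq hx]

theorem e_of_meas {j : ℕ} {g : Dy K → ℝ} (hg : Meas j g) (x : Dy K) : e j g x = g x := by
  unfold e
  rw [Finset.sum_congr rfl fun x' hx' => One1_meas_cyl hg hx', Finset.sum_const, nsmul_eq_mul]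
  exact mul_div_cancel_left₀ _ (One1_card_pos j x).ne'

theorem e_mul_meas {j : ℕ} {g : Dy K → ℝ} (hg : Meas j g) (h : Dy K → ℝ) (x : Dy K) :
    e j (fun x => g x * h x) x = g x * e j h x := by
  unfold e
  have h1 : ∑ x' ∈ cyl j x, g x' * h x' = ∑ x' ∈ cyl j x, g x * h x' :=
    Finset.sum_congr rfl fun x' hx' => by rw [One1_meas_cyl hg hx']
  rw [h1, ← Finset.mul_sum, mul_div_assoc]

theorem e_add (j : ℕ) (g h : Dy K → ℝ) (x : Dy K) :
    e j (fun x => g x + h x) x = e j g x + e j h x := by
  unfold e
  rw [Finset.sum_add_distrib, add_div]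

theorem e_const_mul (j : ℕ) (c : ℝ) (h : Dy K → ℝ) (x : Dy K) :
    e j (fun x => c * h x) x = c * e j h x := by
  unfold e
  rw [← Finset.mul_sum, mul_div_assoc]

theorem e_mono (j : ℕ) {g h : Dy K → ℝ} (hgh : ∀ x, g x ≤ h x) (x : Dy K) : e j g x ≤ e j h x := by
  unfold e
  exact div_le_div_of_nonneg_right (Finset.sum_le_sum fun z _ => hgh z) (One1_card_pos j x).le

private theorem One1_res_e (j : ℕ) (b : Bool) (h : Dy (K + 1) → ℝ) :
    res b (e (j + 1) h) = e j (res b h) := by
  funext x
  exact e_succ j h b x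

private theorem One1_res_e0 (b : Bool) (h : Dy (K + 1) → ℝ) :
    res b (e 0 h) = fun _ => avg h := by
  funext x
  exact e_zero h _

private theorem One1_avg_const (c : ℝ) : avg (fun _ : Dy K => c) = c := by
  unfold avg
  rw [Finset.sum_const, Finset.card_univ, card_Dy, nsmul_eq_mul]
  push_cast
  exact mul_div_cancel_left₀ _ (by positivity)

private theorem One1_avg_e : ∀ (K : ℕ) (j : ℕ) (h : Dy K → ℝ), avg (e j h) = avg h := by
  intro K
  induction K with
  | zero =>
    intro j h
    congr 1
    funext x
    exact e_large (Nat.zero_le _) h x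
  | succ K ih =>
    intro j h
    cases j with
    | zero =>
      have : e 0 h = fun _ => avg h := by
        funext x
        exact e_zero h x
      rw [this, One1_avg_const]
    | succ j =>
      rw [avg_succ, avg_succ, One1_res_e, One1_res_e, ih, ih]

private theorem One1_e_e : ∀ (K : ℕ) (i j : ℕ) (h : Dy K → ℝ) (x : Dy K),
    e i (e j h) x = e (min i j) h x := by
  intro K
  induction K with
  | zero =>
    intro i j h x
    rw [e_large (Nat.zero_le _), e_large (Nat.zero_le _), e_large (Nat.zero_le _)]
  | succ K ih =>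
    intro i j h x
    cases j with
    | zero =>
      have : e 0 h = fun _ => avg h := by
        funext x
        exact e_zero h x
      rw [this, Nat.min_zero, e_zero]
      exact e_of_meas (fun _ _ _ => rfl) x
    | succ j =>
      cases i with
      | zero => rw [Nat.zero_min, e_zero, e_zero, One1_avg_e]
      | succ i =>
        rw [← Fin.cons_self_tail x, e_succ, One1_res_e, ih, ← e_succ, Nat.succ_min_succ]

theorem e_e (i j : ℕ) (h : Dy K → ℝ) (x : Dy K) : e i (e j h) x = e (min i j) h x :=
  One1_e_e K i j h x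

theorem sum_e (j : ℕ) (h : Dy K → ℝ) : ∑ x, e j h x = ∑ x, h x := by
  have h1 := One1_avg_e K j h
  unfold avg at h1
  exact (div_left_inj' (by positivity)).1 h1

/-- `∑ g h = ∑ g e_j h` for `g` measurable at level `j`. -/
theorem sum_mul_e {j : ℕ} {g : Dy K → ℝ} (hg : Meas j g) (h : Dy K → ℝ) :
    ∑ x, g x * e j h x = ∑ x, g x * h x := by
  rw [← sum_e j fun x => g x * h x]
  exact Finset.sum_congr rfl fun x _ => (e_mul_meas hg h x).symm

/-- Jensen. -/
theorem e_abs_pow_le (j : ℕ) (h : Dy K → ℝ) (p : ℕ) (hp : 1 ≤ p) (x : Dy K) :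
    |e j h x| ^ p ≤ e j (fun x => |h x| ^ p) x := by
  have h1 : |e j h x| ≤ e j (fun x => |h x|) x := e_abs_le j h x
  refine (pow_le_pow_left₀ (abs_nonneg _) h1 p).trans ?_
  have hc := One1_card_pos j x
  have h2 := Real.pow_arith_mean_le_arith_mean_pow (cyl j x) (fun _ => 1 / ((cyl j x).card : ℝ))
    (fun x' => |h x'|) (fun _ _ => by positivity)
    (by rw [Finset.sum_const, nsmul_eq_mul]; exact mul_one_div_cancel hc.ne')
    (fun _ _ => abs_nonneg _) p
  rw [← Finset.mul_sum, ← Finset.mul_sum] at h2
  unfold e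
  rw [div_eq_mul_one_div, mul_comm, div_eq_mul_one_div (∑ x' ∈ cyl j x, |h x'| ^ p), mul_comm (∑ x' ∈ cyl j x, |h x'| ^ p)]
  exact h2

/-- `d2 j` of a difference of level `i`. -/
theorem d2_d2 (i j : ℕ) (hi : i ≤ K) (hj : j ≤ K) (h : Dy K → ℝ) (x : Dy K) :
    d2 i (d2 j h) x = if i = j then d2 j h x else 0 := by
  have hs : ∀ (i j : ℕ), e i (d2 (j + 1) h) x = e (min i (j + 1)) h x - e (min i j) h x := by
    intro i j
    have : d2 (j + 1) h = fun y => e (j + 1) h y - e j h y := rfl
    rw [this, e_sub, e_e, e_e]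
  have h0 : ∀ i : ℕ, e i (d2 0 h) x = e 0 h x := by
    intro i
    have : d2 0 h = e 0 h := rfl
    rw [this, e_e, Nat.min_zero]
  cases j with
  | zero =>
    cases i with
    | zero => rw [if_pos rfl]; exact h0 0
    | succ i =>
      rw [if_neg (Nat.succ_ne_zero i)]
      show e (i + 1) (d2 0 h) x - e i (d2 0 h) x = 0
      rw [h0, h0, sub_self]
  | succ j =>
    cases i with
    | zero =>
      rw [if_neg (Nat.succ_ne_zero j).symm]
      show e 0 (d2 (j + 1) h) x = 0
      rw [hs, Nat.zero_min, Nat.zero_min, sub_self]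
    | succ i =>
      show e (i + 1) (d2 (j + 1) h) x - e i (d2 (j + 1) h) x = _
      rw [hs, hs]
      rcases lt_trichotomy i j with hij | hij | hij
      · rw [if_neg (by omega), min_eq_left (by omega : i + 1 ≤ j + 1),
          min_eq_left (by omega : i + 1 ≤ j), min_eq_left (by omega : i ≤ j + 1),
          min_eq_left (by omega : i ≤ j)]
        ring
      · subst hij
        rw [if_pos rfl, min_self, min_eq_right (by omega : i ≤ i + 1),
          min_eq_left (by omega : i ≤ i + 1), min_self]
        show _ = e (i + 1) h x - e i h x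
        ring
      · rw [if_neg (by omega), min_eq_right (by omega : j + 1 ≤ i + 1),
          min_eq_right (by omega : j ≤ i + 1), min_eq_right (by omega : j + 1 ≤ i),
          min_eq_right (by omega : j ≤ i)]
        ring

theorem meas_d2 (j : ℕ) (h : Dy K → ℝ) : Meas j (d2 j h) := by
  cases j with
  | zero => exact meas_e 0 h
  | succ j =>
    intro x x' hx
    show e (j + 1) h x - e j h x = e (j + 1) h x' - e j h x'
    rw [meas_e (j + 1) h x x' hx, (meas_e j h).mono (Nat.le_succ j) x x' hx]

/-- Flipping the digit number `j` (for `j < K`). -/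
def flip (j : ℕ) (x : Dy K) : Dy K := fun i => if i.val = j then !(x i) else x i

theorem flip_flip (j : ℕ) (x : Dy K) : flip j (flip j x) = x := by
  funext i
  unfold flip
  by_cases hi : i.val = j
  · rw [if_pos hi, if_pos hi, Bool.not_not]
  · rw [if_neg hi, if_neg hi]

theorem sum_flip (j : ℕ) (h : Dy K → ℝ) : ∑ x, h (flip j x) = ∑ x, h x :=
  Equiv.sum_comp (Function.Involutive.toPerm (flip (K := K) j) (flip_flip j)) h

private theorem One1_flip_zero (b : Bool) (x : Dy K) :
    flip 0 (Fin.cons b x : Dy (K + 1)) = Fin.cons (!b) x := by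
  funext i
  unfold flip
  refine Fin.cases ?_ (fun i => ?_) i
  · simp
  · simp

private theorem One1_flip_succ (j : ℕ) (b : Bool) (x : Dy K) :
    flip (j + 1) (Fin.cons b x : Dy (K + 1)) = Fin.cons b (flip j x) := by
  funext i
  unfold flip
  refine Fin.cases ?_ (fun i => ?_) i
  · simp
  · simp [flip]

private theorem One1_df_flip : ∀ (K : ℕ) (j : ℕ), j < K → ∀ (h : Dy K → ℝ) (x : Dy K),
    df j h (flip j x) = -df j h x := by
  intro K
  induction K with
  | zero => intro j hj; omega
  | succ K ih =>
    intro j hj h x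
    rw [← Fin.cons_self_tail x]
    cases j with
    | zero =>
      rw [One1_flip_zero, df_zero, df_zero]
      cases x 0 <;> simp
    | succ j =>
      rw [One1_flip_succ, df_succ, df_succ]
      exact ih j (by omega) _ _

/-- `d2 (j+1)` changes sign under the flip of digit `j`. -/
theorem d2_flip {j : ℕ} (hj : j < K) (h : Dy K → ℝ) (x : Dy K) :
    d2 (j + 1) h (flip j x) = -d2 (j + 1) h x := One1_df_flip K j hj h x

theorem meas_flip {j : ℕ} {g : Dy K → ℝ} (hg : Meas j g) (x : Dy K) : g (flip j x) = g x := by
  apply hg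
  intro i hi
  unfold flip
  rw [if_neg (by omega)]

/-- The square of the difference of level `j` is measurable at level `j - 1`. -/
theorem meas_d2_sq (j : ℕ) (h : Dy K → ℝ) : Meas (j - 1) (fun x => d2 j h x ^ 2) := by
  cases j with
  | zero =>
    intro x x' hx
    show d2 0 h x ^ 2 = d2 0 h x' ^ 2
    rw [meas_d2 0 h x x' hx]
  | succ j =>
    by_cases hj : j < K
    · intro x x' hx
      show d2 (j + 1) h x ^ 2 = d2 (j + 1) h x' ^ 2
      by_cases hd : x ⟨j, hj⟩ = x' ⟨j, hj⟩
      · rw [meas_d2 (j + 1) h x x']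
        intro i hi
        by_cases hij : i.val = j
        · have : i = ⟨j, hj⟩ := Fin.ext hij
          rw [this]
          exact hd
        · exact hx i (by simp only [Nat.add_sub_cancel]; omega)
      · have h1 : d2 (j + 1) h (flip j x) = d2 (j + 1) h x' := by
          apply meas_d2 (j + 1) h
          intro i hi
          unfold flip
          by_cases hij : i.val = j
          · rw [if_pos hij]
            have : i = ⟨j, hj⟩ := Fin.ext hij
            rw [this]
            revert hd
            cases x ⟨j, hj⟩ <;> cases x' ⟨j, hj⟩ <;> simp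
          · rw [if_neg hij]
            exact hx i (by simp only [Nat.add_sub_cancel]; omega)
        rw [← h1, d2_flip hj, neg_sq]
    · exact meas_large (by simp only [Nat.add_sub_cancel]; omega) _

/-- A factor measurable at level `j - 1` can be moved out of `d2 j`, and `d2 i` of a product of such
a factor with a difference of level `j ≠ i` vanishes. -/
theorem d2_mul (i j : ℕ) (hi : i ≤ K) (hj : j ≤ K) {g : Dy K → ℝ} (hg : Meas (j - 1) g)
    (h : Dy K → ℝ) (x : Dy K) :
    d2 i (fun x => g x * d2 j h x) x = if i = j then g x * d2 j h x else 0 := by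
  cases j with
  | zero =>
    have hu : Meas 0 (fun x => g x * d2 0 h x) := by
      intro x x' hx
      show g x * d2 0 h x = g x' * d2 0 h x'
      rw [hg x x' hx, meas_d2 0 h x x' hx]
    have he : ∀ i, e i (fun x => g x * d2 0 h x) x = g x * d2 0 h x := fun i =>
      e_of_meas (hu.mono (Nat.zero_le i)) x
    cases i with
    | zero => rw [if_pos rfl]; exact he 0
    | succ i =>
      rw [if_neg (Nat.succ_ne_zero i)]
      show e (i + 1) (fun x => g x * d2 0 h x) x - e i (fun x => g x * d2 0 h x) x = 0
      rw [he, he, sub_self]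
  | succ j =>
    rw [Nat.add_sub_cancel] at hg
    have hu : Meas (j + 1) (fun x => g x * d2 (j + 1) h x) := by
      intro x x' hx
      show g x * d2 (j + 1) h x = g x' * d2 (j + 1) h x'
      rw [hg.mono (Nat.le_succ j) x x' hx, meas_d2 (j + 1) h x x' hx]
    have hbig : ∀ i, j + 1 ≤ i → e i (fun x => g x * d2 (j + 1) h x) x = g x * d2 (j + 1) h x :=
      fun i hi => e_of_meas (hu.mono hi) x
    have hj0 : e j (fun x => g x * d2 (j + 1) h x) = fun _ => 0 := by
      funext y
      rw [e_mul_meas hg]
      have : d2 (j + 1) h = fun y => e (j + 1) h y - e j h y := rfl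
      rw [this, e_sub, e_e, e_e, min_eq_left (Nat.le_succ j), min_self, sub_self, mul_zero]
    have hsmall : ∀ i, i ≤ j → e i (fun x => g x * d2 (j + 1) h x) x = 0 := by
      intro i hi
      have h1 := e_e i j (fun x => g x * d2 (j + 1) h x) x
      rw [min_eq_left hi, hj0, e_const_zero] at h1
      exact h1.symm
    cases i with
    | zero =>
      rw [if_neg (Nat.succ_ne_zero j).symm]
      exact hsmall 0 (Nat.zero_le j)
    | succ i =>
      show e (i + 1) (fun x => g x * d2 (j + 1) h x) x - e i (fun x => g x * d2 (j + 1) h x) x = _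
      rcases lt_trichotomy i j with hij | hij | hij
      · rw [if_neg (by omega), hsmall _ (by omega), hsmall _ (by omega), sub_self]
      · subst hij
        rw [if_pos rfl, hbig _ le_rfl, hsmall _ le_rfl, sub_zero]
      · rw [if_neg (by omega), hbig _ (by omega), hbig _ (by omega), sub_self]


end Pool.Agent.helper75.HX
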