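import Pool.Agent.helper75.HX.Two2
import Pool.Agent.helper75.HX.Point

/-!
# Pairs : the majorant for the increments of small energy

`UP² = 1 + 4 e^{-2κ} ∑_{s,t ∈ T} (cosh(lam X) exp(-lam² V/2) + cosh(lam √V) exp(-lam² ε/2))`, `lam = 4κ²`, `X = Rs (btw s t) f`,
`V = Vr (btw s t) f`, `ε = En (btw s t) f` (all summands are `≥ 0`).
`pair_le`: `Hs t f - Hs s f = Rs (btw s t) f` (`Hs_sub`), `point_pair`, take the square root: `|X|^p = √(|X|^{2p})`.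
`sum_UP_sq`: `exp_X` and `exp_V` for every pair: `∑_S UP² ≤ |S| + 4 e^{-2κ} |T|² 2|S| ≤ 9|S|` as `|T| ≤ e^κ`.
-/

set_option autoImplicit false

namespace Pool.Agent.helper75.HX

open Finset Pool.Agent.helper18.HC

variable {K L : ℕ}

/-- The majorant of the increments. -/
noncomputable def UP (T : Finset ℕ) (κ : ℝ) (f : Dy K → Dy L → ℝ) (x : Dy K) (y : Dy L) : ℝ :=
  Real.sqrt (1 + 4 * Real.exp (-(2 * κ)) * ∑ s ∈ T, ∑ t ∈ T,
    (Real.cosh (4 * κ ^ 2 * Rs (btw s t) f x y) *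
        Real.exp (-((4 * κ ^ 2) ^ 2 / 2 * Vr (btw s t) f x y)) +
      Real.cosh (4 * κ ^ 2 * Real.sqrt (Vr (btw s t) f x y)) *
        Real.exp (-((4 * κ ^ 2) ^ 2 / 2 * En (btw s t) f x y))))

theorem UP_nonneg (T : Finset ℕ) (κ : ℝ) (f : Dy K → Dy L → ℝ) (x : Dy K) (y : Dy L) :
    0 ≤ UP T κ f x y := Real.sqrt_nonneg _

theorem Vr_nonneg (ρ : ℕ → ℕ → Bool) (f : Dy K → Dy L → ℝ) (x : Dy K) (y : Dy L) :
    0 ≤ Vr ρ f x y :=
  Finset.sum_nonneg fun _ _ => sq_nonneg _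

theorem En_nonneg (ρ : ℕ → ℕ → Bool) (f : Dy K → Dy L → ℝ) (x : Dy K) (y : Dy L) :
    0 ≤ En ρ f x y :=
  Finset.sum_nonneg fun _ _ => Finset.sum_nonneg fun _ _ => by
    split_ifs
    · exact sq_nonneg _
    · exact le_rfl

/-- Increments of the hyperbolic sums. -/
theorem Hs_sub {s t : ℕ} (h : s ≤ t) (f : Dy K → Dy L → ℝ) (x : Dy K) (y : Dy L) :
    Hs t f x y - Hs s f x y = Rs (btw s t) f x y := by
  unfold Hs Rs
  rw [← Finset.sum_sub_distrib]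
  refine Finset.sum_congr rfl fun j _ => ?_
  rw [← Finset.sum_sub_distrib]
  refine Finset.sum_congr rfl fun k _ => ?_
  simp only [lt, btw, decide_eq_true_eq]
  by_cases h1 : j + k < s
  · rw [if_pos (by omega), if_pos h1, if_neg (by omega), sub_self]
  · by_cases h2 : j + k < t
    · rw [if_pos h2, if_neg h1, if_pos (by omega), sub_zero]
    · rw [if_neg h2, if_neg h1, if_neg (by omega), sub_zero]

theorem Hs_zero (f : Dy K → Dy L → ℝ) (x : Dy K) (y : Dy L) : Hs 0 f x y = 0 := by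
  unfold Hs Rs
  refine Finset.sum_eq_zero fun j _ => Finset.sum_eq_zero fun k _ => ?_
  simp [lt]

theorem Pairs_term_nonneg (κ : ℝ) (f : Dy K → Dy L → ℝ) (x : Dy K) (y : Dy L) (s t : ℕ) :
    0 ≤ Real.cosh (4 * κ ^ 2 * Rs (btw s t) f x y) *
        Real.exp (-((4 * κ ^ 2) ^ 2 / 2 * Vr (btw s t) f x y)) +
      Real.cosh (4 * κ ^ 2 * Real.sqrt (Vr (btw s t) f x y)) *
        Real.exp (-((4 * κ ^ 2) ^ 2 / 2 * En (btw s t) f x y)) :=
  add_nonneg (mul_nonneg (Real.cosh_pos _).le (Real.exp_pos _).le)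
    (mul_nonneg (Real.cosh_pos _).le (Real.exp_pos _).le)

theorem Pairs_arg_nonneg (T : Finset ℕ) (κ : ℝ) (f : Dy K → Dy L → ℝ) (x : Dy K) (y : Dy L) :
    0 ≤ 1 + 4 * Real.exp (-(2 * κ)) * ∑ s ∈ T, ∑ t ∈ T,
      (Real.cosh (4 * κ ^ 2 * Rs (btw s t) f x y) *
        Real.exp (-((4 * κ ^ 2) ^ 2 / 2 * Vr (btw s t) f x y)) +
      Real.cosh (4 * κ ^ 2 * Real.sqrt (Vr (btw s t) f x y)) *
        Real.exp (-((4 * κ ^ 2) ^ 2 / 2 * En (btw s t) f x y))) := by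
  have h1 := Finset.sum_nonneg fun s (_ : s ∈ T) => Finset.sum_nonneg fun t (_ : t ∈ T) =>
    Pairs_term_nonneg κ f x y s t
  have h2 : 0 < Real.exp (-(2 * κ)) := Real.exp_pos _
  have h3 := mul_nonneg (mul_nonneg (by norm_num : (0 : ℝ) ≤ 4) h2.le) h1
  linarith

theorem pair_le {T : Finset ℕ} {κ : ℝ} (p : ℕ) (hκ1 : 1 ≤ κ) (hκ : 4 * p ≤ κ)
    (f : Dy K → Dy L → ℝ) (x : Dy K) (y : Dy L) {s t : ℕ} (hs : s ∈ T) (ht : t ∈ T) (hst : s ≤ t)
    (hε : En (btw s t) f x y ≤ 1 / (16 * κ ^ 4)) :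
    |Hs t f x y - Hs s f x y| ^ p ≤ UP T κ f x y := by
  rw [Hs_sub hst]
  unfold UP
  apply Real.le_sqrt_of_sq_le
  rw [← pow_mul, mul_comm p 2]
  refine (point_pair p κ (Rs (btw s t) f x y) (Vr (btw s t) f x y) (En (btw s t) f x y) hκ1 hκ
    (Vr_nonneg _ _ _ _) hε).trans ?_
  have h2 : 0 < Real.exp (-(2 * κ)) := Real.exp_pos _
  have h3 := Finset.single_le_sum (f := fun t' =>
    (Real.cosh (4 * κ ^ 2 * Rs (btw s t') f x y) *
        Real.exp (-((4 * κ ^ 2) ^ 2 / 2 * Vr (btw s t') f x y)) +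
      Real.cosh (4 * κ ^ 2 * Real.sqrt (Vr (btw s t') f x y)) *
        Real.exp (-((4 * κ ^ 2) ^ 2 / 2 * En (btw s t') f x y))))
    (fun t' _ => Pairs_term_nonneg κ f x y s t') ht
  have h4 := Finset.single_le_sum (f := fun s' => ∑ t' ∈ T,
    (Real.cosh (4 * κ ^ 2 * Rs (btw s' t') f x y) *
        Real.exp (-((4 * κ ^ 2) ^ 2 / 2 * Vr (btw s' t') f x y)) +
      Real.cosh (4 * κ ^ 2 * Real.sqrt (Vr (btw s' t') f x y)) *
        Real.exp (-((4 * κ ^ 2) ^ 2 / 2 * En (btw s' t') f x y))))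
    (fun s' _ => Finset.sum_nonneg fun t' _ => Pairs_term_nonneg κ f x y s' t') hs
  have h5 := mul_le_mul_of_nonneg_left (h3.trans h4)
    (mul_nonneg (by norm_num : (0 : ℝ) ≤ 4) h2.le)
  exact add_le_add_right h5 1

theorem sum_UP_sq {T : Finset ℕ} {κ : ℝ} (hκ : Real.log T.card ≤ κ)
    {f : Dy K → Dy L → ℝ} {S : Finset (Dy K × Dy L)} (hS : SuppIn f S) :
    ∑ z ∈ S, (UP T κ f z.1 z.2) ^ 2 ≤ 9 * S.card := by
  have h1 : ∀ z ∈ S, (UP T κ f z.1 z.2) ^ 2 = 1 + 4 * Real.exp (-(2 * κ)) * ∑ s ∈ T, ∑ t ∈ T,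
      (Real.cosh (4 * κ ^ 2 * Rs (btw s t) f z.1 z.2) *
        Real.exp (-((4 * κ ^ 2) ^ 2 / 2 * Vr (btw s t) f z.1 z.2)) +
      Real.cosh (4 * κ ^ 2 * Real.sqrt (Vr (btw s t) f z.1 z.2)) *
        Real.exp (-((4 * κ ^ 2) ^ 2 / 2 * En (btw s t) f z.1 z.2))) := by
    intro z _
    exact Real.sq_sqrt (Pairs_arg_nonneg T κ f z.1 z.2)
  rw [Finset.sum_congr rfl h1, Finset.sum_add_distrib, ← Finset.mul_sum, Finset.sum_comm]
  have h2 : ∑ s ∈ T, ∑ z ∈ S, ∑ t ∈ T,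
      (Real.cosh (4 * κ ^ 2 * Rs (btw s t) f z.1 z.2) *
        Real.exp (-((4 * κ ^ 2) ^ 2 / 2 * Vr (btw s t) f z.1 z.2)) +
      Real.cosh (4 * κ ^ 2 * Real.sqrt (Vr (btw s t) f z.1 z.2)) *
        Real.exp (-((4 * κ ^ 2) ^ 2 / 2 * En (btw s t) f z.1 z.2))) ≤
      T.card * (T.card * (2 * (S.card : ℝ))) := by
    rw [← nsmul_eq_mul]
    refine Finset.sum_le_card_nsmul _ _ _ fun s _ => ?_
    rw [Finset.sum_comm, ← nsmul_eq_mul]
    refine Finset.sum_le_card_nsmul _ _ _ fun t _ => ?_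
    rw [Finset.sum_add_distrib]
    have e1 := exp_X (btw s t) hS (4 * κ ^ 2)
    have e2 := exp_V (btw s t) hS (4 * κ ^ 2)
    linarith
  have h3 : (T.card : ℝ) ≤ Real.exp κ := by
    rcases Nat.eq_zero_or_pos T.card with h | h
    · rw [h, Nat.cast_zero]
      exact (Real.exp_pos _).le
    · rw [← Real.exp_log (show (0 : ℝ) < T.card by exact_mod_cast h)]
      exact Real.exp_le_exp.2 hκ
  have h4 : Real.exp (-(2 * κ)) * (Real.exp κ * Real.exp κ) = 1 := by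
    rw [← Real.exp_add, ← Real.exp_add]
    have : -(2 * κ) + (κ + κ) = 0 := by ring
    rw [this, Real.exp_zero]
  have h5 : (T.card : ℝ) * T.card ≤ Real.exp κ * Real.exp κ :=
    mul_le_mul h3 h3 (Nat.cast_nonneg _) (Real.exp_pos _).le
  have h6 : 0 < Real.exp (-(2 * κ)) := Real.exp_pos _
  have h7 : Real.exp (-(2 * κ)) * ((T.card : ℝ) * T.card) ≤ 1 := by
    rw [← h4]
    exact mul_le_mul_of_nonneg_left h5 h6.le
  have h8 : (0 : ℝ) ≤ S.card := Nat.cast_nonneg _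
  rw [Finset.sum_const, nsmul_eq_mul, mul_one]
  calc (S.card : ℝ) + 4 * Real.exp (-(2 * κ)) * _
      ≤ S.card + 4 * Real.exp (-(2 * κ)) * (T.card * (T.card * (2 * (S.card : ℝ)))) := by
        have := mul_le_mul_of_nonneg_left h2 (mul_nonneg (by norm_num : (0 : ℝ) ≤ 4) h6.le)
        linarith
    _ = S.card + 8 * S.card * (Real.exp (-(2 * κ)) * ((T.card : ℝ) * T.card)) := by ring
    _ ≤ S.card + 8 * S.card * 1 := by
        have := mul_le_mul_of_nonneg_left h7 (mul_nonneg (by norm_num : (0 : ℝ) ≤ 8) h8)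
        linarith
    _ = 9 * S.card := by ring

end Pool.Agent.helper75.HX
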