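import Pool.Agent.helper75.HX.Two1

/-!
# Split : the decomposition of a hyperbolic sum at `(j, k)`

Let `j + k < m`, `j ≤ K`, `k ≤ L`.  `Hs m f = ∑_{j'+k'<m} DD j' k' f`.
* `j' > j`: `R = ∑_{j' > j} D1 j' (u j')`, `u j' = ∑_{k' < m - j'} D2 k' f` (`= E2 (m-1-j') f`, or `0` if `j' ≥ m`).
* `j' ≤ j`, `k' > k`: `Q = ∑_{k' > k} D2 k' (v k')`, `v k' = ∑_{j' ≤ j, j' < m - k'} D1 j' f` (`= E1 (min j (m-1-k')) f` or `0`).
* `j' ≤ j`, `k' ≤ k`: all pairs satisfy `j' + k' < m`: `E1 j (E2 k f)`.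
`|D1 j' (u j')| ≤ M2 (D1 j' f)` (`D1_E2`, `le_Sup2`), so `∑ (D1 j' (u j'))² ≤ G1 f`; similarly for `Q`.
-/

set_option autoImplicit false

namespace Pool.Agent.helper75.HX

open Finset Pool.Agent.helper18.HC

variable {K L : ℕ}

/-- `u j' = E2 (m-1-j') f` if `j' < m`, else `0` -/
noncomputable def uR (m : ℕ) (f : Dy K → Dy L → ℝ) (j' : ℕ) : Dy K → Dy L → ℝ :=
  if j' < m then E2 (m - 1 - j') f else fun _ _ => 0

/-- `v k' = E1 (min j (m-1-k')) f` if `k' < m`, else `0` -/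
noncomputable def vQ (m j : ℕ) (f : Dy K → Dy L → ℝ) (k' : ℕ) : Dy K → Dy L → ℝ :=
  if k' < m then E1 (min j (m - 1 - k')) f else fun _ _ => 0

theorem Split_D1_zero (j : ℕ) (x : Dy K) (y : Dy L) : D1 j (fun _ _ => (0 : ℝ)) x y = 0 := by
  rw [D1_eq]
  cases j with
  | zero => exact e_const_zero 0 x
  | succ j =>
    show e (j + 1) (fun _ => (0 : ℝ)) x - e j (fun _ => (0 : ℝ)) x = 0
    rw [e_const_zero, e_const_zero, sub_zero]

theorem Split_D2_zero (k : ℕ) (x : Dy K) (y : Dy L) : D2 k (fun _ _ => (0 : ℝ)) x y = 0 := by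
  rw [D2_eq]
  cases k with
  | zero => exact e_const_zero 0 y
  | succ k =>
    show e (k + 1) (fun _ => (0 : ℝ)) y - e k (fun _ => (0 : ℝ)) y = 0
    rw [e_const_zero, e_const_zero, sub_zero]

theorem Split_R (m j' : ℕ) (f : Dy K → Dy L → ℝ) (x : Dy K) (y : Dy L) :
    ∑ k' ∈ range (L + 1), (if j' + k' < m then DD j' k' f x y else 0) =
      D1 j' (uR m f j') x y := by
  unfold uR
  by_cases h : j' < m
  · rw [if_pos h, D1_E2, E2_eq, ← sum_d2_if]
    refine sum_congr rfl fun k' _ => ?_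
    by_cases h1 : j' + k' < m
    · rw [if_pos h1, if_pos (by omega), ← D2_eq, DD, D1_D2]
    · rw [if_neg h1, if_neg (by omega)]
  · rw [if_neg h, Split_D1_zero]
    exact sum_eq_zero fun k' _ => if_neg (by omega)

theorem Split_Q (m j k' : ℕ) (f : Dy K → Dy L → ℝ) (x : Dy K) (y : Dy L) :
    ∑ j' ∈ range (j + 1), (if j' + k' < m then DD j' k' f x y else 0) =
      D2 k' (vQ m j f k') x y := by
  unfold vQ
  by_cases h : k' < m
  · rw [if_pos h, D2_E1, ← sum_D1, ← sum_filter]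
    refine sum_congr ?_ fun j' _ => rfl
    ext j'
    simp only [mem_filter, mem_range]
    omega
  · rw [if_neg h, Split_D2_zero]
    exact sum_eq_zero fun k' _ => if_neg (by omega)

theorem Hs_split {m j k : ℕ} (h : j + k < m) (hj : j ≤ K) (hk : k ≤ L) (f : Dy K → Dy L → ℝ)
    (x : Dy K) (y : Dy L) :
    Hs m f x y = E1 j (E2 k f) x y + ∑ k' ∈ Ico (k + 1) (L + 1), D2 k' (vQ m j f k') x y +
      ∑ j' ∈ Ico (j + 1) (K + 1), D1 j' (uR m f j') x y := by
  have h0 : Hs m f x y = ∑ j' ∈ range (K + 1), ∑ k' ∈ range (L + 1),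
      (if j' + k' < m then DD j' k' f x y else 0) := by
    unfold Hs Rs lt
    simp only [decide_eq_true_eq]
  rw [h0, ← sum_range_add_sum_Ico _ (show j + 1 ≤ K + 1 by omega)]
  congr 1
  · have h1 : ∀ j' ∈ range (j + 1), ∑ k' ∈ range (L + 1),
        (if j' + k' < m then DD j' k' f x y else 0) =
        D1 j' (E2 k f) x y + ∑ k' ∈ Ico (k + 1) (L + 1),
          (if j' + k' < m then DD j' k' f x y else 0) := by
      intro j' hj'
      rw [mem_range] at hj'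
      rw [← sum_range_add_sum_Ico _ (show k + 1 ≤ L + 1 by omega)]
      congr 1
      rw [D1_E2, ← sum_D2]
      refine sum_congr rfl fun k' hk' => ?_
      rw [mem_range] at hk'
      rw [if_pos (by omega), DD, D1_D2]
    rw [sum_congr rfl h1, sum_add_distrib, sum_D1, sum_comm]
    congr 1
    exact sum_congr rfl fun k' _ => Split_Q m j k' f x y
  · exact sum_congr rfl fun j' _ => Split_R m j' f x y

theorem sq_R_le (m j : ℕ) (f : Dy K → Dy L → ℝ) (x : Dy K) (y : Dy L) :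
    ∑ j' ∈ Ico (j + 1) (K + 1), (D1 j' (uR m f j') x y) ^ 2 ≤ G1 f x y := by
  have h1 : ∀ j' ∈ Ico (j + 1) (K + 1),
      (D1 j' (uR m f j') x y) ^ 2 ≤ (M2 (D1 j' f) x y) ^ 2 := by
    intro j' _
    unfold uR
    by_cases h : j' < m
    · rw [if_pos h, D1_E2, E2_eq, ← sq_abs]
      exact pow_le_pow_left₀ (abs_nonneg _) (le_Sup2 _ _ _) 2
    · rw [if_neg h, Split_D1_zero, zero_pow two_ne_zero]
      exact sq_nonneg _
  refine (sum_le_sum h1).trans ?_
  unfold G1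
  refine sum_le_sum_of_subset_of_nonneg ?_ fun _ _ _ => sq_nonneg _
  intro a ha
  rw [mem_Ico] at ha
  exact mem_range.2 ha.2

theorem sq_Q_le (m j k : ℕ) (f : Dy K → Dy L → ℝ) (x : Dy K) (y : Dy L) :
    ∑ k' ∈ Ico (k + 1) (L + 1), (D2 k' (vQ m j f k') x y) ^ 2 ≤ G2 f x y := by
  have h1 : ∀ k' ∈ Ico (k + 1) (L + 1),
      (D2 k' (vQ m j f k') x y) ^ 2 ≤ (M1 (D2 k' f) x y) ^ 2 := by
    intro k' _
    unfold vQ
    by_cases h : k' < m
    · rw [if_pos h, D2_E1, E1_eq, ← sq_abs]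
      exact pow_le_pow_left₀ (abs_nonneg _) (le_Sup2 _ _ _) 2
    · rw [if_neg h, Split_D2_zero, zero_pow two_ne_zero]
      exact sq_nonneg _
  refine (sum_le_sum h1).trans ?_
  unfold G2
  refine sum_le_sum_of_subset_of_nonneg ?_ fun _ _ _ => sq_nonneg _
  intro a ha
  rw [mem_Ico] at ha
  exact mem_range.2 ha.2

end Pool.Agent.helper75.HX
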