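import Pool.Agent.helper75.HX.Two1
import Pool.Agent.helper75.HX.Expo

/-!
# Two2 : exponential inequalities in two variables, localized to the support

`SuppIn f S`.  `exp_X`: for fixed `y` apply `exp_ineq_scalar` (`s = 0`, `w = 1`) to
`h j = fun x => ∑_k if ρ j k then D2 k f x y else 0`: `d2 j (h j) x = ∑_k if ρ j k then DD j k f x y else 0`, so the sum over all
`(x, y)` of `cosh(lam Rs) exp(-lam² Vr/2)` is at most the number of all points; outside `S` the summand is
`1` (all double differences vanish), subtract.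
`exp_V`: for fixed `x` apply `exp_ineq` in the variable `y` with `J = Fin (K+1)`,
`h i k = fun y => if ρ i k then D1 i f x y else 0` (`d2 k (h i k) y = if ρ i k then DD i k f x y else 0`); again subtract
the points outside `S`.
`exp_R`: weighted one-variable version, for later use: `w ≥ 0` measurable at level `s - 1` in `x`.
-/

set_option autoImplicit false

namespace Pool.Agent.helper75.HX

open Finset Pool.Agent.helper18.HC

variable {K L : ℕ}

theorem Two2_sub {F : Dy K × Dy L → ℝ} {S : Finset (Dy K × Dy L)} (h1 : ∀ z, z ∉ S → F z = 1)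
    (hF : ∑ z, F z ≤ Fintype.card (Dy K × Dy L)) : ∑ z ∈ S, F z ≤ S.card := by
  classical
  have h2 : ∑ z, F z = ∑ z ∈ S, F z + ∑ z ∈ Sᶜ, F z := (Finset.sum_add_sum_compl S F).symm
  have h3 : ∑ z ∈ Sᶜ, F z = (Sᶜ.card : ℝ) := by
    rw [Finset.sum_congr rfl fun z hz => h1 z (Finset.mem_compl.1 hz)]
    simp
  have h4 : (S.card : ℝ) + (Sᶜ.card : ℝ) = Fintype.card (Dy K × Dy L) := by
    exact_mod_cast Finset.card_add_card_compl S
  linarith

theorem Two2_d2_sum {s : Finset ℕ} (j : ℕ) (g : ℕ → Dy K → ℝ) (x : Dy K) :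
    d2 j (fun x => ∑ k ∈ s, g k x) x = ∑ k ∈ s, d2 j (g k) x := by
  cases j with
  | zero => exact e_sum 0 g x
  | succ j =>
    simp only [d2]
    rw [e_sum, e_sum, Finset.sum_sub_distrib]

theorem Two2_d2_zero (j : ℕ) (x : Dy K) : d2 j (fun _ => (0 : ℝ)) x = 0 := by
  cases j with
  | zero => exact e_const_zero 0 x
  | succ j =>
    simp only [d2]
    rw [e_const_zero, e_const_zero, sub_zero]

theorem Two2_d2_ite (j : ℕ) (b : Bool) (g : Dy K → ℝ) (x : Dy K) :
    d2 j (fun x => if b then g x else 0) x = if b then d2 j g x else 0 := by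
  cases b with
  | true => simp
  | false => simpa using Two2_d2_zero j x

theorem Two2_sumx (F : Dy K × Dy L → ℝ) (hF : ∀ y, ∑ x, F (x, y) ≤ Fintype.card (Dy K)) :
    ∑ z, F z ≤ Fintype.card (Dy K × Dy L) := by
  rw [Fintype.sum_prod_type_right]
  calc ∑ y, ∑ x, F (x, y) ≤ ∑ _y : Dy L, (Fintype.card (Dy K) : ℝ) :=
        Finset.sum_le_sum fun y _ => hF y
    _ = _ := by
        rw [Finset.sum_const, Finset.card_univ, nsmul_eq_mul, Fintype.card_prod]
        push_cast
        ring

theorem Two2_sumy (F : Dy K × Dy L → ℝ) (hF : ∀ x, ∑ y, F (x, y) ≤ Fintype.card (Dy L)) :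
    ∑ z, F z ≤ Fintype.card (Dy K × Dy L) := by
  rw [Fintype.sum_prod_type]
  calc ∑ x, ∑ y, F (x, y) ≤ ∑ _x : Dy K, (Fintype.card (Dy L) : ℝ) :=
        Finset.sum_le_sum fun x _ => hF x
    _ = _ := by
        rw [Finset.sum_const, Finset.card_univ, nsmul_eq_mul, Fintype.card_prod]
        push_cast
        ring

theorem Two2_meas_one (j : ℕ) : Meas j (fun _ : Dy K => (1 : ℝ)) := fun _ _ _ => rfl


theorem exp_X (ρ : ℕ → ℕ → Bool) {f : Dy K → Dy L → ℝ} {S : Finset (Dy K × Dy L)}
    (hS : SuppIn f S) (lam : ℝ) :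
    ∑ z ∈ S, Real.cosh (lam * Rs ρ f z.1 z.2) * Real.exp (-(lam ^ 2 / 2 * Vr ρ f z.1 z.2)) ≤
      S.card := by
  refine Two2_sub ?_ (Two2_sumx _ fun y => ?_)
  · rintro ⟨x, y⟩ hz
    have h0 : ∀ j k, DD j k f x y = 0 := hS x y hz
    have h1 : Rs ρ f x y = 0 := by
      unfold Rs
      simp [h0]
    have h2 : Vr ρ f x y = 0 := by
      unfold Vr
      simp [h0]
    simp only [h1, h2]
    simp
  · have h := exp_ineq_scalar 0 (fun j x => ∑ k ∈ range (L + 1), if ρ j k then D2 k f x y else 0)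
      (fun _ => 1) (fun _ => zero_le_one) (Two2_meas_one _) lam
    have h1 : ∀ j x, d2 j (fun x => ∑ k ∈ range (L + 1), if ρ j k then D2 k f x y else 0) x =
        ∑ k ∈ range (L + 1), if ρ j k then DD j k f x y else 0 := by
      intro j x
      rw [Two2_d2_sum j (fun k x => if ρ j k then D2 k f x y else 0) x]
      refine Finset.sum_congr rfl fun k _ => ?_
      rw [Two2_d2_ite]
      unfold DD
      rw [D1_eq]
    simp only [h1, one_mul, ← Finset.range_eq_Ico] at h
    refine h.trans (le_of_eq ?_)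
    simp

theorem exp_V (ρ : ℕ → ℕ → Bool) {f : Dy K → Dy L → ℝ} {S : Finset (Dy K × Dy L)}
    (hS : SuppIn f S) (lam : ℝ) :
    ∑ z ∈ S, Real.cosh (lam * Real.sqrt (Vr ρ f z.1 z.2)) *
      Real.exp (-(lam ^ 2 / 2 * En ρ f z.1 z.2)) ≤ S.card := by
  refine Two2_sub ?_ (Two2_sumy _ fun x => ?_)
  · rintro ⟨x, y⟩ hz
    have h0 : ∀ j k, DD j k f x y = 0 := hS x y hz
    have h1 : En ρ f x y = 0 := by
      unfold En
      simp [h0]
    have h2 : Vr ρ f x y = 0 := by
      unfold Vr
      simp [h0]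
    simp only [h1, h2]
    simp
  · have h := exp_ineq 0 (fun (i : Fin (K + 1)) k y => if ρ i k then D1 i f x y else 0)
      (fun _ : Dy L => 1) (fun _ => zero_le_one) (Two2_meas_one _) lam
    have h1 : ∀ (i : Fin (K + 1)) k y, d2 k (fun y => if ρ i k then D1 i f x y else 0) y =
        if ρ i k then DD i k f x y else 0 := by
      intro i k y
      rw [Two2_d2_ite]
      unfold DD
      rw [D1_D2, D2_eq]
    simp only [h1, one_mul, ← Finset.range_eq_Ico] at h
    have h2 : ∀ y, ∑ i : Fin (K + 1), (∑ k ∈ range (L + 1),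
        if ρ i k then DD i k f x y else 0) ^ 2 = Vr ρ f x y := by
      intro y
      unfold Vr
      rw [Finset.sum_range]
    have h3 : ∀ y, ∑ k ∈ range (L + 1), ∑ i : Fin (K + 1),
        (if ρ i k then DD i k f x y else 0) ^ 2 = En ρ f x y := by
      intro y
      unfold En
      rw [Finset.sum_comm, Finset.sum_range]
      refine Finset.sum_congr rfl fun i _ => Finset.sum_congr rfl fun k _ => ?_
      split_ifs <;> simp
    simp only [h2, h3] at h
    refine h.trans (le_of_eq ?_)
    simp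

/-- Weighted version in the first variable: `h j` arbitrary functions, levels `j ≥ s`. -/
theorem exp_R1 (s : ℕ) (h : ℕ → Dy K → Dy L → ℝ) (w : Dy K → Dy L → ℝ) (hw : ∀ x y, 0 ≤ w x y)
    (hm : ∀ y, Meas (s - 1) (fun x => w x y)) :
    SS (fun x y => w x y * (Real.cosh (∑ j ∈ Ico s (K + 1), D1 j (h j) x y) *
      Real.exp (-(1 / 2 * ∑ j ∈ Ico s (K + 1), (D1 j (h j) x y) ^ 2)))) ≤ SS w := by
  unfold SS
  rw [Finset.sum_comm, Finset.sum_comm (f := fun x y => w x y)]
  refine Finset.sum_le_sum fun y _ => ?_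
  have h1 := exp_ineq_scalar s (fun j x => h j x y) (fun x => w x y) (fun x => hw x y) (hm y) 1
  simp only [one_mul, one_pow] at h1
  simp only [D1_eq]
  exact h1

/-- Weighted version in the second variable. -/
theorem exp_R2 (s : ℕ) (h : ℕ → Dy K → Dy L → ℝ) (w : Dy K → Dy L → ℝ) (hw : ∀ x y, 0 ≤ w x y)
    (hm : ∀ x, Meas (s - 1) (fun y => w x y)) :
    SS (fun x y => w x y * (Real.cosh (∑ k ∈ Ico s (L + 1), D2 k (h k) x y) *
      Real.exp (-(1 / 2 * ∑ k ∈ Ico s (L + 1), (D2 k (h k) x y) ^ 2)))) ≤ SS w := by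
  unfold SS
  refine Finset.sum_le_sum fun x _ => ?_
  have h1 := exp_ineq_scalar s (fun k => h k x) (w x) (fun y => hw x y) (hm x) 1
  simp only [one_mul, one_pow] at h1
  simp only [D2_eq]
  exact h1

/-- The exponential inequality for `F2` and symmetric variants follow by exchanging the variables:
for `F2` (square function in `y`, energy `En all`). -/
theorem exp_F2 {f : Dy K → Dy L → ℝ} {S : Finset (Dy K × Dy L)} (hS : SuppIn f S) (lam : ℝ) :
    ∑ z ∈ S, Real.cosh (lam * Real.sqrt (F2 f z.1 z.2)) *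
      Real.exp (-(lam ^ 2 / 2 * En all f z.1 z.2)) ≤ S.card := by
  refine Two2_sub ?_ (Two2_sumx _ fun y => ?_)
  · rintro ⟨x, y⟩ hz
    have h0 : ∀ j k, DD j k f x y = 0 := hS x y hz
    have h1 : En all f x y = 0 := by
      unfold En
      simp [h0]
    have h2 : F2 f x y = 0 := by
      unfold F2
      simp [D2_eq_sum, h0]
    simp only [h1, h2]
    simp
  · have h := exp_ineq 0 (fun (i : Fin (L + 1)) (_ : ℕ) x => D2 i f x y)
      (fun _ : Dy K => 1) (fun _ => zero_le_one) (Two2_meas_one _) lam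
    have h1 : ∀ (i : Fin (L + 1)) j x, d2 j (fun x => D2 i f x y) x = DD j i f x y := by
      intro i j x
      unfold DD
      rw [D1_eq]
    simp only [h1, one_mul, ← Finset.range_eq_Ico, ← D2_eq_sum] at h
    have h2 : ∀ x, ∑ i : Fin (L + 1), (D2 i f x y) ^ 2 = F2 f x y := by
      intro x
      unfold F2
      rw [Finset.sum_range]
    have h3 : ∀ x, ∑ j ∈ range (K + 1), ∑ i : Fin (L + 1), (DD j i f x y) ^ 2 = En all f x y := by
      intro x
      unfold En
      refine Finset.sum_congr rfl fun j _ => ?_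
      rw [Finset.sum_range]
      refine Finset.sum_congr rfl fun i _ => ?_
      simp [all]
    simp only [h2, h3] at h
    refine h.trans (le_of_eq ?_)
    simp

end Pool.Agent.helper75.HX
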